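import Pool.Agent.LRG.Defs

/-!
# Squad LRG, block A: from fields to points (author helper5)

GOAL: `UnvConcl` (row UNV), `FalConcl` (row FAL), `SizConcl` (row SIZ) of `LRG/Defs.lean`.

DELIVER: `Pool/Agent/HelperNN_LRG/XXX.lean`, import `Pool.Agent.LRG.StmtsA`, namespace
`Pool.Agent.LRG.HNN`, `theorem xxx (hypotheses = rows in uses, in this order) : A.XxxStmt`
(for UNV, FAL, SIZ: `: UnvConcl`, `: FalConcl`, `: SizConcl`). Landed theorems of squad LUB may be
imported and used (full names below).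
-/

set_option autoImplicit false

open Polynomial NumberField
open Pool.Agent.Helper85_Leo (LeopoldtAt HasLog)
open Pool.Agent.LUB (LogMod emb)

namespace Pool.Agent.LRG.A

/-- MCH (100 lines, no hypotheses). The minimal polynomial of a unit which generates the field.
PROOF. Write `P = minpoly ℤ θ`, `θ = u`. `P` is monic (`minpoly.monic`, `θ` is integral), and its
image in `ℚ[X]` is `minpoly ℚ (θ : K)` (`minpoly.isIntegrallyClosed_eq_field_fractions'`), of degree
`[ℚ(θ) : ℚ] = [K : ℚ] = n` (`IntermediateField.adjoin.finrank`, `IntermediateField.finrank_top'`).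
First claim: compare coefficients; `chi` has the coefficient `1` at `n`, `y j` at `j + 1 < n`, the
constant coefficient `e` (here `n ≥ 1`), and `0` above `n` (`Polynomial.finset_sum_coeff`,
`coeff_C_mul_X_pow`). Second claim: `θ * θ⁻¹ = 1` in `𝓞 K`; `algebraMap ℤ` of the constant
coefficient `c` of `P` is the norm of `θ` up to sign
(`Algebra.norm ℤ θ`, `Algebra.norm_eq_unit_of..`; the norm of a unit is a unit of `ℤ`, use
`(u.isUnit.map (Algebra.norm ℤ))` and `Int.isUnit_iff`; `Algebra.norm ℚ (θ : K) = (-1) ^ n * c` by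
`Algebra.PowerBasis.norm_gen_eq_coeff_zero_minpoly` for the power basis of `θ`, or
`Algebra.norm_eq_norm_adjoin`, and `Algebra.coe_norm_int`).
Without norms: let `Q` be the minimal polynomial over `ℤ` of `θ⁻¹`, monic of the same degree `n`
(`ℚ(θ⁻¹) = ℚ(θ)`); the reverse of `P` vanishes at `θ⁻¹` and has degree `≤ n`, so it is `c * Q`
(`minpoly.isIntegrallyClosed_dvd`), and its constant coefficient is `1`: `c` divides `1`. -/
def MchStmt : Prop := ∀ (n : ℕ) (K : Type) [Field K] [NumberField K] (u : (𝓞 K)ˣ),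
  Module.finrank ℚ K = n → IntermediateField.adjoin ℚ {((u : 𝓞 K) : K)} = ⊤ →
  minpoly ℤ (u : 𝓞 K) = chi n ((minpoly ℤ (u : 𝓞 K)).coeff 0)
    (fun j => (minpoly ℤ (u : 𝓞 K)).coeff (j.1 + 1)) ∧
  ((minpoly ℤ (u : 𝓞 K)).coeff 0 = 1 ∨ (minpoly ℤ (u : 𝓞 K)).coeff 0 = -1)

/-- SPL (100 lines, no hypotheses). The minimal polynomial over the conjugates.
PROOF. `θ` generates `K`, so two homomorphisms `K → E` which agree at `θ` are equal (they agree on
`ℚ(θ) = ⊤`: the set where they agree is a subfield containing `ℚ` and `θ`;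
`IntermediateField.adjoin_le_iff`, or `AlgHom` extensionality after `RingHom.equivRatAlgHom`).
Second claim: the conjugates `σ θ` are `[K : ℚ]` different roots in `E` of the monic polynomial
`(minpoly ℤ θ).map`, whose degree is `[K : ℚ]` (see MCH), and there are `[K : ℚ]` embeddings
(`NumberField.Embeddings.card`), so the polynomial is the product over them
(`Polynomial.prod_multiset_X_sub_C_of_monic_of_roots_card_eq`, or Mathlib's
`NumberField.Embeddings.range_eval_eq_rootSet_minpoly`; or compare: the product of the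
`X - C (σ θ)` divides the polynomial (`Finset.prod_dvd_of_coprime`), both monic of the same
degree, `Polynomial.eq_of_monic_of_dvd_of_natDegree_le`). -/
def SplStmt : Prop := ∀ (K : Type) [Field K] [NumberField K] (θ : 𝓞 K),
  IntermediateField.adjoin ℚ {(θ : K)} = ⊤ → ∀ (E : Type) [Field E] [CharZero E] [IsAlgClosed E],
  (Function.Injective fun σ : K →+* E => σ (θ : K)) ∧
  (minpoly ℤ θ).map (Int.castRingHom E) = ∏ σ : K →+* E, (X - C (σ (θ : K)))

/-- TRC (60 lines, no hypotheses). The trace is the sum of the conjugates.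
PROOF. `Algebra.coe_trace_int`: the trace over `ℤ` of `v : 𝓞 K` is the trace over `ℚ` of `(v : K)`.
`trace_eq_sum_embeddings` (sum over `K →ₐ[ℚ] E`), and the bijection of `K →+* E` with
`K →ₐ[ℚ] E` (`RingHom.equivRatAlgHom`; `Fintype.sum_equiv`). -/
def TrcStmt : Prop := ∀ (K : Type) [Field K] [NumberField K] (v : 𝓞 K) (E : Type) [Field E]
  [CharZero E] [IsAlgClosed E],
  ((Algebra.trace ℤ (𝓞 K) v : ℤ) : E) = ∑ σ : K →+* E, σ (v : K)

/-- SIZ (120 lines): `SizConcl`.
PROOF. By `LRG.GenStmt` every `u i` generates `K`. First claim: MCH. Second claim, coordinates of the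
first kind: the coefficients of `minpoly ℤ (u i)`; over `ℂ` the polynomial is `∏ (X - σ (u i))`
(SPL), with `n` roots of absolute value `≤ X`, `X ≥ 1`, so every coefficient has absolute value at
most `choose n k * X ^ (n - k) ≤ 2 ^ n * X ^ n` (`Polynomial.coeff_le_of_roots_le` /
`coeff_bdd_of_roots_le`, `Nat.choose_le_two_pow`; or `Polynomial.coeff` of a product of linear
factors = `Multiset.esymm`). Second kind: TRC, a sum of `n` numbers of absolute value at most
`X ^ a * X ^ b ≤ X ^ (2 n)`, `a, b < n` (`NumberField.Embeddings.card` for the number `n` of the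
summands). In both cases the bound is at most `(2 ^ n * n) * X ^ (2 * n)` (`n ≥ 1`, `X ≥ 1`). -/
def SizStmt : Prop := SizConcl

/-- UNM (100 lines, no hypotheses). A power of `Y` is congruent to one modulo `p ^ 2`.
PROOF. For every `i` use `Pool.Agent.LUB.H52.uni : Pool.Agent.LUB.UniStmt` (file
`Pool/Agent/Helper52_LUB/UNI.lean`) for the monic polynomial `F = chiI e z₀ i` over `ℤ` (monic:
`0 < n`) and `u = X`: the hypothesis `∃ a b c, X * a + F * b = 1 + C p * c` holds with `c = 0`, since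
`F = X * q + C (e i)` for some `q`, so `F * C (e i) = X * (q * C (e i)) + 1` by `e i ^ 2 = 1`. This
gives `M i > 0`. With `M = ∏ i, M i` one has `X ^ M = 1` modulo `(p ^ 2, chiI e z₀ i)` for every `i`
(as in `Pool.Agent.LUB.H25.unp`, file `Helper25_LUB/UNP.lean`: `x = 1 + C (p^2) a + F b` implies
`x ^ k = 1 + C (p^2) a' + F b'` by induction). -/
def UnmStmt : Prop := ∀ (p : ℕ) [Fact p.Prime] (n r : ℕ) (z₀ : Ix n r → ℤ) (e : Fin r → ℤ),
  (∀ i, e i = 1 ∨ e i = -1) → 0 < n →
  ∃ M : ℕ, 0 < M ∧ ∀ i, ∃ a b : ℤ[X],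
    (X : ℤ[X]) ^ M = 1 + C ((p : ℤ) ^ 2) * a + chiI e z₀ i * b

/-- SHF (60 lines, no hypotheses). Changing the coordinates modulo `p ^ 2`.
PROOF. Map the relation to `S[X]` (`Int.castRingHom S`; `chiI` of mapped coordinates is the mapped
`chiI`, the constants `e i` are integers). `chiI e (fun s => z₀ s + p ^ 2 * g s) i =
chiI e (fun s => z₀ s) i + C (p ^ 2) * q` with `q = ∑ j, C (g (Sum.inl (i, j))) * X ^ (j + 1)`. So
`X ^ M = 1 + C (p ^ 2) * (a - q * b) + chiI e y i * b`. -/
def ShfStmt : Prop := ∀ (p n r : ℕ) (z₀ : Ix n r → ℤ) (e : Fin r → ℤ) (M : ℕ) (i : Fin r)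
  (a b : ℤ[X]), (X : ℤ[X]) ^ M = 1 + C ((p : ℤ) ^ 2) * a + chiI e z₀ i * b →
  ∀ (S : Type) [CommRing S] (g : Ix n r → S), ∃ w b' : S[X],
    (X : S[X]) ^ M = 1 + C ((p : S) ^ 2) * w +
      chiI e (fun s => (z₀ s : S) + (p : S) ^ 2 * g s) i * b'

/-- MAP (80 lines, no hypotheses). `LogMod`, `chiI` and `gram` commute with homomorphisms.
PROOF. (1) Map `l = ∑ C (algebraMap lc_k) w ^ k + C (p ^ N) a + F b` with `Polynomial.map φ`
(`φ (algebraMap _ S c) = algebraMap _ S' c`, `φ p = p`). (2), (3): unfold, `Polynomial.map_add`,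
`Polynomial.coeff_map`, `map_sum`; the constant `C ((e i : ℤ) : S)` maps to the same constant
(`map_intCast`). -/
def MapStmt : Prop := ∀ (p : ℕ) [Fact p.Prime] (S S' : Type) [CommRing S] [CommRing S']
  [Algebra ℤ_[p] S] [Algebra ℤ_[p] S'] (φ : S →ₐ[ℤ_[p]] S'),
  (∀ F w l : S[X], LogMod p F w l → LogMod p (F.map φ.toRingHom) (w.map φ.toRingHom)
    (l.map φ.toRingHom)) ∧
  ∀ (n r : ℕ) (y : Ix n r → S) (e : Fin r → ℤ),
    (∀ i, (chiI e y i).map φ.toRingHom = chiI e (fun s => φ (y s)) i) ∧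
    ∀ l : Fin r → S[X], φ ((gram y l).det) =
      (gram (fun s => φ (y s)) (fun i => (l i).map φ.toRingHom)).det

/-- PCM (40 lines, no hypotheses). Rings of power series over `ℤ_p` are `p`-adically complete.
PROOF. `Pool.Agent.LUB.H79.pc_base` and `Pool.Agent.LUB.H79.pc_mv` (file
`Pool/Agent/Helper79_LUB/PCS.lean`). -/
def PcmStmt : Prop := ∀ (p : ℕ) [Fact p.Prime] (σ : Type), LUB.PC p (MvPowerSeries σ ℤ_[p])

/-- UNV (150 lines; uses UNM, SHF, MAP, PCM): `UnvConcl`.
PROOF. Take `M` of UNM. Over `S = MvPowerSeries (Ix n r) ℤ_[p]` with `g s = X s`,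
`yS s = z₀ s + p ^ 2 X s`, SHF gives `w i`, `b i` with `X ^ M = 1 + p ^ 2 w i + chiI e yS i * b i`.
`chiI e yS i` is monic of degree `n` (`0 < n`). By `Pool.Agent.LUB.H35.ell` (file
`Pool/Agent/Helper35_LUB/ELL.lean`; PCM) there is `l i` of degree `< n` with
`LogMod p (chiI e yS i) (w i) (l i)`. Put `F = (gram yS l).det`. For an algebra homomorphism
`φ : S → O` and `y s = z₀ s + p ^ 2 φ (X s) = φ (yS s)` map everything by MAP
(`degree` of a mapped polynomial does not grow: the coefficients `m ≥ n` are `0`). -/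
def UnvStmt : Prop := UnvConcl

/-- CRG (60 lines, no hypotheses). If the values of the `l i` at the conjugates are dependent, the
Gram determinant vanishes.
PROOF. For `i`, `i'` the entry of the Gram matrix, mapped to `E`, is
`∑ a b, (l i)_a (l i')_b ∑ σ, x i σ ^ a * x i' σ ^ b = ∑ σ, L i σ * L i' σ`, where
`L i σ = ∑ a < n, (l i)_a x i σ ^ a`. So with the vector `c ≠ 0`, `∑ i', G i i' * c i' =
∑ σ, L i σ * (∑ i', c i' * L i' σ) = 0`: the matrix has a nonzero kernel vector over the field `E`,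
its determinant is `0` (`Matrix.exists_mulVec_eq_zero_iff`), and `f` is injective. -/
def CrgStmt : Prop := ∀ (n r : ℕ) (R E : Type) [CommRing R] [Field E] (f : R →+* E),
  Function.Injective f → ∀ (κ : Type) [Fintype κ] (y : Ix n r → R) (l : Fin r → R[X])
    (x : Fin r → κ → E),
    (∀ i i' (a b : Fin n), f (y (Sum.inr (i, i', a, b))) =
      ∑ σ, x i σ ^ (a : ℕ) * x i' σ ^ (b : ℕ)) →
    (∀ i m, n ≤ m → (l i).coeff m = 0) →
    ∀ c : Fin r → E, c ≠ 0 → (∀ σ, ∑ i, c i * eval₂ f (x i σ) (l i) = 0) →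
    (gram y l).det = 0

/-- FLG (120 lines, no hypotheses). The polynomials `l i` give the logarithms of the conjugates.
PROOF. `ξ = σ u` has norm `≤ 1` in `ℂ_[p]` (`Pool.Agent.Helper85_Leo.norm_embedding_le_one`), it is
a root of `minpoly ℤ u`, i.e. `eval₂ (emb p) ξ F = 0` for `F = (minpoly ℤ u).map (Int.castRingHom
ℤ_[p])` (`emb p` of an integer is the integer). So the relation gives
`ξ ^ M = 1 + p ^ 2 * eval₂ (emb p) ξ w`, and `Pool.Agent.LUB.H83.hlg : Pool.Agent.LUB.HlgStmt`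
(file `Pool/Agent/Helper83_LUB/HLG.lean`) gives `HasLog`. (`unitVal σ u` of `Helper85_Leo/Units.lean` is `σ ((u : 𝓞 K) : K)`.) See
the proof of `Pool.Agent.LUB.H83C.cri` (file `Pool/Agent/Helper83_LUB/CRI.lean`) for the same
steps. -/
def FlgStmt : Prop := ∀ (p : ℕ) [Fact p.Prime] (K : Type) [Field K] [NumberField K]
  (u : (𝓞 K)ˣ) (M : ℕ) (w b l : ℤ_[p][X]),
  (X : ℤ_[p][X]) ^ M = 1 + C ((p : ℤ_[p]) ^ 2) * w +
    (minpoly ℤ (u : 𝓞 K)).map (Int.castRingHom ℤ_[p]) * b →
  LogMod p ((minpoly ℤ (u : 𝓞 K)).map (Int.castRingHom ℤ_[p])) w l →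
  ∀ σ : K →+* ℂ_[p], HasLog p (σ ((u : 𝓞 K) : K) ^ M) (eval₂ (emb p) (σ ((u : 𝓞 K) : K)) l)

/-- FAL (150 lines; uses LRG.GenStmt, MCH, SPL, TRC, CRG, FLG): `FalConcl`.
PROOF. The evaluation `φ : MvPowerSeries (Ix n r) ℤ_[p] →ₐ ℤ_[p]` at `x` exists
(`Pool.Agent.LUB.H89.evh`, file `Helper89_LUB/EVH.lean`; `‖x s‖ < 1` because `p ∣ x s`,
`PadicInt.norm_int_lt_one_iff_dvd`). `Univ` for `O = ℤ_[p]`, `φ` and
`y s = z₀ s + p ^ 2 * φ (X s) = (pt n K u s : ℤ_[p])` gives `w`, `b`, `l`, and `φ F = (gram y l).det`.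
It remains to prove `(gram y l).det = 0`. By MCH (all `u i` generate `K`, `LRG.GenStmt`) and
`cst K u = e`: `chiI e (pt n K u) i = minpoly ℤ (u i)`, so `chiI e y i` is its image over `ℤ_[p]`.
By FLG all `HasLog p (σ (u i) ^ M) (L σ i)`, `L σ i = eval₂ (emb p) (σ (u i)) (l i)`. Suppose
the determinant is not `0`. Then by CRG (`E = ℂ_[p]`, `f = emb p`, `κ = (K →+* ℂ_[p])`,
`x i σ = σ (u i)`; the traces: TRC) every `c` with `∑ i, c i * L σ i = 0` for all `σ` is `0`, and
`Pool.Agent.Helper65_Leo.leopoldtAt_of_independent_logs` (file `Helper65_Leo/Local.lean`) with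
`η = u`, `e = M`, the embeddings `σ` and `Units.rank K = r` proves `LeopoldtAt K p`, a
contradiction. (`K →+* ℂ_[p]` is a `Fintype`.) -/
def FalStmt : Prop := FalConcl

end Pool.Agent.LRG.A
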