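import Pool.Agent.LRG.Defs

/-!
# Squad LRG, block Z: fields and their points, counting, assembly

Statements with proofs.
-/

set_option autoImplicit false

open Polynomial NumberField
open Pool.Agent.Helper85_Leo (LeopoldtAt)

namespace Pool.Agent.LRG

/-- GEN (60 lines). A unit which is not a root of unity generates a primitive field.
PROOF. `E = ℚ(u i)` is `⊥` or `⊤` (`Primitive`). If `E = ⊥`, then `u i` is a rational number and an
algebraic integer together with its inverse, so it is `1` or `-1` (`IsIntegrallyClosed.isIntegral_iff`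
for `ℤ`, units of `ℤ`), hence `u i ^ 2 = 1`; with `c = Pi.single i 2` the hypothesis `Indep u` gives
`c = 0`, a contradiction. -/
def GenStmt : Prop := ∀ (K : Type) [Field K] [NumberField K] (r : ℕ) (u : Fin r → (𝓞 K)ˣ),
  Primitive K → Indep u → ∀ i, IntermediateField.adjoin ℚ {((u i : 𝓞 K) : K)} = ⊤

/-- FIB (80 lines). At most `n` subfields of `ℂ` have a generator with a given minimal polynomial.
PROOF. The map `K ↦ z = θ` (as a complex number, `θ` chosen for `K`) is injective on this set since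
`K = ℚ(z)`: the adjunction `ℚ(θ) = ⊤` in `K` means `IntermediateField.adjoin ℚ {(θ : ℂ)} = K` in `ℂ`
(`IntermediateField.lift`, `adjoin_map` along `K.val`). Its values are roots of `f` in `ℂ`
(`minpoly.aeval`, map to `ℂ`), and `f` is monic (`θ` is integral) of degree `n`
(`minpoly ℤ θ` maps to `minpoly ℚ θ`, of degree `[ℚ(θ) : ℚ] = n`), so there are at most `n` roots. -/
def FibStmt : Prop := ∀ (n : ℕ) (f : ℤ[X]),
  {K : IntermediateField ℚ ℂ | ∃ _ : NumberField K, Module.finrank ℚ K = n ∧ ∃ θ : 𝓞 K,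
    minpoly ℤ θ = f ∧ IntermediateField.adjoin ℚ {(θ : K)} = ⊤}.encard ≤ n

/-- The bad primitive fields with short units whose point lies in the class of `z₀` modulo
`p ^ 3`, with the constant coefficients `e`. -/
def ClsBad (p : ℕ) [Fact p.Prime] (n r : ℕ) (z₀ : Ix n r → ℤ) (e : Fin r → ℤ) (X : ℝ) :
    Set (IntermediateField ℚ ℂ) :=
  {K | ∃ (_ : NumberField K) (u : Fin r → (𝓞 K)ˣ), Module.finrank ℚ K = n ∧
    Units.rank K = r ∧ Primitive K ∧ Indep u ∧ Bdd u X ∧ cst K u = e ∧
    (∀ s, (p : ℤ) ^ 3 ∣ pt n K u s - z₀ s) ∧ ¬ LeopoldtAt K p}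

/-- CLS (STRONG, 300 lines). The bound in one class.
PROOF. If some `e i` is not `1` or `-1`, the set is empty (`SizConcl`). Otherwise let `M`, `F` be
those of `UnvConcl`, `K₀` the number of `BlkConcl` for `n`, `r`, and `B` the number of `PpwConcl` for
`σ = Ix n r`, `F`, `ε' = ε / (2 n)` and `K₀ + 1`. For every `K` in the set choose (classically) `u`,
and put `x K s = (pt n K u s - z₀ s) / p ^ 2`, so `pt = z₀ + p ^ 2 x`, `p ∣ x K s`, and
`|x K s| ≤ A X ^ (2 n)` with `A = 2 ^ n * n + ∑ |z₀ s|` (`SizConcl`, `X ≥ 1`).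
(1) Every fibre of `K ↦ x K` has at most `n` elements: the point determines `minpoly ℤ (u 0)` (the
coefficients `1, ..., n - 1` are coordinates, the constant coefficient is `e 0`, it is monic of degree
`n` since `ℚ(u 0) = K` by GEN), so FIB applies. (2) Let `P` be the set of all `x K`, finite because
the coordinates are bounded integers. By `FalConcl` the series `F` vanishes at its points. Suppose
`P.card > B (A X ^ (2 n)) ^ ε'`; `PpwConcl` gives `z`, `x₀`, `ξ`. Let `κ` be the set of the points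
`z k` and `x₀` (a subtype of `P`), choose for every `k : κ` a field `K k` of the set with point `k`
(different points have different fields), and apply `BlkConcl` with these fields: at most `K₀` fields,
but the `z k` give `K₀ + 1` different ones. (3) So the set has at most
`n * P.card ≤ n * (B + 1) * (A X ^ (2 n)) ^ ε' ≤ C X ^ ε` elements (use `max B 0`; `Set.ncard` of a
union of fibres, or `Finset.card_le_mul_card_image`). -/
def ClsStmt : Prop := UnvConcl → FalConcl → SizConcl → BlkConcl → PpwConcl → GenStmt → FibStmt →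
  ∀ (p : ℕ) [Fact p.Prime] (n r : ℕ) (z₀ : Ix n r → ℤ) (e : Fin r → ℤ) (ε : ℝ), 0 < ε → 0 < r →
    1 < n → ∃ C : ℝ, ∀ X : ℝ, 1 ≤ X → (ClsBad p n r z₀ e X).Finite ∧
      ((ClsBad p n r z₀ e X).ncard : ℝ) ≤ C * X ^ ε

/-- The conclusion of CLS. -/
def ClsConcl : Prop := ∀ (p : ℕ) [Fact p.Prime] (n r : ℕ) (z₀ : Ix n r → ℤ) (e : Fin r → ℤ)
  (ε : ℝ), 0 < ε → 0 < r → 1 < n → ∃ C : ℝ, ∀ X : ℝ, 1 ≤ X → (ClsBad p n r z₀ e X).Finite ∧
    ((ClsBad p n r z₀ e X).ncard : ℝ) ≤ C * X ^ ε

/-- CNT (120 lines). Sum over the classes.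
PROOF. `ShortFlds n r X ∩ Bad p` is contained in the union of the sets `ClsBad p n r z₀ e X` over
the finitely many `z₀ : Ix n r → ℤ` with values in `{0, ..., p ^ 3 - 1}` and `e` with values `1`,
`-1` (`SizConcl`): take `z₀ s = pt s % p ^ 3` and `e = cst`. (The two proofs of `NumberField K` in
the definitions of `ShortFlds` and `Bad` are equal by proof irrelevance.) Add up the constants of
`ClsConcl`. -/
def CntStmt : Prop := SizConcl → ClsConcl → CntConcl

/-- PRI (60 lines). For prime degree every number field is primitive, and the degree is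
`r₁ + 2 r₂`.
PROOF. `Module.finrank ℚ E` divides `Module.finrank ℚ K` (tower law), and `finrank ℚ E = 1` gives
`E = ⊥`, `finrank ℚ E = finrank ℚ K` gives `E = ⊤` (`IntermediateField.finrank_eq_one_iff`,
`IntermediateField.eq_of_le_of_finrank_eq`). The degree is
`InfinitePlace.card_add_two_mul_card_eq_rank`. -/
def PriStmt : Prop := ∀ r₁ r₂ : ℕ, Nat.Prime (r₁ + 2 * r₂) → ∀ T : ℝ,
  PrimReg r₁ r₂ T = AllReg r₁ r₂ T

/-- FIN (80 lines). Finiteness of the set of primitive fields of bounded regulator.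
PROOF. Put `n = r₁ + 2 r₂`, `r = r₁ + r₂ - 1 ≥ 2`, `T' = max T 1`, `δ = 1`, and let `H` be the number
of `RegConcl`. Every `K` in `PrimReg r₁ r₂ T` has degree `n`
(`InfinitePlace.card_add_two_mul_card_eq_rank`) and unit rank `r` (`Units.rank` is the number of
the infinite places minus one), so it lies in `OneFlds n Y` with
`Y = exp (max 1 H * T' ^ (1 / r))`: in the second case of `RegConcl` restrict `u` to its first unit
(`Indep` of one member follows from `Indep u`). `OneConcl` gives the finiteness. -/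
def FinStmt : Prop := OneConcl → RegConcl → ∀ r₁ r₂ : ℕ, 3 ≤ r₁ + r₂ → ∀ T : ℝ,
  (PrimReg r₁ r₂ T).Finite

/-- UPR (150 lines). The upper bound for the bad fields.
PROOF. Let `n`, `r` be as in FIN, `C₁ > 0` the constant of `OneConcl` (may be enlarged), `δ = ε / C₁`,
`H` the number of `RegConcl` for this `δ`, `ε' = ε / H`, and `C₂` the constant of `CntConcl` for `ε'`.
For `T ≥ 1` the set `PrimReg r₁ r₂ T ∩ Bad p` is contained in the union of
`OneFlds n (exp (δ T ^ (1 / r)))`, of cardinality at most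
`C₁ exp (δ T ^ (1 / r)) ^ C₁ = C₁ exp (ε T ^ (1 / r))`, and of
`ShortFlds n r (exp (H T ^ (1 / r))) ∩ Bad p`, of cardinality at most `C₂ exp (ε T ^ (1 / r))`.
For `0 ≤ T ≤ 1` the set is contained in the finite set for `T = 1`, and the right hand side is at
least `C`. Exponents: `(r : ℝ) = r₁ + r₂ - 1`. -/
def UprStmt : Prop := OneConcl → RegConcl → CntConcl → ∀ (p : ℕ) [Fact p.Prime] (r₁ r₂ : ℕ),
  3 ≤ r₁ + r₂ → ∀ ε : ℝ, 0 < ε → ∃ C : ℝ, ∀ T : ℝ, 0 ≤ T →
    ((PrimReg r₁ r₂ T ∩ Bad p).ncard : ℝ) ≤ C * Real.exp (ε * T ^ (1 / ((r₁ : ℝ) + r₂ - 1)))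

end Pool.Agent.LRG
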