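import Pool.Agent.LRG.DefsC
import Pool.Agent.LRG.StmtsA
import Pool.Agent.LRG.StmtsZ

/-!
# Squad LRG, block C: an arc carries boundedly many fields (author helper5)

GOAL: `BlkConcl` (row BKF) of `LRG/Defs.lean`, from `KolConcl` (`StmtsK`, helper69).

IDEA. On the arc `ξ` the roots `x i j` of the polynomials `chiI` lie in a differential field `Ω`.
`S` = the set of the CONSTANT products `∏ x ^ μ`; they are algebraic over `ℚ` (ALG, by `t → 0`). Every
field `K k` of the arc gives a homomorphism `g k : ℤ[ξ, x] → ℂ` with `ξ → x k` (SPZ) which maps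
`x i j` to the conjugates of the unit `u i` of `K k` (MAT). `g k` maps `S` into the normal number
field `B = CjF S` generated by all conjugates of the elements of `S`, and `B` is contained in the
normal closure of `K k` (LEN). If `K k` is not contained in `B`, then, `K k` being primitive, the
conjugates of `K k` are linearly disjoint from `B` (INF, NRM), the elements `g k (β)`, `β ∈ S`, have
absolute value `1` (NR2), so the logarithms `log |σ (u i)|` satisfy all the relations of the arc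
(LGR), and the top form identity of `KolConcl` says that their Gram determinant is `0` (GRZ):
this contradicts Dirichlet's theorem (GDZ, IND). So all `K k` are contained in `B`, which has
boundedly many subfields (LZD, NSF).

DELIVER: `Pool/Agent/HelperNN_LRG/XXX.lean`, import `Pool.Agent.LRG.StmtsC`, namespace
`Pool.Agent.LRG.HNN`, `theorem xxx (hypotheses = rows in uses, in this order) : CX.XxxStmt`
(for BKF: `: BlkConcl`).
-/

set_option autoImplicit false

open Polynomial NumberField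

namespace Pool.Agent.LRG.CX

/-- The ring generated by the coordinates `η s` of the arc and the roots `x i j`. -/
def Rx {n r : ℕ} {Ω : Type} [Field Ω] (η : Ix n r → Ω) (x : Fin r → Fin n → Ω) : Subring Ω :=
  Subring.closure (Set.range η ∪ Set.range fun k : Fin r × Fin n => x k.1 k.2)

/-- The subfield of `ℂ` generated by all conjugates of the elements of `S`. -/
noncomputable def CjF {Ω : Type} [Field Ω] [CharZero Ω] (S : Set Ω) : IntermediateField ℚ ℂ :=
  IntermediateField.adjoin ℚ {c : ℂ | ∃ β ∈ S, aeval c (minpoly ℚ β) = 0}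

/-! ### Fields and homomorphisms -/

/-- LYO (120 lines, no hypotheses). Lying over: extension of a homomorphism to an integral extension.
PROOF. `A ≤ B` is an integral extension of domains. `P = ker f` is a prime ideal of `A`; there is a
prime ideal `Q` of `B` over `P` (`Ideal.exists_ideal_over_prime_of_isIntegral_of_isDomain`, or
`Ideal.exists_ideal_over_prime_of_isIntegral`, for the algebra `B` over `A` by `Subring.inclusion`).
`B / Q` is a domain, integral over `A / P`, which embeds into `E` by `f`. `Frac (B / Q)` is algebraic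
over `Frac (A / P)`, so the embedding `Frac (A / P) → E` extends to it (`IsAlgClosed.lift`).
`Pool.Agent.LUB.H32.sph` (file `Pool/Agent/Helper32_LUB/SPH.lean`) is the same argument for
`A = ℤ[T]`: adapt it. -/
def LyoStmt : Prop := ∀ (Ω : Type) [Field Ω] (A B : Subring Ω) (h : A ≤ B),
  (∀ b ∈ B, ∃ P : A[X], P.Monic ∧ eval₂ A.subtype b P = 0) → ∀ (E : Type) [Field E]
    [IsAlgClosed E] (f : A →+* E), ∃ g : B →+* E, ∀ a : A, g (Subring.inclusion h a) = f a

/-- OMR (100 lines, no hypotheses). The differential field of an arc.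
PROOF. Let `yA s = z₀ s + p ^ 2 * ξ s` in `A = ℤ_p[[t]]`, `F = ∏ i, chiI e yA i`, monic (`0 < n`).
`Pool.Agent.LUB.H80.omg : Pool.Agent.LUB.OmgStmt` (file `Pool/Agent/Helper80_LUB/OMG.lean`) gives `Ω`
and `D` with `F.map (algebraMap A Ω)` a product of linear factors `X - C (θ j)`. The image of
`chiI e yA i`, which is `chiI e (yO z₀ ξ Ω) i`, divides this product, so it splits over `Ω`; it is
monic of degree `n`, so it is `∏ (X - C r)` over its `n` roots (with multiplicity), which one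
enumerates by `Fin n` (`Pool.Agent.Helper65_Leo.exists_enum` in `Helper65_Leo/Arch.lean` is this
enumeration for `ℂ`; a list of length `n` is a function on `Fin n`). -/
def OmrStmt : Prop := ∀ (p : ℕ) [Fact p.Prime] (n r : ℕ) (z₀ : Ix n r → ℤ) (e : Fin r → ℤ)
  (ξ : Ix n r → PowerSeries ℤ_[p]), 0 < n →
  ∃ (Ω : Type) (_ : Field Ω) (_ : CharZero Ω) (_ : Algebra (PowerSeries ℤ_[p]) Ω)
    (D : Derivation ℤ Ω Ω) (x : Fin r → Fin n → Ω), Arc p z₀ e ξ Ω D x

/-- CPR (40 lines, no hypotheses). The product of the roots.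
PROOF. Evaluate `X ^ n + ∑ j, C (y j) * X ^ (j + 1) + C e = ∏ (X - C (x j))` at `0` (`0 < n`):
`e = ∏ (- x j) = (-1) ^ n * ∏ x j`. -/
def CprStmt : Prop := ∀ (S : Type) [CommRing S] (n : ℕ) (e : ℤ) (y : Fin (n - 1) → S)
  (x : Fin n → S), 0 < n → (e = 1 ∨ e = -1) → chi n e y = ∏ j, (X - C (x j)) →
  ∏ j, x j = 1 ∨ ∏ j, x j = -1

/-- RUN (60 lines, no hypotheses). Products of powers of the roots lie in every subring containing
the roots.
PROOF. `x i j ≠ 0` since the product over `j` is `± 1`, and `(x i j)⁻¹ = ± ∏_{j' ≠ j} x i j'` lies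
in `R`; so every integer power of `x i j` lies in `R`. For the last claim: `g` maps the unit `x i j`
of `R` to a unit; `map_zpow` for the group homomorphism of the units (or: multiply by the negative
powers). -/
def RunStmt : Prop := ∀ (Ω : Type) [Field Ω] (n r : ℕ) (R : Subring Ω) (x : Fin r → Fin n → Ω)
  (hx : ∀ i j, x i j ∈ R), (∀ i, ∏ j, x i j = 1 ∨ ∏ j, x i j = -1) →
  (∀ i j, x i j ≠ 0) ∧ (∀ μ : Fin r × Fin n → ℤ, ∏ k, x k.1 k.2 ^ μ k ∈ R) ∧
  ∀ (E : Type) [Field E] (g : R →+* E), (∀ i j, g ⟨x i j, hx i j⟩ ≠ 0) ∧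
    ∀ (μ : Fin r × Fin n → ℤ) (h : ∏ k, x k.1 k.2 ^ μ k ∈ R),
      g ⟨∏ k, x k.1 k.2 ^ μ k, h⟩ = ∏ k : Fin r × Fin n, g ⟨x k.1 k.2, hx k.1 k.2⟩ ^ μ k

/-- SPZ (120 lines; uses LYO). The specialization at an integral point.
PROOF. Let `A` be the image of `MvPolynomial (Ix n r) ℤ` in `Ω` under `aeval η` (a subring,
`(MvPolynomial.aeval η).range.toSubring`, equal to the closure of `Set.range η`). By hypothesis
`eval z` factors through it: `f : A →+* ℂ`, `f (η s) = z s`
(`Ideal.Quotient.lift` / `RingHom.liftOfSurjective` for `rangeRestrict`). `A ≤ B = Rx η x`, and all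
elements of `B` are integral over `A`: the generators `x i j` are roots of
`∏ j (X - C (x i j)) = chiI e (z₀ + p ^ 2 η) i`, monic (`0 < n`) with coefficients in `A`; integral
elements form a ring (`integralClosure`, `Subring.closure_le`). LYO. -/
def SpzStmt : Prop := ∀ (Ω : Type) [Field Ω] (n r p : ℕ) (z₀ : Ix n r → ℤ) (e : Fin r → ℤ)
  (η : Ix n r → Ω) (x : Fin r → Fin n → Ω), 0 < n →
  (∀ i, chiI e (fun s => (z₀ s : Ω) + (p : Ω) ^ 2 * η s) i = ∏ j, (X - C (x i j))) →
  ∀ z : Ix n r → ℤ, (∀ q : MvPolynomial (Ix n r) ℤ, MvPolynomial.aeval η q = 0 →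
    MvPolynomial.eval z q = 0) →
  ∃ g : Rx η x →+* ℂ, ∀ (s : Ix n r) (h : η s ∈ Rx η x), g ⟨η s, h⟩ = (z s : ℂ)

/-- MAT (120 lines; uses A.MCH, A.SPL). The roots go to the conjugates of the units.
PROOF. Both sides of `chiI e (z₀ + p ^ 2 η) i = ∏ j (X - C (x i j))` are images of polynomials over
`Rx η x` (the inclusion into `Ω` is injective), so the equation holds over `Rx η x`; map it by `g`:
`chiI e (z₀ + p ^ 2 z) i = ∏ j (X - C (g (x i j)))` over `ℂ`. The left hand side is the image of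
`minpoly ℤ (u i)` (MCH, `cst K u = e`, `pt n K u = z₀ + p ^ 2 z`), i.e. `∏ σ (X - C (σ (u i)))` (SPL).
So the multisets `{g (x i j)}` and `{σ (u i)}` are equal (`Polynomial.roots_multiset_prod_X_sub_C`),
the second one has no repetition (SPL, first claim), so `j ↦ g (x i j)` is injective with the same
range, and this gives the bijection `π i` (`n = Fintype.card (K →+* ℂ)`,
`NumberField.Embeddings.card`). -/
def MatStmt : Prop := ∀ (Ω : Type) [Field Ω] (n r p : ℕ) (z₀ : Ix n r → ℤ) (e : Fin r → ℤ)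
  (η : Ix n r → Ω) (x : Fin r → Fin n → Ω), 0 < n →
  (∀ i, chiI e (fun s => (z₀ s : Ω) + (p : Ω) ^ 2 * η s) i = ∏ j, (X - C (x i j))) →
  ∀ (z : Ix n r → ℤ) (g : Rx η x →+* ℂ),
    (∀ (s : Ix n r) (h : η s ∈ Rx η x), g ⟨η s, h⟩ = (z s : ℂ)) →
  ∀ (K : Type) [Field K] [NumberField K] (u : Fin r → (𝓞 K)ˣ), Module.finrank ℚ K = n →
    (∀ i, IntermediateField.adjoin ℚ {((u i : 𝓞 K) : K)} = ⊤) → cst K u = e →
    (∀ s, pt n K u s = z₀ s + (p : ℤ) ^ 2 * z s) →
    ∃ π : Fin r → (Fin n ≃ (K →+* ℂ)), ∀ i j (h : x i j ∈ Rx η x),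
      g ⟨x i j, h⟩ = π i j ((u i : 𝓞 K) : K)

/-! ### Constants -/

/-- KC1 (100 lines, no hypotheses). Constants in the field of fractions of `ℤ_p[[t]]`.
PROOF. If `a = 0` take `c = 0`, `d = 1`. CLAIM: if `a, b ≠ 0` and `a' b = a b'`, then `a` and `b` have
the same order: write `a = t ^ j a₁`, `b = t ^ k b₁` with `a₁(0), b₁(0) ≠ 0` (`PowerSeries.order`);
after division by `t ^ (j + k - 1)` the relation reads `j a₁ b₁ + t a₁' b₁ = k a₁ b₁ + t a₁ b₁'`, and
the constant coefficient gives `j = k` (if `j + k = 0` there is nothing to prove); moreover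
`a₁' b₁ = a₁ b₁'`. (Or compare the coefficient of `t ^ (j + k - 1)` directly.)
Now `h = C (b₁(0)) a₁ - C (a₁(0)) b₁` satisfies `h' b₁ = h b₁'` and `h(0) = 0`; if `h ≠ 0` the claim
for `h`, `b₁` gives a contradiction (`b₁` has order `0`). So `C (b₁(0)) a = C (a₁(0)) b`. -/
def Kc1Stmt : Prop := ∀ (p : ℕ) [Fact p.Prime] (a b : PowerSeries ℤ_[p]), b ≠ 0 →
  PowerSeries.derivative ℤ_[p] a * b = a * PowerSeries.derivative ℤ_[p] b →
  ∃ c d : ℤ_[p], d ≠ 0 ∧ PowerSeries.C d * a = PowerSeries.C c * b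

/-- KCO (120 lines; uses KC1). A constant which is algebraic over `ℤ_p[[t]]` is algebraic over `ℤ_p`.
PROOF. Write `A = ℤ_p[[t]]`. Choose `Q ∈ A[X]`, `Q ≠ 0`, of minimal degree `d` with `Q(γ) = 0`
(`aeval γ Q = 0`); `d ≥ 1`, as `A → Ω` is injective. Let `a i` be its coefficients, `b = a d ≠ 0`, and
`Q^D` the polynomial with the coefficients `(a i)'`. `0 = D (Q(γ)) = Q^D(γ) + Q'(γ) D γ = Q^D(γ)`. The
polynomial `b Q^D - b' Q` has degree `< d` and vanishes at `γ`, so it is `0`: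
`(a i)' b = a i b'` for all `i`. KC1: `C (δ i) * a i = C (c i) * b`, `δ i ≠ 0`. With
`N = ∏ i ≤ d, δ i` one gets `C N * a i = C (c' i) * b`; put `P = ∑ C (c' i) X ^ i ∈ ℤ_p[X]`. Then
`b P(γ) = N Q(γ) = 0`, so `P(γ) = 0`. And `a 0 ≠ 0` (otherwise `Q = X Q₁`, `Q₁(γ) = 0` because
`γ ≠ 0`, of smaller degree), so `c' 0 ≠ 0`. -/
def KcoStmt : Prop := ∀ (p : ℕ) [Fact p.Prime] (Ω : Type) [Field Ω] [CharZero Ω]
  [Algebra (PowerSeries ℤ_[p]) Ω] (D : Derivation ℤ Ω Ω),
  Function.Injective (algebraMap (PowerSeries ℤ_[p]) Ω) →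
  (∀ g : PowerSeries ℤ_[p], D (algebraMap _ Ω g) =
    algebraMap _ Ω (PowerSeries.derivative ℤ_[p] g)) →
  ∀ γ : Ω, γ ≠ 0 → D γ = 0 → IsAlgebraic (PowerSeries ℤ_[p]) γ →
    ∃ P : ℤ_[p][X], P.coeff 0 ≠ 0 ∧
      eval₂ ((algebraMap (PowerSeries ℤ_[p]) Ω).comp PowerSeries.C) γ P = 0

/-- ALG (150 lines; uses LYO, KCO, RUN, CPR). The constant products are algebraic over `ℚ`.
PROOF. Let `A ⊂ Ω` be the image of `ℤ_p[[t]]` (a subring, isomorphic to it by `Arc.inj`), and
`f : A → ℂ_[p]` the homomorphism `t ↦ 0` (`PowerSeries.constantCoeff`, then `LUB.emb p`). Let `B` be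
the subring generated by `A` and all `x i j`; it is integral over `A` (the `x i j` are roots of the
monic `chiI e (yO z₀ ξ Ω) i`, coefficients in `A`). By LYO there is `g : B → ℂ_[p]` extending `f`
(`ℂ_[p]` is algebraically closed, see `Helper85_Leo`). By CPR, RUN: `β = ∏ x ^ μ ∈ B` and
`g β = ∏ g (x k) ^ μ k`. The `g (x i j)` are roots of the image of `chiI e (yO ..) i` under `g`, which
has integer coefficients (`g (ξ s) = x₀ s`), monic: they are algebraic over `ℚ`, so `g β` is: there is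
`m ∈ ℤ[X]`, `m ≠ 0`, `m(g β) = 0`. Put `γ = m(β) ∈ B`: `D γ = m'(β) D β = 0` and
`g γ = m(g β) = 0`. If `γ ≠ 0`: `γ` is algebraic over `ℤ_p[[t]]`, so KCO gives `P ∈ ℤ_p[X]`,
`P(0) ≠ 0`, `P(γ) = 0`; apply `g` (which is `emb p` on the constants from `ℤ_p`):
`0 = P(g γ) = emb p (P(0))`, a contradiction (`emb p` is injective). So `m(β) = 0`. -/
def AlgStmt : Prop := ∀ (p : ℕ) [Fact p.Prime] (n r : ℕ) (z₀ : Ix n r → ℤ) (e : Fin r → ℤ)
  (ξ : Ix n r → PowerSeries ℤ_[p]) (Ω : Type) [Field Ω] [CharZero Ω]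
  [Algebra (PowerSeries ℤ_[p]) Ω] (D : Derivation ℤ Ω Ω) (x : Fin r → Fin n → Ω), 0 < n →
  (∀ i, e i = 1 ∨ e i = -1) → Arc p z₀ e ξ Ω D x → ∀ x₀ : Ix n r → ℤ,
  (∀ s, PowerSeries.constantCoeff (ξ s) = (x₀ s : ℤ_[p])) → ∀ μ : Fin r × Fin n → ℤ,
    D (∏ k, x k.1 k.2 ^ μ k) = 0 → IsAlgebraic ℚ (∏ k, x k.1 k.2 ^ μ k)

/-- MRT (40 lines, no hypotheses). A homomorphism maps an algebraic element to a conjugate.
PROOF. Let `m = minpoly ℚ β` and `N ≥ 1` an integer with `N m ∈ ℤ[X]`
(`IsLocalization.integerNormalization`, or `Polynomial` over `ℤ` by clearing denominators). Then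
`(N m)(β) = 0` in `R` (injectivity of the inclusion), so `(N m)(g β) = 0`. -/
def MrtStmt : Prop := ∀ (Ω : Type) [Field Ω] [CharZero Ω] (R : Subring Ω) (g : R →+* ℂ) (β : R),
  IsAlgebraic ℚ (β : Ω) → aeval (g β) (minpoly ℚ (β : Ω)) = 0

/-- NOR (80 lines, no hypotheses). `CjF S` is normal over `ℚ`.
PROOF. For `β ∈ S` the polynomial `m = minpoly ℚ β` is not `0`, and `adjoin ℚ (rootSet of m in ℂ)` is a
splitting field of `m`, hence normal (`IntermediateField.adjoin_rootSet_isSplittingField`,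
`Normal.of_isSplittingField`). `CjF S` is the supremum of these fields
(`IntermediateField.adjoin_iUnion`), `IntermediateField.normal_iSup`. -/
def NorStmt : Prop := ∀ (Ω : Type) [Field Ω] [CharZero Ω] (S : Set Ω),
  (∀ β ∈ S, IsAlgebraic ℚ β) → Normal ℚ (CjF S)

/-- LEN (50 lines, no hypotheses). `CjF S` is contained in every normal field which contains one
conjugate of every element of `S`.
PROOF. `minpoly ℚ β` is irreducible and monic, it vanishes at `c ∈ L`, so it is the minimal polynomial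
of `c` (`minpoly.eq_of_irreducible_of_monic`); it splits in the normal field `L`, so all its roots in
`ℂ` lie in `L` (`Normal.splits`; the roots of a product of linear factors over `L`). -/
def LenStmt : Prop := ∀ (Ω : Type) [Field Ω] [CharZero Ω] (S : Set Ω) (L : IntermediateField ℚ ℂ),
  Normal ℚ L → (∀ β ∈ S, IsAlgebraic ℚ β ∧ ∃ c ∈ L, aeval c (minpoly ℚ β) = 0) → CjF S ≤ L

/-! ### Norms -/

/-- INF (80 lines, no hypotheses). The conjugates of a primitive field and a normal field.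
PROOF. Let `σ : K →+* ℂ`, an algebra homomorphism over `ℚ`. The elements `b` of `K` with `σ b ∈ B`
form an intermediate field `E` of `K / ℚ` (`IntermediateField.comap`), `⊥` or `⊤`. If `E = ⊤`: every
`b : K` has `σ b ∈ B`, and `minpoly ℚ (σ b) = minpoly ℚ b` splits in the normal field `B`, so its root
`(b : ℂ)` lies in `B`: `K ≤ B`, a contradiction. So `E = ⊥`. An element `c` of `ℚ(σ a) ⊓ B` is
`σ b` with `b ∈ K` (`ℚ(σ a)` is the image of `ℚ(a)`), `b ∈ E`, rational, so `c` is rational. -/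
def InfStmt : Prop := ∀ (K B : IntermediateField ℚ ℂ) [NumberField K], Primitive K → Normal ℚ B →
  ¬ K ≤ B → ∀ (σ : K →+* ℂ) (a : K), IntermediateField.adjoin ℚ {σ a} ⊓ B = ⊥

/-- NRM (120 lines, no hypotheses). The minimal polynomial stays irreducible over `B`.
PROOF. `A = ℚ(x)` and `B` are finite over `ℚ`, `B` is Galois, `B ⊓ A = ⊥`, so they are linearly
disjoint (`IntermediateField.LinearDisjoint.of_inf_eq_bot`) and
`[A ⊔ B : ℚ] = [A : ℚ] [B : ℚ]` (`LinearDisjoint.finrank_sup`). `A ⊔ B = B(x)` as a field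
(`IntermediateField.adjoin B {x}` restricted to `ℚ`), so `[B(x) : B] = [A : ℚ]` by the tower law, i.e.
`natDegree (minpoly B x) = natDegree (minpoly ℚ x)`; `minpoly B x` divides the monic polynomial
`(minpoly ℚ x).map`, hence equal (`Polynomial.eq_of_monic_of_dvd_of_natDegree_le`). -/
def NrmStmt : Prop := ∀ (B : IntermediateField ℚ ℂ), FiniteDimensional ℚ B → Normal ℚ B →
  ∀ x : ℂ, IsIntegral ℚ x → IntermediateField.adjoin ℚ {x} ⊓ B = ⊥ →
    minpoly B x = (minpoly ℚ x).map (algebraMap ℚ B)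

/-- NR2 (120 lines, no hypotheses). Products of numbers of norm `± 1` which lie in `B`.
PROOF. Let `M = IntermediateField.adjoin B (Set.range x)`, a finite extension of `B` inside `ℂ`, and
`v = ∏ x k ^ μ k`. For `x k ∈ M`: `Algebra.norm B (x k)` is a power of the norm of the generator of
`B(x k)` (`Algebra.norm_eq_norm_adjoin`; separable, characteristic zero), which is
`(-1) ^ deg * (minpoly B (x k)).coeff 0 = ± 1` (`IntermediateField.AdjoinSimple.norm_gen_eq_...`,
`PowerBasis.norm_gen_eq_coeff_zero_minpoly`). So `Algebra.norm B v = ± 1`. As `v ∈ B`,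
`Algebra.norm B v = v ^ [M : B]` (`Algebra.norm_algebraMap`), and `‖v‖ ^ d = 1` with
`d ≥ 1`, so `‖v‖ = 1` (`pow_eq_one_iff_of_nonneg`). -/
def Nr2Stmt : Prop := ∀ (B : IntermediateField ℚ ℂ) (κ : Type) [Fintype κ] (x : κ → ℂ)
  (μ : κ → ℤ), (∀ k, IsIntegral B (x k)) →
  (∀ k, (minpoly B (x k)).coeff 0 = 1 ∨ (minpoly B (x k)).coeff 0 = -1) →
  ∏ k, x k ^ μ k ∈ B → ‖∏ k, x k ^ μ k‖ = 1

/-! ### The Gram determinant -/

/-- TPM (80 lines, no hypotheses). The top form identity under homomorphisms.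
PROOF. `lagP`, `lagD`, `lagE`, `cc` commute with ring homomorphisms (`map_prod`, `map_sum`,
`Polynomial.map_prod`, `Polynomial.coeff_map`). The determinant over `R` maps to the one over `Ω`,
which is `0`, and the inclusion is injective (`RingHom.map_det`), so the determinant over `R` is `0`;
map it by `g`. -/
def TpmStmt : Prop := ∀ (Ω E : Type) [Field Ω] [Field E] (n r q : ℕ) (R : Subring Ω)
  (y : Ix n r → R) (x : Fin r → Fin n → R) (N : Fin r × Fin n → Fin q → ℤ),
  TopId (fun s => (y s : Ω)) (fun i j => (x i j : Ω)) N → ∀ g : R →+* E,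
    TopId (fun s => g (y s)) (fun i j => g (x i j)) N

/-- CCV (120 lines, no hypotheses). The values of the coefficients at a point.
PROOF. Write `x i j = v i (π i j)`, `P = lagP (x i) j`, `Q = lagP (x i') j'`, polynomials of degree
`n - 1 < n`. `∑ a b, P_a Q_b y (i, i', a, b) = ∑ σ, P(v i σ) Q(v i' σ)`
(`Polynomial.eval_eq_sum_range'`). `P(v i σ) = ∏_{j₁ ≠ j} (v i σ - v i (π i j₁))` vanishes unless
`σ = π i j`, where it is `lagD (x i) j`; in the same way for `Q`. So the sum is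
`lagD (x i) j * lagD (x i') j'` if `π i j = π i' j'` and `0` otherwise, and
`lagD (x i) j * lagE (x i) j = ∏ j₁, lagD (x i) j₁` (`Finset.mul_prod_erase`). The products are not
`0` since `v i` and `π i` are injective. -/
def CcvStmt : Prop := ∀ (n r : ℕ) (E : Type) [Field E] (κ : Type) [Fintype κ] [DecidableEq κ]
  (y : Ix n r → E) (v : Fin r → κ → E) (π : Fin r → (Fin n ≃ κ)),
  (∀ i, Function.Injective (v i)) →
  (∀ i i' (a b : Fin n), y (Sum.inr (i, i', a, b)) =
    ∑ σ, v i σ ^ (a : ℕ) * v i' σ ^ (b : ℕ)) →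
  (∀ i i' j j', cc y (fun i j => v i (π i j)) i i' j j' = if π i j = π i' j' then
    (∏ j₁, lagD (fun j => v i (π i j)) j₁) * ∏ j₁, lagD (fun j => v i' (π i' j)) j₁ else 0) ∧
  ∀ i, ∏ j₁, lagD (fun j => v i (π i j)) j₁ ≠ 0

/-- GRZ (120 lines; uses CCV). The Gram determinant of the real functionals.
PROOF. Let `Δ i = ∏ j₁, lagD .. j₁ ≠ 0`. By CCV the entry `(i, i')` of the matrix in `TopId` is
`Δ i * Δ i' * ∑ σ, a i σ * a i' σ` with `a i σ = ∑ l, N (i, (π i).symm σ) l * Z l` (substitute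
`j = (π i).symm σ`; the pairs `(j, j')` with `π i j = π i' j'` correspond to `σ`). So the determinant
is `(∏ Δ i) ^ 2 * det (∑ σ, a i σ * a i' σ)` (`Matrix.det_mul_row`, `Matrix.det_mul_column`), and the
integer determinant `det (∑ σ, a i σ * a i' σ)` is `0` for all integer vectors `Z`. The polynomial in
`Z` over `ℤ` is therefore `0` (`MvPolynomial.funext`; `RingHom.map_det`), so it vanishes for all
real `Z`. -/
def GrzStmt : Prop := ∀ (n r q : ℕ) (κ : Type) [Fintype κ] (y : Ix n r → ℂ) (v : Fin r → κ → ℂ)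
  (π : Fin r → (Fin n ≃ κ)) (N : Fin r × Fin n → Fin q → ℤ),
  (∀ i, Function.Injective (v i)) →
  (∀ i i' (a b : Fin n), y (Sum.inr (i, i', a, b)) =
    ∑ σ, v i σ ^ (a : ℕ) * v i' σ ^ (b : ℕ)) →
  TopId y (fun i j => v i (π i j)) N → ∀ Z : Fin q → ℝ,
    (Matrix.of fun i i' : Fin r => ∑ σ : κ, (∑ l, (N (i, (π i).symm σ) l : ℝ) * Z l) *
      (∑ l, (N (i', (π i').symm σ) l : ℝ) * Z l)).det = 0

/-- GDZ (50 lines, no hypotheses). A real Gram determinant which vanishes.
PROOF. There is `c ≠ 0` in the kernel (`Matrix.exists_mulVec_eq_zero_iff`); then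
`0 = ∑ i i', c i * c i' * ∑ σ, A i σ * A i' σ = ∑ σ, (∑ i, c i * A i σ) ^ 2`, so every square is
`0`. -/
def GdzStmt : Prop := ∀ (r : ℕ) (κ : Type) [Fintype κ] (A : Fin r → κ → ℝ),
  (Matrix.of fun i i' : Fin r => ∑ σ, A i σ * A i' σ).det = 0 →
  ∃ c : Fin r → ℝ, c ≠ 0 ∧ ∀ σ, ∑ i, c i * A i σ = 0

/-- IND (150 lines, no hypotheses). Independent units have independent logarithms (Dirichlet).
PROOF. Let `v i = logEmbedding K (u i)` in `logSpace K` (Mathlib,
`NumberField/Units/DirichletTheorem.lean`), with coordinates `mult w * log |w (u i)|`. By hypothesis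
`∑ c i • v i = 0` (every infinite place `w` is `‖σ ·‖` for the embedding `σ = w.embedding`). The
vectors `v i` are linearly independent over `ℤ`: if `∑ m i • v i = 0`, then `∏ u i ^ m i` is torsion
(`NumberField.Units.logEmbedding_eq_zero_iff`), so a power of it is `1` and `Indep u` gives
`m = 0`. They lie in `unitLattice K`, which is discrete. Let `L` be the `ℤ`-span and `V` the real span
of the `v i`: `L` is a `ℤ`-lattice in `V` (discrete and spanning), so `finrank ℤ L = finrank ℝ V`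
(`ZLattice.rank`), and `finrank ℤ L = r`. So the `r` vectors `v i` which span `V` are linearly
independent over `ℝ` (`linearIndependent_of_top_le_span_of_card_eq_finrank`), hence `c = 0`.
Other way: `Units.rank K = r` here, so the `u i` generate a subgroup of finite index modulo torsion:
some power of every fundamental unit is a product of powers of the `u i` and a root of unity, the
`v i` span the whole space `logSpace K` (`NumberField.Units.dirichletUnitTheorem.unitLattice_span_eq_top`), of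
dimension `Units.rank K = r`. Or use Mathlib's `NumberField.Units.regOfFamily` and `IsMaxRank`. -/
def IndStmt : Prop := ∀ (K : Type) [Field K] [NumberField K] (r : ℕ) (u : Fin r → (𝓞 K)ˣ),
  Units.rank K = r → Indep u → ∀ c : Fin r → ℝ,
    (∀ σ : K →+* ℂ, ∑ i, c i * Real.log ‖σ ((u i : 𝓞 K) : K)‖ = 0) → c = 0

/-- LGR (80 lines, no hypotheses). The logarithms satisfy the relations of the arc.
PROOF. For `k : κ` let `μ k' = [k' = k] - ∑ l, N k l * B l k'`. Then
`∏ x ^ μ = x k / ∏ l, (∏ k', x k' ^ B l k') ^ N k l`, so `D` of it is `0` and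
`‖∏ X ^ μ‖ = 1`, i.e. `‖X k‖ = ∏ l, ‖∏ k', X k' ^ B l k'‖ ^ N k l`. Take logarithms. -/
def LgrStmt : Prop := ∀ (Ω : Type) [Field Ω] (D : Derivation ℤ Ω Ω) (κ : Type) [Fintype κ]
  (x : κ → Ω) (X : κ → ℂ) (q : ℕ) (B : Fin q → κ → ℤ) (N : κ → Fin q → ℤ), (∀ k, x k ≠ 0) →
  (∀ k, X k ≠ 0) → (∀ k, D (x k / ∏ l, (∏ k', x k' ^ B l k') ^ N k l) = 0) →
  (∀ μ : κ → ℤ, D (∏ k, x k ^ μ k) = 0 → ‖∏ k, X k ^ μ k‖ = 1) →
  ∀ k, Real.log ‖X k‖ = ∑ l, (N k l : ℝ) * Real.log ‖∏ k', X k' ^ B l k'‖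

/-! ### Subfields -/

/-- LZD (100 lines, no hypotheses). The normal closure in `ℂ` and its degree.
PROOF. `L = ⨆ σ : K →ₐ[ℚ] ℂ, σ.fieldRange` = `normalClosure ℚ K ℂ`, normal
(`normalClosure.normal`; `ℂ` is algebraically closed, all minimal polynomials split) and finite. A
supremum of `m` finite extensions has degree at most the product of the degrees
(`IntermediateField.finrank_sup_le`, induction over a list / `Finset`), there are `n` embeddings,
each image has degree `n`. (`n ^ n` may be replaced by any function of `n`, but then change NSF, BKF;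
please keep `n ^ n`.) -/
def LzdStmt : Prop := ∀ (n : ℕ) (K : IntermediateField ℚ ℂ) [NumberField K],
  Module.finrank ℚ K = n → ∃ L : IntermediateField ℚ ℂ, Normal ℚ L ∧ FiniteDimensional ℚ L ∧
    (∀ (σ : K →+* ℂ) (a : K), σ a ∈ L) ∧ Module.finrank ℚ L ≤ n ^ n

/-- NSF (80 lines, no hypotheses). A normal field of degree at most `m` has at most `2 ^ m` subfields.
PROOF. `{E | E ≤ L}` is in bijection with `IntermediateField ℚ L` (`IntermediateField.lift`,
`restrict`), which by Galois theory is in bijection with the subgroups of `Gal(L/ℚ)`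
(`IsGalois.intermediateFieldEquivSubgroup`), a group with `[L : ℚ] ≤ m` elements
(`IsGalois.card_aut_eq_finrank`); a subgroup is determined by its underlying set, there are
`2 ^ [L : ℚ]` sets. -/
def NsfStmt : Prop := ∀ (m : ℕ) (L : IntermediateField ℚ ℂ), Normal ℚ L → FiniteDimensional ℚ L →
  Module.finrank ℚ L ≤ m → {E : IntermediateField ℚ ℂ | E ≤ L}.encard ≤ 2 ^ m

/-- The situation of block C for one field: an arc with the identity of `KolConcl` and a
specialization to the units `u` of the subfield `K` of `ℂ`. -/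
structure Sit {Ω : Type} [Field Ω] [CharZero Ω] (n r p q : ℕ) (z₀ : Ix n r → ℤ) (e : Fin r → ℤ)
    (η : Ix n r → Ω) (D : Derivation ℤ Ω Ω) (x : Fin r → Fin n → Ω)
    (B : Fin q → Fin r × Fin n → ℤ) (N : Fin r × Fin n → Fin q → ℤ) (z : Ix n r → ℤ)
    (g : Rx η x →+* ℂ) (K : IntermediateField ℚ ℂ) [NumberField K] (u : Fin r → (𝓞 K)ˣ)
    (π : Fin r → (Fin n ≃ (K →+* ℂ))) : Prop where
  hn : 0 < n
  he : ∀ i, e i = 1 ∨ e i = -1
  split : ∀ i, chiI e (fun s => (z₀ s : Ω) + (p : Ω) ^ 2 * η s) i = ∏ j, (X - C (x i j))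
  alg : ∀ μ : Fin r × Fin n → ℤ, D (∏ k, x k.1 k.2 ^ μ k) = 0 →
    IsAlgebraic ℚ (∏ k, x k.1 k.2 ^ μ k)
  rel : ∀ k, D (x k.1 k.2 / ∏ l, (∏ k', x k'.1 k'.2 ^ B l k') ^ N k l) = 0
  top : TopId (fun s => (z₀ s : Ω) + (p : Ω) ^ 2 * η s) x N
  gη : ∀ (s : Ix n r) (h : η s ∈ Rx η x), g ⟨η s, h⟩ = (z s : ℂ)
  gx : ∀ i j (h : x i j ∈ Rx η x), g ⟨x i j, h⟩ = π i j ((u i : 𝓞 K) : K)
  deg : Module.finrank ℚ K = n
  rank : Units.rank K = r
  prim : Primitive K
  gen : ∀ i, IntermediateField.adjoin ℚ {((u i : 𝓞 K) : K)} = ⊤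
  ind : Indep u
  hcst : cst K u = e
  hpt : ∀ s, pt n K u s = z₀ s + (p : ℤ) ^ 2 * z s

/-- The constant products of powers of the roots. -/
def Cst {Ω : Type} [Field Ω] {n r : ℕ} (D : Derivation ℤ Ω Ω) (x : Fin r → Fin n → Ω) : Set Ω :=
  {β | ∃ μ : Fin r × Fin n → ℤ, D (∏ k, x k.1 k.2 ^ μ k) = 0 ∧ β = ∏ k, x k.1 k.2 ^ μ k}

/-- NMC (120 lines; uses CPR, RUN, MRT, NOR, INF, NRM, NR2, A.MCH). If `K` is not contained in
`CjF (Cst D x)`, the specialized constants have absolute value one.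
PROOF. Let `F = CjF (Cst D x)`, normal by NOR (`alg`). By CPR and RUN the product `β = ∏ x ^ μ` lies in
`Rx η x` and `g β = ∏ (π i j (u i)) ^ μ (i, j)` (`gx`); by MRT `g β` is a root of `minpoly ℚ β`, so it
lies in `F` (generator of `F`). Each `c = π i j (u i)` is integral over `ℚ` with minimal polynomial
`minpoly ℚ (u i)` = image of `minpoly ℤ (u i)`, with constant coefficient `± 1` (MCH); by INF
`ℚ(c) ⊓ F = ⊥`, by NRM `minpoly F c` has constant coefficient `± 1`. NR2. -/
def NmcStmt : Prop := ∀ (Ω : Type) [Field Ω] [CharZero Ω] (n r p q : ℕ) (z₀ : Ix n r → ℤ)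
  (e : Fin r → ℤ) (η : Ix n r → Ω) (D : Derivation ℤ Ω Ω) (x : Fin r → Fin n → Ω)
  (B : Fin q → Fin r × Fin n → ℤ) (N : Fin r × Fin n → Fin q → ℤ) (z : Ix n r → ℤ)
  (g : Rx η x →+* ℂ) (K : IntermediateField ℚ ℂ) [NumberField K] (u : Fin r → (𝓞 K)ˣ)
  (π : Fin r → (Fin n ≃ (K →+* ℂ))), Sit n r p q z₀ e η D x B N z g K u π →
  FiniteDimensional ℚ (CjF (Cst D x)) → ¬ K ≤ CjF (Cst D x) →
  ∀ μ : Fin r × Fin n → ℤ, D (∏ k, x k.1 k.2 ^ μ k) = 0 →
    ‖∏ k : Fin r × Fin n, (π k.1 k.2 ((u k.1 : 𝓞 K) : K)) ^ μ k‖ = 1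

/-- KLB (150 lines; uses CPR, RUN, A.MCH, A.SPL, A.TRC, NMC, TPM, GRZ, GDZ, IND, LGR). All fields of
the arc are contained in `CjF (Cst D x)`.
PROOF. Suppose not. Put `v i σ = σ (u i)` (injective in `σ`: SPL) and `y s = z₀ s + p ^ 2 * z s` in
`ℂ`, so that `y s` is the image of `pt n K u s` and `y (Sum.inr (i, i', a, b)) =
∑ σ, v i σ ^ a * v i' σ ^ b` (TRC for `u i ^ a * u i' ^ b`). `TopId` over `Ω` (field `top`) and TPM
with `R = Rx η x` give `TopId y (fun i j => v i (π i j)) N`. LGR (with the `x k`, `X k = v k.1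
(π k.1 k.2)`; nonzero by CPR, RUN; NMC) gives `log ‖X k‖ = ∑ l, N k l * Z l`,
`Z l = log ‖∏ k', X k' ^ B l k'‖`. So in GRZ with this `Z`:
`∑ l, N (i, (π i).symm σ) l * Z l = log ‖σ (u i)‖`, and the Gram matrix of the vectors
`(log ‖σ (u i)‖)_σ` has determinant `0`. GDZ gives `c ≠ 0` with `∑ i, c i * log ‖σ (u i)‖ = 0` for
all `σ`, IND gives `c = 0`, a contradiction. -/
def KlbStmt : Prop := ∀ (Ω : Type) [Field Ω] [CharZero Ω] (n r p q : ℕ) (z₀ : Ix n r → ℤ)
  (e : Fin r → ℤ) (η : Ix n r → Ω) (D : Derivation ℤ Ω Ω) (x : Fin r → Fin n → Ω)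
  (B : Fin q → Fin r × Fin n → ℤ) (N : Fin r × Fin n → Fin q → ℤ) (z : Ix n r → ℤ)
  (g : Rx η x →+* ℂ) (K : IntermediateField ℚ ℂ) [NumberField K] (u : Fin r → (𝓞 K)ˣ)
  (π : Fin r → (Fin n ≃ (K →+* ℂ))), Sit n r p q z₀ e η D x B N z g K u π →
  FiniteDimensional ℚ (CjF (Cst D x)) → K ≤ CjF (Cst D x)

/-- BKF (200 lines; uses KolConcl, LRG.GenStmt, A.MCH, A.SPL, OMR, CPR, RUN, SPZ, MAT, ALG, MRT, LEN,
LZD, NSF, KLB): `BlkConcl`.
PROOF. `K₀ = 2 ^ (n ^ n)`. All `u k i` generate `K k` (`LRG.GenStmt`), `e i = ± 1` (MCH for `k₀`).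
OMR gives `Ω`, `D`, `x`, `Arc`. Put `η s = algebraMap (ξ s)`, so `yO z₀ ξ Ω s = z₀ s + p ^ 2 * η s`. If
`aeval η q = 0` in `Ω`, then `aeval ξ q = 0` (injectivity), so `eval (x k) q = 0`: SPZ gives
`g k : Rx η x →+* ℂ`, and MAT the bijections `π k`. The `x i` are injective since their images under
`g k₀` are the different numbers `σ (u i)` (SPL); they are not `0` (CPR, RUN). `KolConcl` gives `q`,
`B`, `N`, and ALG (with `x₀ = x k₀`) the algebraicity of the constants. LZD for `K k₀` gives `L`. By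
LEN `CjF (Cst D x) ≤ L`: for `β = ∏ x ^ μ` in `Cst D x` the number `g k₀ β = ∏ (σ (u i)) ^ μ` (RUN)
lies in `L` and is a root of `minpoly ℚ β` (MRT). So `CjF (Cst D x)` is finite over `ℚ`, and by KLB
all `K k` are contained in it, hence in `L`. NSF. (The index type `κ` of the fields is arbitrary.) -/
def BkfStmt : Prop := BlkConcl

end Pool.Agent.LRG.CX
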