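import Mathlib
import Pool.Agent.LUB.Defs

/-!
# Squad LRG: Leopoldt's conjecture for 100 percent of the number fields ordered by the regulator

MAIN THEOREM. Let `p` be a prime and `(r₁, r₂)` a signature with `r = r₁ + r₂ - 1 ≥ 2`,
`n = r₁ + 2 r₂`. Among the primitive number fields `K` of degree `n` with this signature (all number
fields of this signature if `n` is a prime) and regulator at most `T`, which are finite in number
and at least `exp (c T ^ (1 / r))`, at most `C_ε exp (ε T ^ (1 / r))` violate Leopoldt's conjecture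
at `p`.

PLAN. Block A (`StmtsA`): a field with short independent units is an integral point of a fixed
affine space, Leopoldt fails at `p` only if a fixed `p`-adic power series vanishes at the point.
Block B (`StmtsR`, `StmtsB`, `StmtsH`): the `p`-adic theorem of Pila and Wilkie in the form
`PpwConcl`. Block C (`StmtsK`, `StmtsC`): an algebraic arc on which the series vanishes carries
boundedly many fields (`BlkConcl`). Block D (`StmtsD`): fields of small regulator have short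
independent units. Block E (`StmtsE`): the lower bound.

This file: definitions and the statements at the borders of the blocks.
-/

set_option autoImplicit false

open Polynomial NumberField
open Pool.Agent.Helper85_Leo (LeopoldtAt)
open Pool.Agent.LUB (LogMod)

namespace Pool.Agent.LRG

/-! ### Fields -/

/-- The number field `K` is primitive: there is no field strictly between `ℚ` and `K`. -/
def Primitive (K : Type) [Field K] [NumberField K] : Prop :=
  ∀ E : IntermediateField ℚ K, E = ⊥ ∨ E = ⊤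

/-- The units `u i` of `K` are multiplicatively independent. -/
def Indep {K : Type} [Field K] [NumberField K] {r : ℕ} (u : Fin r → (𝓞 K)ˣ) : Prop :=
  ∀ c : Fin r → ℤ, ∏ i, u i ^ c i = 1 → c = 0

/-- All conjugates of the units `u i` have absolute value at most `X`. -/
def Bdd {K : Type} [Field K] [NumberField K] {r : ℕ} (u : Fin r → (𝓞 K)ˣ) (X : ℝ) : Prop :=
  ∀ i, ∀ σ : K →+* ℂ, ‖σ ((u i : 𝓞 K) : K)‖ ≤ X

/-- The primitive number fields inside `ℂ` with `r₁` real and `r₂` complex places and regulator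
at most `T`. -/
def PrimReg (r₁ r₂ : ℕ) (T : ℝ) : Set (IntermediateField ℚ ℂ) :=
  {K | ∃ _ : NumberField K, InfinitePlace.nrRealPlaces K = r₁ ∧
    InfinitePlace.nrComplexPlaces K = r₂ ∧ Primitive K ∧ Units.regulator K ≤ T}

/-- All number fields inside `ℂ` with `r₁` real and `r₂` complex places and regulator at
most `T`. -/
def AllReg (r₁ r₂ : ℕ) (T : ℝ) : Set (IntermediateField ℚ ℂ) :=
  {K | ∃ _ : NumberField K, InfinitePlace.nrRealPlaces K = r₁ ∧
    InfinitePlace.nrComplexPlaces K = r₂ ∧ Units.regulator K ≤ T}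

/-- The number fields inside `ℂ` for which Leopoldt's conjecture fails at `p`. -/
def Bad (p : ℕ) [Fact p.Prime] : Set (IntermediateField ℚ ℂ) :=
  {K | ∃ _ : NumberField K, ¬ LeopoldtAt K p}

/-- The primitive number fields inside `ℂ` of degree `n` and unit rank `r` which have `r`
multiplicatively independent units with all conjugates at most `X`. -/
def ShortFlds (n r : ℕ) (X : ℝ) : Set (IntermediateField ℚ ℂ) :=
  {K | ∃ _ : NumberField K, Module.finrank ℚ K = n ∧ Units.rank K = r ∧ Primitive K ∧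
    ∃ u : Fin r → (𝓞 K)ˣ, Indep u ∧ Bdd u X}

/-- The primitive number fields inside `ℂ` of degree `n` with a unit which is not a root of unity
and has all conjugates at most `X`. -/
def OneFlds (n : ℕ) (X : ℝ) : Set (IntermediateField ℚ ℂ) :=
  {K | ∃ _ : NumberField K, Module.finrank ℚ K = n ∧ Primitive K ∧
    ∃ u : Fin 1 → (𝓞 K)ˣ, Indep u ∧ Bdd u X}

/-! ### Power series and arcs -/

/-- The power series `F` vanishes at the point `x` (of the open unit polydisc; the evaluation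
homomorphism is unique there). -/
def VanZ (p : ℕ) [Fact p.Prime] {σ : Type} (F : MvPowerSeries σ ℤ_[p]) (x : σ → ℤ_[p]) : Prop :=
  ∃ φ : MvPowerSeries σ ℤ_[p] →ₐ[ℤ_[p]] ℤ_[p], (∀ i, φ (MvPowerSeries.X i) = x i) ∧ φ F = 0

/-- The power series `F` vanishes along the arc `ξ` (with `ξ i (0)` divisible by `p`; the
evaluation homomorphism is unique). -/
def VanT (p : ℕ) [Fact p.Prime] {σ : Type} (F : MvPowerSeries σ ℤ_[p])
    (ξ : σ → PowerSeries ℤ_[p]) : Prop :=
  ∃ φ : MvPowerSeries σ ℤ_[p] →ₐ[ℤ_[p]] PowerSeries ℤ_[p],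
    (∀ i, φ (MvPowerSeries.X i) = ξ i) ∧ φ F = 0

/-- The power series `g` in `t` is algebraic over `ℚ_p(t)`. -/
def AlgT {p : ℕ} [Fact p.Prime] (g : PowerSeries ℤ_[p]) : Prop :=
  ∃ P : ℤ_[p][X][X], P ≠ 0 ∧ eval₂ (Polynomial.coeToPowerSeries.ringHom) g P = 0

/-- The conclusion of block B: the `p`-adic theorem of Pila and Wilkie. -/
def PpwConcl : Prop := ∀ (p : ℕ) [Fact p.Prime] (σ : Type) [Fintype σ]
  (F : MvPowerSeries σ ℤ_[p]) (ε : ℝ), 0 < ε → ∀ K₀ : ℕ, ∃ B : ℝ, ∀ X : ℝ, 1 ≤ X →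
  ∀ P : Finset (σ → ℤ), (∀ x ∈ P, (∀ i, |(x i : ℝ)| ≤ X) ∧ (∀ i, (p : ℤ) ∣ x i) ∧
    VanZ p F (fun i => (x i : ℤ_[p]))) → B * X ^ ε < P.card →
  ∃ (z : Fin K₀ → σ → ℤ) (x₀ : σ → ℤ) (ξ : σ → PowerSeries ℤ_[p]),
    Function.Injective z ∧ (∀ k, z k ∈ P) ∧ x₀ ∈ P ∧
    (∀ i, PowerSeries.constantCoeff (ξ i) = (x₀ i : ℤ_[p])) ∧
    (∀ i, AlgT (ξ i)) ∧ VanT p F ξ ∧
    ∀ q : MvPolynomial σ ℤ, MvPolynomial.aeval ξ q = 0 →
      (∀ k, MvPolynomial.eval (z k) q = 0) ∧ MvPolynomial.eval x₀ q = 0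

/-! ### Coordinates -/

/-- The index set of the coordinates: `(i, j)` for the coefficient of `Y ^ (j + 1)` of the
characteristic polynomial of `u i`, and `(i, i', a, b)` for the trace of `u i ^ a * u i' ^ b`. -/
abbrev Ix (n r : ℕ) : Type := (Fin r × Fin (n - 1)) ⊕ (Fin r × Fin r × Fin n × Fin n)

/-- The monic polynomial of degree `n` with the coefficients `y j` of `X ^ (j + 1)` and the
constant coefficient `e`. -/
noncomputable def chi {S : Type} [CommRing S] (n : ℕ) (e : ℤ) (y : Fin (n - 1) → S) : S[X] :=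
  X ^ n + ∑ j : Fin (n - 1), C (y j) * X ^ (j.1 + 1) + C (e : S)

/-- The polynomial `chi` for the `i`-th unit at the point `y`. -/
noncomputable def chiI {S : Type} [CommRing S] {n r : ℕ} (e : Fin r → ℤ) (y : Ix n r → S)
    (i : Fin r) : S[X] :=
  chi n (e i) fun j => y (Sum.inl (i, j))

/-- The Gram matrix of the polynomials `l i` with respect to the traces in the point `y`. -/
noncomputable def gram {S : Type} [CommRing S] {n r : ℕ} (y : Ix n r → S) (l : Fin r → S[X]) :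
    Matrix (Fin r) (Fin r) S :=
  Matrix.of fun i i' => ∑ a : Fin n, ∑ b : Fin n,
    (l i).coeff a * (l i').coeff b * y (Sum.inr (i, i', a, b))

/-- `F` is the universal Gram determinant of the logarithms in the class of `z₀` modulo `p ^ 3`:
over every `ℤ_p`-algebra `O` with an evaluation `φ` of the power series, and with
`y = z₀ + p ^ 2 φ(X)`, one has `Y ^ M = 1 + p ^ 2 w i` modulo `chiI e y i`, `l i` represents
`log (1 + p ^ 2 w i)`, and `φ F` is the Gram determinant of the `l i`. -/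
def Univ (p : ℕ) [Fact p.Prime] {n r : ℕ} (z₀ : Ix n r → ℤ) (e : Fin r → ℤ) (M : ℕ)
    (F : MvPowerSeries (Ix n r) ℤ_[p]) : Prop :=
  ∀ (O : Type) [CommRing O] [Algebra ℤ_[p] O] (φ : MvPowerSeries (Ix n r) ℤ_[p] →ₐ[ℤ_[p]] O)
    (y : Ix n r → O), (∀ s, y s = (z₀ s : O) + (p : O) ^ 2 * φ (MvPowerSeries.X s)) →
    ∃ w b l : Fin r → O[X],
      (∀ i, (X : O[X]) ^ M = 1 + C ((p : O) ^ 2) * w i + chiI e y i * b i) ∧
      (∀ i, LogMod p (chiI e y i) (w i) (l i)) ∧ (∀ i, ∀ m, n ≤ m → (l i).coeff m = 0) ∧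
      φ F = (gram y l).det

/-- The coordinates of a number field with units `u i`. -/
noncomputable def pt (n : ℕ) {r : ℕ} (K : Type) [Field K] [NumberField K]
    (u : Fin r → (𝓞 K)ˣ) : Ix n r → ℤ :=
  Sum.elim (fun s => (minpoly ℤ ((u s.1 : 𝓞 K))).coeff (s.2.1 + 1))
    (fun s => Algebra.trace ℤ (𝓞 K)
      ((u s.1 : 𝓞 K) ^ (s.2.2.1 : ℕ) * (u s.2.1 : 𝓞 K) ^ (s.2.2.2 : ℕ)))

/-- The constant coefficients of the minimal polynomials of the units. -/
noncomputable def cst {r : ℕ} (K : Type) [Field K] [NumberField K] (u : Fin r → (𝓞 K)ˣ) :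
    Fin r → ℤ :=
  fun i => (minpoly ℤ ((u i : 𝓞 K))).coeff 0

/-- The conclusion of block A, first part: the universal Gram determinant exists. -/
def UnvConcl : Prop := ∀ (p : ℕ) [Fact p.Prime] (n r : ℕ) (z₀ : Ix n r → ℤ) (e : Fin r → ℤ),
  (∀ i, e i = 1 ∨ e i = -1) → 0 < n →
  ∃ (M : ℕ) (F : MvPowerSeries (Ix n r) ℤ_[p]), 0 < M ∧ Univ p z₀ e M F

/-- The conclusion of block A, second part: if Leopoldt's conjecture fails at `p`, then the
universal Gram determinant vanishes at the point. -/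
def FalConcl : Prop := ∀ (p : ℕ) [Fact p.Prime] (n r : ℕ) (z₀ : Ix n r → ℤ) (e : Fin r → ℤ)
  (M : ℕ) (F : MvPowerSeries (Ix n r) ℤ_[p]), 0 < M → Univ p z₀ e M F →
  ∀ (K : Type) [Field K] [NumberField K] (u : Fin r → (𝓞 K)ˣ) (x : Ix n r → ℤ),
    Module.finrank ℚ K = n → Units.rank K = r → 0 < r → Primitive K → Indep u → cst K u = e →
    (∀ s, pt n K u s = z₀ s + (p : ℤ) ^ 2 * x s) → (∀ s, (p : ℤ) ∣ x s) →
    ¬ LeopoldtAt K p → VanZ p F (fun s => (x s : ℤ_[p]))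

/-- The conclusion of block A, third part: the size of the coordinates, the constant
coefficients, and the field is determined by its point (up to conjugation). -/
def SizConcl : Prop := ∀ (n r : ℕ) (K : Type) [Field K] [NumberField K] (u : Fin r → (𝓞 K)ˣ)
  (X : ℝ), Module.finrank ℚ K = n → 1 ≤ X → Primitive K → 1 < n → Indep u → Bdd u X →
    (∀ i, cst K u i = 1 ∨ cst K u i = -1) ∧
    (∀ s, |(pt n K u s : ℝ)| ≤ (2 ^ n * n) * X ^ (2 * n))

/-- The conclusion of block C: an arc on which the universal Gram determinant vanishes carries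
boundedly many fields. -/
def BlkConcl : Prop := ∀ n r : ℕ, 0 < r → 1 < n → ∃ K₀ : ℕ, ∀ (p : ℕ) [Fact p.Prime]
  (z₀ : Ix n r → ℤ) (e : Fin r → ℤ) (M : ℕ) (F : MvPowerSeries (Ix n r) ℤ_[p]),
  0 < M → Univ p z₀ e M F →
  ∀ (ξ : Ix n r → PowerSeries ℤ_[p]), (∀ s, AlgT (ξ s)) → VanT p F ξ →
  ∀ (κ : Type) (K : κ → IntermediateField ℚ ℂ) (_hK : ∀ k, NumberField (K k))
    (u : ∀ k, Fin r → (𝓞 (K k))ˣ) (x : κ → Ix n r → ℤ) (k₀ : κ),
    Function.Injective K → (∀ k, Module.finrank ℚ (K k) = n) → (∀ k, Units.rank (K k) = r) →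
    (∀ k, Primitive (K k)) → (∀ k, Indep (u k)) → (∀ k, cst (K k) (u k) = e) →
    (∀ k s, pt n (K k) (u k) s = z₀ s + (p : ℤ) ^ 2 * x k s) →
    (∀ k s, (p : ℤ) ∣ x k s) →
    (∀ s, PowerSeries.constantCoeff (ξ s) = (x k₀ s : ℤ_[p])) →
    (∀ q : MvPolynomial (Ix n r) ℤ, MvPolynomial.aeval ξ q = 0 →
      ∀ k, MvPolynomial.eval (x k) q = 0) →
    (Set.range K).encard ≤ K₀

/-- The main counting theorem (blocks A, B, C): few bad fields with short units. -/
def CntConcl : Prop := ∀ (p : ℕ) [Fact p.Prime] (n r : ℕ) (ε : ℝ), 0 < ε → 0 < r → 1 < n →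
  ∃ C : ℝ, ∀ X : ℝ, 1 ≤ X → (ShortFlds n r X ∩ Bad p).Finite ∧
    ((ShortFlds n r X ∩ Bad p).ncard : ℝ) ≤ C * X ^ ε

/-- The conclusion of block D, first part. -/
def OneConcl : Prop := ∀ n : ℕ, 1 < n → ∃ C : ℝ, ∀ X : ℝ, 1 ≤ X →
  (OneFlds n X).Finite ∧ ((OneFlds n X).ncard : ℝ) ≤ C * X ^ C

/-- The conclusion of block D, second part: a primitive field of regulator at most `T` has a very
short unit or `r` short independent units. -/
def RegConcl : Prop := ∀ n r : ℕ, 0 < r → 1 < n → ∀ δ : ℝ, 0 < δ → ∃ H : ℝ, 0 < H ∧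
  ∀ (K : Type) [Field K] [NumberField K] (T : ℝ), 1 ≤ T → Module.finrank ℚ K = n →
    Units.rank K = r → Units.regulator K ≤ T →
    (∃ u : Fin 1 → (𝓞 K)ˣ, Indep u ∧ Bdd u (Real.exp (δ * T ^ (1 / (r : ℝ))))) ∨
    ∃ u : Fin r → (𝓞 K)ˣ, Indep u ∧ Bdd u (Real.exp (H * T ^ (1 / (r : ℝ))))

/-- The conclusion of block E: the lower bound. -/
def LowConcl : Prop := ∀ r₁ r₂ : ℕ, 3 ≤ r₁ + r₂ → ∃ c T₀ : ℝ, 0 < c ∧ ∀ T : ℝ, T₀ ≤ T →
  Real.exp (c * T ^ (1 / ((r₁ : ℝ) + r₂ - 1))) ≤ (PrimReg r₁ r₂ T).ncard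

/-- The main theorem. -/
def MainConcl : Prop := ∀ (p : ℕ) [Fact p.Prime] (r₁ r₂ : ℕ), 3 ≤ r₁ + r₂ →
  (∀ T : ℝ, (PrimReg r₁ r₂ T).Finite) ∧
  (Nat.Prime (r₁ + 2 * r₂) → ∀ T : ℝ, PrimReg r₁ r₂ T = AllReg r₁ r₂ T) ∧
  (∃ c T₀ : ℝ, 0 < c ∧ ∀ T : ℝ, T₀ ≤ T →
    Real.exp (c * T ^ (1 / ((r₁ : ℝ) + r₂ - 1))) ≤ (PrimReg r₁ r₂ T).ncard) ∧
  ∀ ε : ℝ, 0 < ε → ∃ C : ℝ, ∀ T : ℝ, 0 ≤ T →
    ((PrimReg r₁ r₂ T ∩ Bad p).ncard : ℝ) ≤ C * Real.exp (ε * T ^ (1 / ((r₁ : ℝ) + r₂ - 1)))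

end Pool.Agent.LRG
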