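import Pool.Agent.LRG.DefsB
import Pool.Agent.LPW.StmtsS

/-!
# Squad LRG, block B5: the determinant method on a hypersurface (helper69)

Note 3593 (helper69), block B5. THEOREM (DMM). Let `a ≠ 0` be a power series in `n + 1` variables over
`ℤ_p`, dominated by its coefficients of degree at most `K`. Consider points with `ϕ(a) = 0`, where
`ϕ` is the evaluation at `p v`, such that all monomials in `w` (integers of size at most `X`) are
combinations of `n₀` numbers `b i` with coefficients which are values of power series at `p v`. Then the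
points fall into at most `B X ^ η` classes on each of which `w` satisfies an algebraic relation of
bounded degree. The case `n + 1 = 2` is block S of squad LPW (`Pool/Agent/LPW/StmtsS.lean`), whose
proofs (Helper18_LPW/NRM, Helper38_LPW/LED, Helper64_LPW/DET, Helper85_LPW/TRN, Helper52_LPW/NUM,
Helper25_LPW/STP, Helper77_LPW/DIV) can be adapted.
-/

set_option autoImplicit false

open Polynomial

namespace Pool.Agent.LRG

/-- The change of variables `v' i = v (i + 1) - v 0 ^ ((K + 1) ^ (i + 1))`. -/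
def vp {A : Type} [CommRing A] {n : ℕ} (K : ℕ) (v : Fin (n + 1) → A) : Fin n → A :=
  fun i => v i.succ - v 0 ^ (K + 1) ^ ((i : ℕ) + 1)

/-- The value of a polynomial with coefficients in `A[v']` at `(v', y)`. -/
noncomputable def pev {A : Type} [CommRing A] {n : ℕ} (P : (MvPolynomial (Fin n) A)[X])
    (v' : Fin n → A) (y : A) : A := (P.map (MvPolynomial.eval v')).eval y

/-- The exponent vector as a finitely supported function. -/
noncomputable def fse {m M : ℕ} (α : Fin m → Fin (M + 1)) : Fin m →₀ ℕ :=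
  Finsupp.equivFunOnFinite.symm fun i => (α i : ℕ)

/-- TRP (120 lines). Truncation of the value of a power series.
PROOF. `ϕ` is a `ℤ_p`-linear ring homomorphism. Write `h = h₀ + ∑ i, X i ^ (M + 1) h_i`, where `h₀` is the
polynomial with the monomials all of whose exponents are at most `M` (every other monomial has an
exponent `≥ M + 1`; let `i` be the first such index and collect the monomials in `X i ^ (M + 1) h_i`; the
`h_i` are defined by their coefficients). Then `ϕ h = ∑_{α ≤ M} coeff α h ∏ (p v_i) ^ α_i +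
∑ i, (p v_i) ^ (M + 1) ϕ (h_i)`. See `Helper85_LPW/TRN.lean` for two variables (induction on the number
of variables is also possible, `MvPowerSeries.finSuccEquiv`). -/
def TrpStmt : Prop := ∀ (p : ℕ) [Fact p.Prime] (m : ℕ)
  (ϕ : MvPowerSeries (Fin m) ℤ_[p] →ₐ[ℤ_[p]] ℤ_[p]) (v : Fin m → ℤ_[p]),
  (∀ i, ϕ (MvPowerSeries.X i) = p * v i) → ∀ (h : MvPowerSeries (Fin m) ℤ_[p]) (M : ℕ),
    (p : ℤ_[p]) ^ M ∣ ϕ h - gv (fun α : Fin m → Fin (M + 1) =>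
      MvPowerSeries.coeff (fse α) h * (p : ℤ_[p]) ^ (∑ i, (α i : ℕ))) v

/-- NRP (100 lines). Normalization of the coefficients.
PROOF. As row NRM of LPW (`Helper18_LPW/NRM.lean`): let `β`, `β.degree ≤ K`, be such that
`‖coeff β a‖ p ^ (- β.degree)` is maximal among the `β` of degree at most `K` (a finite set). It is not zero
(otherwise `a = 0` by `Dom`), so `coeff β a * p ^ β.degree = p ^ κ * unit`. For `α.degree ≤ K` the element
`coeff α a * p ^ α.degree` has norm at most `p ^ (- κ)`, so it is divisible by `p ^ κ`. For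
`α.degree > K` let `γ`, `γ.degree ≤ K`, dominate `α`:
`‖coeff α a‖ p ^ (- α.degree) ≤ ‖coeff γ a‖ p ^ (- γ.degree) p ^ (- (α.degree - K)) ≤
p ^ (- κ) p ^ (- (α.degree - K))`. -/
def NrpStmt : Prop := ∀ (p : ℕ) [Fact p.Prime] (m K : ℕ) (a : MvPowerSeries (Fin m) ℤ_[p]),
  a ≠ 0 → Dom K a → ∃ (κ : ℕ) (h : (Fin m →₀ ℕ) → ℤ_[p]),
    (∀ α, MvPowerSeries.coeff α a * (p : ℤ_[p]) ^ α.degree = (p : ℤ_[p]) ^ κ * h α) ∧
    (∃ β, β.degree ≤ K ∧ IsUnit (h β)) ∧ ∀ α, (p : ℤ_[p]) ^ (α.degree - K) ∣ h α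

/-- LDP (STRONG, 200 lines). The leading term after a change of coordinates.
PROOF. As row LED of LPW (`Helper38_LPW/LED.lean`). Take `κ`, `h` from NRP. For
`α : Fin (n + 1) →₀ ℕ` let
`T_α = X ^ (α 0) ∏_{i < n} (C (X i) + X ^ ((K + 1) ^ (i + 1))) ^ (α (i + 1))` in
`(MvPolynomial (Fin n) ℤ_p)[X]`: monic of degree `δ α = ∑_i α_i (K + 1) ^ i`, and
`pev T_α (vp K v) (v 0) = ∏ i, v i ^ α i`. Let `I` be the set of the `α` with `h α` a unit; they have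
`α.degree ≤ K` (otherwise `p` divides `h α`), `I` is not empty and finite, and the `δ α`, `α ∈ I`, are
different (`α_i ≤ K`, base `K + 1`). Let `d ≤ K (K + 1) ^ n ≤ (K + 1) ^ (n + 1)` be the largest, attained at
`β`. `P₀ = (h β)⁻¹ ∑_{α ∈ I} h α T_α` is monic of degree `d`. For given `M` let `M' = κ + M + K + 1` and
`P₁ = (h β)⁻¹ ∑_{α ≤ M', α ∉ I} (h α / p) T_α` (a non-unit of `ℤ_p` is divisible by `p`; `α ≤ M'` means
that all exponents are at most `M'`), so that `P₀ + p P₁ = (h β)⁻¹ ∑_{α ≤ M'} h α T_α`. By TRP with `M'`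
and `ϕ a = 0`, `∑_{α ≤ M'} coeff α a p ^ |α| ∏ v ^ α = p ^ κ ∑ h α ∏ v ^ α` is divisible by `p ^ M'`, so
`∑ h α ∏ v ^ α` is divisible by `p ^ M`. -/
def LdpStmt : Prop := TrpStmt → NrpStmt → ∀ (p : ℕ) [Fact p.Prime] (n K : ℕ)
  (a : MvPowerSeries (Fin (n + 1)) ℤ_[p]), a ≠ 0 → Dom K a → ∃ d ≤ (K + 1) ^ (n + 1), ∀ M : ℕ,
    ∃ P₀ P₁ : (MvPolynomial (Fin n) ℤ_[p])[X], P₀.Monic ∧ P₀.natDegree = d ∧
    ∀ (ϕ : MvPowerSeries (Fin (n + 1)) ℤ_[p] →ₐ[ℤ_[p]] ℤ_[p]) (v : Fin (n + 1) → ℤ_[p]),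
      (∀ i, ϕ (MvPowerSeries.X i) = p * v i) → ϕ a = 0 →
      (p : ℤ_[p]) ^ M ∣ pev (P₀ + C (MvPolynomial.C (p : ℤ_[p])) * P₁) (vp K v) (v 0)

/-- The conclusion of LDP. -/
def LdpConcl : Prop := ∀ (p : ℕ) [Fact p.Prime] (n K : ℕ)
  (a : MvPowerSeries (Fin (n + 1)) ℤ_[p]), a ≠ 0 → Dom K a → ∃ d ≤ (K + 1) ^ (n + 1), ∀ M : ℕ,
    ∃ P₀ P₁ : (MvPolynomial (Fin n) ℤ_[p])[X], P₀.Monic ∧ P₀.natDegree = d ∧
    ∀ (ϕ : MvPowerSeries (Fin (n + 1)) ℤ_[p] →ₐ[ℤ_[p]] ℤ_[p]) (v : Fin (n + 1) → ℤ_[p]),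
      (∀ i, ϕ (MvPowerSeries.X i) = p * v i) → ϕ a = 0 →
      (p : ℤ_[p]) ^ M ∣ pev (P₀ + C (MvPolynomial.C (p : ℤ_[p])) * P₁) (vp K v) (v 0)

/-- RPR (100 lines). Representation of all power series modulo `a`.
PROOF. Let `d` be from LDP. Given `M`, `c`: by TRP (with `M`) `ϕ c` is congruent modulo `p ^ M` to
`gv (..) v = pev Q (vp K v) (v 0)` with `Q = ∑_{α ≤ M} coeff α c p ^ |α| T_α`, `T_α` as in LDP
(`T_α = X ^ (α 0) ∏ (C (X i) + X ^ ((K + 1) ^ (i + 1))) ^ (α (i + 1))`). By LPW.DIV with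
`A = MvPolynomial (Fin n) ℤ_p`, `a = C p`, `P₀`, `P₁` from LDP for `M`:
`Q = q (P₀ + p P₁) + r + p ^ M e` with `deg r < d`. `pev` is a ring homomorphism in the polynomial. -/
def RprStmt : Prop := TrpStmt → LdpConcl → LPW.DivStmt → ∀ (p : ℕ) [Fact p.Prime] (n K : ℕ)
  (a : MvPowerSeries (Fin (n + 1)) ℤ_[p]), a ≠ 0 → Dom K a →
    ∀ (M : ℕ) (c : MvPowerSeries (Fin (n + 1)) ℤ_[p]), ∃ r : (MvPolynomial (Fin n) ℤ_[p])[X],
    r.degree < ((K + 1) ^ (n + 1) : ℕ) ∧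
    ∀ (ϕ : MvPowerSeries (Fin (n + 1)) ℤ_[p] →ₐ[ℤ_[p]] ℤ_[p]) (v : Fin (n + 1) → ℤ_[p]),
      (∀ i, ϕ (MvPowerSeries.X i) = p * v i) → ϕ a = 0 →
      (p : ℤ_[p]) ^ M ∣ ϕ c - pev r (vp K v) (v 0)

/-- The conclusion of RPR. -/
def RprConcl : Prop := ∀ (p : ℕ) [Fact p.Prime] (n K : ℕ)
  (a : MvPowerSeries (Fin (n + 1)) ℤ_[p]), a ≠ 0 → Dom K a →
    ∀ (M : ℕ) (c : MvPowerSeries (Fin (n + 1)) ℤ_[p]), ∃ r : (MvPolynomial (Fin n) ℤ_[p])[X],
    r.degree < ((K + 1) ^ (n + 1) : ℕ) ∧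
    ∀ (ϕ : MvPowerSeries (Fin (n + 1)) ℤ_[p] →ₐ[ℤ_[p]] ℤ_[p]) (v : Fin (n + 1) → ℤ_[p]),
      (∀ i, ϕ (MvPowerSeries.X i) = p * v i) → ϕ a = 0 →
      (p : ℤ_[p]) ^ M ∣ ϕ c - pev r (vp K v) (v 0)

/-- DTA (100 lines). The determinant of a matrix which is of rank `W` modulo `Q`.
PROOF. The determinant is multilinear in the rows; expand all rows as (first part) + `Q` (second part)
(`MultilinearMap.map_add_univ` for `Matrix.detRowAlternating`): the sum over the subsets `S` of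
`Fin L` of `Q ^ (L - |S|)` times the determinant with the rows `∑ t, γ a t • E t` for `a ∈ S` and
`R a` for the others. If `|S| > W` this determinant is `0`: expand the rows in `S`
(`MultilinearMap.map_sum`), every function from `S` to `Fin W` takes a value twice, two equal rows.
If `|S| ≤ W` it is divisible by `Q ^ (L - W)`. -/
def DtaStmt : Prop := ∀ (A : Type) [CommRing A] (Q : A) (L W : ℕ) (γ : Fin L → Fin W → A)
  (E : Fin W → Fin L → A) (R : Fin L → Fin L → A),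
  Q ^ (L - W) ∣ (Matrix.of fun a e => ∑ t, γ a t * E t e + Q * R a e).det

/-- DTX (80 lines). Expansion of a polynomial at `η + q ξ`.
PROOF. `P (η + q ξ)` is a polynomial in `ξ` whose coefficient at `ξ ^ β` is divisible by `q ^ |β|`
(induction on `P`, or `MvPolynomial.induction_on`: the set of the `P` for which the claim
`P (η + q ξ) = ∑_{β < c₀} γ β ∏ ξ ^ β + q ^ c₀ R ξ` holds contains constants, is closed under sums
and, in the stronger form with `γ β` divisible by `q ^ |β|`, under multiplication by a variable).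
Monomials with an exponent `≥ c₀` contain the factor `q ^ c₀`. -/
def DtxStmt : Prop := ∀ (A : Type) [CommRing A] (q : A) (n c₀ : ℕ) (P : MvPolynomial (Fin n) A)
  (η : Fin n → A), ∃ (γ : (Fin n → Fin c₀) → A) (R : (Fin n → A) → A), ∀ ξ : Fin n → A,
    MvPolynomial.eval (fun i => η i + q * ξ i) P = ∑ β, γ β * ∏ i, ξ i ^ (β i : ℕ) +
      q ^ c₀ * R ξ

/-- DTM (120 lines). Divisibility of the determinants.
PROOF. By DTX, for `e` in `Fin L`, `pev (r a l) (η + q ξ e) (y e) =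
∑_{j < d} y e ^ j (∑_β γ_{a, l, j, β} ∏ ξ e ^ β + q ^ c₀ R_{a, l, j} (ξ e))` (write
`r a l = ∑_{j < d} C (coeff j) X ^ j`, `Polynomial.as_sum_range_C_mul_X_pow'` or `eval_eq_sum_range'`). So
the matrix is of the form of DTA with `Q = q ^ c₀` and the `W = n₀ d c₀ ^ n` rows
`E (l, j, β) e = b e l * y e ^ j * ∏ ξ e ^ β` (reindex `Fin n₀ × Fin d × (Fin n → Fin c₀)` by `Fin W`), and
`(q ^ c₀) ^ (L - W) = q ^ (c₀ (L - W))`. -/
def DtmStmt : Prop := DtaStmt → DtxStmt → ∀ (A : Type) [CommRing A] (q : A) (n d n₀ L c₀ : ℕ)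
  (r : Fin L → Fin n₀ → (MvPolynomial (Fin n) A)[X]), (∀ a l, (r a l).degree < (d : ℕ)) →
  ∀ (η : Fin n → A) (ξ : Fin L → Fin n → A) (y : Fin L → A) (b : Fin L → Fin n₀ → A),
    q ^ (c₀ * (L - n₀ * d * c₀ ^ n)) ∣ (Matrix.of fun a e =>
      ∑ l, pev (r a l) (fun i => η i + q * ξ e i) (y e) * b e l).det

/-- The conclusion of DTM. -/
def DtmConcl : Prop := ∀ (A : Type) [CommRing A] (q : A) (n d n₀ L c₀ : ℕ)
  (r : Fin L → Fin n₀ → (MvPolynomial (Fin n) A)[X]), (∀ a l, (r a l).degree < (d : ℕ)) →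
  ∀ (η : Fin n → A) (ξ : Fin L → Fin n → A) (y : Fin L → A) (b : Fin L → Fin n₀ → A),
    q ^ (c₀ * (L - n₀ * d * c₀ ^ n)) ∣ (Matrix.of fun a e =>
      ∑ l, pev (r a l) (fun i => η i + q * ξ e i) (y e) * b e l).det

/-- NMM (120 lines). Choice of the degree and of the depth of the classes.
PROOF. We may replace `q` by `q + 1` (the exponent decreases), so `q ≥ 1`. `n = 0`: `D = q`, `L = q + 1`,
`c₀ = 1`, `κ` with `L! X ^ (D L) < p ^ κ`; `p ^ (κ 0) = 1`, `B = 1` (`X ^ η ≥ 1`). `n ≥ 1`: let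
`D + 1 = 2 q s ^ n` with a natural number `s ≥ 1`, `s ≥ 4 q n (n + 1) / η`, `L = (D + 1) ^ (n + 1)`,
`c₀ = s ^ (n + 1)`. Then `q c₀ ^ n = q s ^ (n (n + 1)) ≤ L / 2`, so `e = c₀ (L - q c₀ ^ n) ≥ s ^ (n + 1) L / 2 > 0`.
Let `W = L! X ^ ((n + 1) D L)` and `κ` minimal with `W < p ^ (κ e)`; `κ ≥ 1` since `W ≥ 1`, and
`p ^ ((κ - 1) e) ≤ W`, so `p ^ (κ n) ≤ p ^ n W ^ (n / e) ≤ p ^ n L! X ^ ((n + 1) D L n / e)` (`n / e ≤ 1` may
be used for the constant: `e ≥ n`, or take `(L!) ^ n` as the constant), and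
`(n + 1) D L n / e ≤ 2 n (n + 1) D / s ^ (n + 1) ≤ 4 q n (n + 1) / s ≤ η`. -/
def NmmStmt : Prop := ∀ (p n q : ℕ), p.Prime → ∀ η : ℝ, 0 < η → ∃ (D : ℕ) (B : ℝ),
  ∀ X : ℕ, 1 ≤ X → ∃ κ c₀ : ℕ,
    ((D + 1) ^ (n + 1)).factorial * X ^ ((n + 1) * D * (D + 1) ^ (n + 1)) <
      p ^ (κ * (c₀ * ((D + 1) ^ (n + 1) - q * c₀ ^ n))) ∧
    (p : ℝ) ^ (κ * n) ≤ B * (X : ℝ) ^ η

/-- ABM (120 lines). Points with vanishing determinants lie on a hypersurface.
PROOF. Enumerate `Fin (n + 1) → Fin (D + 1)` by `Fin L`, `L = (D + 1) ^ (n + 1)`, and the points of `T` by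
`Fin N`. By `LUB.DepStmt` (`S = ℤ`, `L a b` = the monomial `a` at the point `b`) it is enough that all
`L × L` minors vanish (for every `J : Fin L → Fin N`). Such a minor `Δ` is an integer with
`|Δ| ≤ L! X ^ ((n + 1) D L)` (every product in the expansion has absolute value at most
`X ^ ((n + 1) D L)`), so `|Δ| < p ^ M`, and `p ^ M` divides `Δ` in `ℤ_p` by hypothesis, hence in `ℤ`
(`PadicInt` norm of an integer, `PadicInt.norm_int_le_pow_iff_dvd`); so `Δ = 0`. -/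
def AbmStmt : Prop := LUB.DepStmt → ∀ (p : ℕ) [Fact p.Prime] (n D X M : ℕ), 1 ≤ X →
  ((D + 1) ^ (n + 1)).factorial * X ^ ((n + 1) * D * (D + 1) ^ (n + 1)) < p ^ M →
  ∀ (P : Type) (T : Finset P) (w : P → Fin (n + 1) → ℤ), (∀ x ∈ T, ∀ i, |w x i| ≤ X) →
  ∀ e : Fin ((D + 1) ^ (n + 1)) ≃ (Fin (n + 1) → Fin (D + 1)),
  (∀ J : Fin ((D + 1) ^ (n + 1)) → P, (∀ a, J a ∈ T) → (p : ℤ_[p]) ^ M ∣
    (Matrix.of fun a b => ((∏ i, w (J b) i ^ (e a i : ℕ) : ℤ) : ℤ_[p])).det) →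
  ∃ c : (Fin (n + 1) → Fin (D + 1)) → ℤ, c ≠ 0 ∧ ∀ x ∈ T, gv c (w x) = 0

/-- The conclusion of ABM. -/
def AbmConcl : Prop := ∀ (p : ℕ) [Fact p.Prime] (n D X M : ℕ), 1 ≤ X →
  ((D + 1) ^ (n + 1)).factorial * X ^ ((n + 1) * D * (D + 1) ^ (n + 1)) < p ^ M →
  ∀ (P : Type) (T : Finset P) (w : P → Fin (n + 1) → ℤ), (∀ x ∈ T, ∀ i, |w x i| ≤ X) →
  ∀ e : Fin ((D + 1) ^ (n + 1)) ≃ (Fin (n + 1) → Fin (D + 1)),
  (∀ J : Fin ((D + 1) ^ (n + 1)) → P, (∀ a, J a ∈ T) → (p : ℤ_[p]) ^ M ∣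
    (Matrix.of fun a b => ((∏ i, w (J b) i ^ (e a i : ℕ) : ℤ) : ℤ_[p])).det) →
  ∃ c : (Fin (n + 1) → Fin (D + 1)) → ℤ, c ≠ 0 ∧ ∀ x ∈ T, gv c (w x) = 0

/-- The conclusion of DMM. -/
def DmmConcl : Prop := ∀ (p : ℕ) [Fact p.Prime] (n n₀ K : ℕ) (η : ℝ), 0 < η → ∃ (D : ℕ) (B : ℝ),
  ∀ a : MvPowerSeries (Fin (n + 1)) ℤ_[p], a ≠ 0 → Dom K a →
  ∀ (P : Type) (T : Finset P) (X : ℕ), 1 ≤ X → ∀ (w : P → Fin (n + 1) → ℤ)
    (ϕ : P → (MvPowerSeries (Fin (n + 1)) ℤ_[p] →ₐ[ℤ_[p]] ℤ_[p])) (v : P → Fin (n + 1) → ℤ_[p])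
    (b : P → Fin n₀ → ℤ_[p]),
    (∀ x ∈ T, (∀ i, |w x i| ≤ X) ∧ (∀ i, ϕ x (MvPowerSeries.X i) = p * v x i) ∧ ϕ x a = 0) →
    (∀ α : Fin (n + 1) → ℕ, ∃ c : Fin n₀ → MvPowerSeries (Fin (n + 1)) ℤ_[p], ∀ x ∈ T,
      ((∏ i, w x i ^ α i : ℤ) : ℤ_[p]) = ∑ l, ϕ x (c l) * b x l) →
    ∃ (n₁ : ℕ) (cls : P → Fin n₁), (n₁ : ℝ) ≤ B * (X : ℝ) ^ η ∧
      ∀ l, ∃ c : (Fin (n + 1) → Fin (D + 1)) → ℤ, c ≠ 0 ∧ ∀ x ∈ T, cls x = l → gv c (w x) = 0

/-- DMM (STRONG, 200 lines). The determinant method.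
PROOF. `d = (K + 1) ^ (n + 1)`, `q = n₀ d`, `D`, `B` from NMM for `n`, `q`, `η`; `L = (D + 1) ^ (n + 1)`. Given
the data take `κ`, `c₀` from NMM and `M = κ (c₀ (L - q c₀ ^ n))`. The class of `x` is the vector
`vp K (v x)` modulo `p ^ κ` (`PadicInt.toZModPow`), `n₁ = (p ^ κ) ^ n` classes (`n₁ ≥ 1`). For a class
`l` let `T_l` = the points of `T` in it; if it is empty any `c ≠ 0` works, otherwise let `η'` in
`ℤ_p ^ n` be `vp K (v x₁)` for one of its points, so `vp K (v x) = η' + p ^ κ ξ x` for all points of the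
class. Let `e` be an enumeration of the exponents; for `a : Fin L` let `c_{a, l}` be the power series
for the monomial `e a` and `r_{a, l}` the polynomials of RPR for `M` and `c_{a, l}`. For a tuple `J` of
points of `T_l` the matrix `(∏ w (J b) ^ (e a))` is congruent modulo `p ^ M` to
`(∑ l, pev (r a l) (η' + p ^ κ ξ (J b)) (v (J b) 0) * b (J b) l)`, whose determinant is divisible by
`(p ^ κ) ^ (c₀ (L - n₀ d c₀ ^ n)) = p ^ M` (DTM with `A = ℤ_p`, `q = p ^ κ`); determinants of congruent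
matrices are congruent (`Matrix.det` is a ring homomorphism image: reduce modulo `p ^ M`). ABM gives
the relation. -/
def DmmStmt : Prop := RprConcl → DtmConcl → NmmStmt → AbmConcl → DmmConcl

end Pool.Agent.LRG
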