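import Pool.Agent.LRG.DefsB

/-!
# Squad LRG (Theorem R), BLOCK B6: the arcs (author helper98)

GOAL of the block: row HSX. On a chart `T` (see `Chart` in `DefsB`) every point `x ∈ T` is the
starting point of an algebraic arc `ξ x` in `ℤ_p[[t]]`, the arcs fall into at most `E ^ k` classes
(same class = the same integer polynomials vanish on the arc), and an integer polynomial of degree
`≤ δ` which vanishes on `T` vanishes on the arc `ξ x` for all `x ∈ T` with `ρ (w(x)) ≠ 0`, where
`ρ ≠ 0` has bounded degree.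

Rows DIR HCT NEW ARC TRI: construction of the arcs. Rows LFT FWC: the classes.
Rows MUL MTX BDV: the polynomial `ρ`. All rows can be started at once, the rows in the column `uses`
are hypotheses.

DELIVER: `Pool/Agent/HelperNN_LRG/XXX.lean`, import `Pool.Agent.LRG.StmtsH`, namespace
`Pool.Agent.LRG.HNN`, `theorem xxx (hypotheses = rows in uses, in this order) : H.XxxStmt`.
-/

set_option autoImplicit false

open Polynomial

namespace Pool.Agent.LRG.H

/-! ## Construction of the arcs -/

/-- **Row DIR** (no hypotheses, about 60 lines). There are arbitrarily many algebraically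
independent `p`-adic integers.

PROOF. `ℚ_[p]` is a complete nontrivially normed field, so its cardinality is at least that of the
continuum (`continuum_le_cardinal_of_nontriviallyNormedField`). Every element of `ℚ_[p]` is
`z / p ^ n` with `z : ℤ_[p]`, so `ℤ_[p] × ℕ` maps onto `ℚ_[p]` and `ℤ_[p]` is uncountable. Let `s` be
a transcendence basis of `ℤ_[p]` over `ℤ` (`exists_isTranscendenceBasis` or a variant of it). If `s`
were finite, then `Algebra.adjoin ℤ s` would be countable (it is the image of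
`MvPolynomial s ℤ`, a countable type: `MvPolynomial.cardinalMk_le_max`) and `ℤ_[p]` algebraic over
it, hence countable (`Algebra.IsAlgebraic.cardinalMk_le_max`, or `Algebraic.countable`): a
contradiction. So `s` is infinite, choose an injection `Fin m → s` (`Infinite.natEmbedding`) and
use `AlgebraicIndependent.comp`.
(Or by induction on `m`: the elements of `ℤ_[p]` algebraic over the countable ring
`Algebra.adjoin ℤ (Set.range d)` form a countable set; take `z` outside and use
`AlgebraicIndependent.option_iff_transcendental` or a variant of it for `Fin.cons`.) -/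
def DirStmt : Prop := ∀ (p : ℕ) [Fact p.Prime] (m : ℕ),
  ∃ d : Fin m → ℤ_[p], AlgebraicIndependent ℤ d

/-- **Row HCT** (no hypotheses, about 60 lines). A contraction in a ring of power series.

PROOF. Let `v' v = 1`. Define `u 0 = 0` and `u (n + 1) = - v' (a + X * H (u n))`, so
`a + v u (n + 1) + X * H (u n) = 0`. By induction `X ^ n` divides `u (n + 1) - u n`: indeed
`u (n + 2) - u (n + 1) = - v' X (H (u (n + 1)) - H (u n))` and `u (n + 1) - u n` divides
`H (u (n + 1)) - H (u n)` (`Polynomial.sub_dvd_eval_sub`). Hence `X ^ n ∣ u l - u n` for all `l ≥ n`.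
Let `u` be the power series with `coeff n u = coeff n (u (n + 1))`. Then `X ^ n ∣ u - u n` for all
`n` (`PowerSeries.X_pow_dvd_iff`: compare the coefficients `i < n`, where
`X ^ (i + 1) ∣ u n - u (i + 1)`). So `a + v u + X * H u` is congruent to
`a + v u (n + 1) + X * H (u n) = 0` modulo `X ^ n` for all `n`, and is `0`. -/
def HctStmt : Prop := ∀ (R : Type) [CommRing R] (a v : PowerSeries R) (H : (PowerSeries R)[X]),
  IsUnit v → ∃ u : PowerSeries R, a + v * u + PowerSeries.X * H.eval u = 0

/-- **Row NEW** (uses HCT, about 100 lines). Newton's lemma for power series over `ℤ_p`.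

PROOF. Let `f ∈ ℤ_p[[t]][Y]` be the polynomial obtained from `H` by applying `h(t) ↦ h(p ^ e t)` to
the coefficients (`Polynomial.map`), `H.eval₂ (..) ζ = f.eval ζ`. Every `h : ℤ_[p][X]` is
`C (h(0)) + X * h.divX` (`Polynomial.divX_mul_X_add`), so `f = f₀ + C (p ^ e t) * f₁` where `f₀` is
`H(0, Y)`. Let `H_Y(0, z₀) = p ^ v ε` with a unit `ε` (`PadicInt.unitCoeff_spec`), `e₀ = 2 v + 1`,
`e ≥ e₀`. Then `f(z₀) = p ^ e t a`, `f'(z₀) = p ^ v ε + p ^ e t b` with `a, b ∈ ℤ_p[[t]]`. Taylor:
`f(z₀ + y) = f(z₀) + f'(z₀) y + y ^ 2 g(y)` with a polynomial `g` over `ℤ_p[[t]]`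
(`Polynomial.taylor`, `taylor_coeff_zero`, `taylor_coeff_one`, and `divX` twice). Put
`y = p ^ (v + 1) t u`:
`f(z₀ + y) = p ^ (2 v + 1) t (p ^ (e - 2 v - 1) a + (ε + p ^ (e - v) t b) u +
t (p u ^ 2 g(p ^ (v + 1) t u)))`. The coefficient of `u` has the constant coefficient `ε`, a unit,
so it is a unit (`PowerSeries.isUnit_iff_constantCoeff`). By HCT with the polynomial
`C p * Y ^ 2 * g(C (p ^ (v + 1) t) Y)` the bracket is `0` for some `u`; `ζ = z₀ + p ^ (v + 1) t u`. -/
def NewStmt : Prop := ∀ (p : ℕ) [Fact p.Prime] (H : ℤ_[p][X][X]) (z₀ : ℤ_[p]),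
  (H.map (evalRingHom (0 : ℤ_[p]))).eval z₀ = 0 →
  (derivative (H.map (evalRingHom (0 : ℤ_[p])))).eval z₀ ≠ 0 →
  ∃ e₀ : ℕ, ∀ e : ℕ, e₀ ≤ e → ∃ ζ : PowerSeries ℤ_[p], PowerSeries.constantCoeff ζ = z₀ ∧
    H.eval₂ (eval₂RingHom (PowerSeries.C (R := ℤ_[p]))
      (PowerSeries.C ((p : ℤ_[p]) ^ e) * PowerSeries.X)) ζ = 0

/-- **Row ARC** (uses NEW, about 120 lines). The arc through a point of a chart, with the direction
`d` of the free coordinates.

PROOF. For every `j : Fin k` let `H j : ℤ_[p][X][X]` be the image of `G j` under the ring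
homomorphism `ψ : MvPolynomial (Fin m) ℤ → ℤ_[p][X]`, `W i ↦ C (w_i) + C (d i) * X` (`w = wv x`). At
`X = 0` it is the image of `G j` under `W i ↦ w_i`, so `H j (0, z_j)` and its derivative are the
images in `ℤ_[p]` of `gev x j (G j) = 0` and `gev x j (derivative (G j)) ≠ 0` (`Polynomial.map_map`,
`Polynomial.eval₂_hom`, `MvPolynomial.ringHom_ext` for equalities of ring homomorphisms on
`ℤ[W]`; `Int.cast_injective`). NEW gives `e₀ j`; let `e` be a common upper bound, and `ζ j` the power
series for this `e`. Put `ξ i = ζ i` for `i < k` and `ξ (k + i) = C (w_i) + C (p ^ e d i) * X`. The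
composition of `ψ` with `h(X) ↦ h(p ^ e X)` is `W i ↦ wv ξ i`, so `gev ξ j (G j) = 0`.
`AlgArc`: for `i < k` the image of `G i` under `W i ↦ C (w_i) + C (p ^ e d i) * X` kills `ξ i`, and
it is not `0` since at `X = 0` its derivative does not vanish at `z_i`; for the free coordinates take
`X - C (C (w_i) + C (p ^ e d i) * X)`. -/
def ArcStmt : Prop := ∀ (p : ℕ) [Fact p.Prime] (m k : ℕ)
  (G : Fin k → (MvPolynomial (Fin m) ℤ)[X]) (x : Fin (m + k) → ℤ) (d : Fin m → ℤ_[p]),
  (∀ j, gev x j (G j) = 0) → (∀ j, gev x j (derivative (G j)) ≠ 0) →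
  ∃ (e : ℕ) (ξ : Fin (m + k) → PowerSeries ℤ_[p]),
    (∀ i, PowerSeries.constantCoeff (ξ i) = (x i : ℤ_[p])) ∧
    (∀ i, wv ξ i = PowerSeries.C (((wv x i : ℤ)) : ℤ_[p]) +
      PowerSeries.C ((p : ℤ_[p]) ^ e * d i) * PowerSeries.X) ∧
    (∀ j, gev ξ j (G j) = 0) ∧ AlgArc ξ

/-- **Row TRI** (no hypotheses, about 40 lines). The free coordinates of the arc are algebraically
independent over `ℤ`.

PROOF. `algebraicIndependent_iff`: let `q : MvPolynomial (Fin m) ℤ` with
`q (C a_i + C (p ^ e d_i) X) = 0`. The arguments are the images of the polynomials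
`C a_i + C (p ^ e d_i) * X : ℤ_[p][X]` under the injective ring homomorphism
`Polynomial.coeToPowerSeries.ringHom` (`Polynomial.coe_injective`), so `q` vanishes at these
polynomials; evaluate at `X = 1`: `q (a_i + p ^ e d_i) = 0`. The elements `a_i + p ^ e d_i` are the
values at `d_i` of the integer polynomials `C a_i + C (p ^ e) * X` of degree one, which are
transcendental over `ℤ`, so they are algebraically independent:
`AlgebraicIndependent.polynomial_aeval_of_transcendental`. Hence `q = 0`. -/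
def TriStmt : Prop := ∀ (p : ℕ) [Fact p.Prime] (m : ℕ) (d : Fin m → ℤ_[p]),
  AlgebraicIndependent ℤ d → ∀ (a : Fin m → ℤ) (e : ℕ),
    AlgebraicIndependent ℤ (fun i => PowerSeries.C (a i : ℤ_[p]) +
      PowerSeries.C ((p : ℤ_[p]) ^ e * d i) * PowerSeries.X)

/-! ## The classes of the arcs -/

/-- **Row LFT** (no hypotheses, about 80 lines). Algebraic elements of any domain over `R` are
copied into one fixed algebraically closed field.

PROOF. Let `K = FractionRing A`, `L = FractionRing R`. The composition `R → A → K` is injective,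
so it extends to a ring homomorphism `L → K` (`IsFractionRing.lift`), which makes `K` an
`L`-algebra (`letI := (..).toAlgebra`) with `algebraMap L K (algebraMap R L r) = φ r`. The images
`ζ' j` of the `ζ j` in `K` are roots of the images of the `G j` in `L[X]`, which are not `0`; so they
are algebraic over `L` and the field `S = IntermediateField.adjoin L (Set.range ζ')` is algebraic
over `L` (`IntermediateField.isAlgebraic_adjoin` with `isAlgebraic_iff_isIntegral`). Let
`σ : S →ₐ[L] AlgebraicClosure L` be `IsAlgClosed.lift`, and `z j = σ (ζ' j)`. The value `q(ζ')` in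
`S` maps to `q(z)` under `σ` and to the image of `q(ζ)` under the inclusion `S → K`; `σ`, the
inclusion and `A → K` are injective. The same for `G j` (or apply it to the polynomial
`G j (X_j)`). -/
def LftStmt : Prop := ∀ (R A : Type) [CommRing R] [IsDomain R] [CommRing A] [IsDomain A]
  (φ : R →+* A) (k : ℕ) (G : Fin k → R[X]) (ζ : Fin k → A), Function.Injective φ →
  (∀ j, G j ≠ 0) → (∀ j, (G j).eval₂ φ (ζ j) = 0) →
  ∃ z : Fin k → AlgebraicClosure (FractionRing R),
    (∀ j, (G j).eval₂ (algebraMap R (AlgebraicClosure (FractionRing R))) (z j) = 0) ∧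
    ∀ q : MvPolynomial (Fin k) R, MvPolynomial.eval₂ φ ζ q = 0 ↔ MvPolynomial.aeval z q = 0

/-- **Row FWC** (uses LFT, about 80 lines). The arcs of a chart fall into at most `E ^ k` classes.

PROOF. Let `R = MvPolynomial (Fin m) ℤ`, `φ a : R → ℤ_p[[t]]` the evaluation at `wv (ξ a)`, which is
injective by the algebraic independence. LFT with `ζ = zv (ξ a)` gives for every `a` a tuple
`z a : Fin k → Ω`, `Ω = AlgebraicClosure (FractionRing R)`, in the finite set
`Fintype.piFinset (fun j => ((G j).map (algebraMap R Ω)).roots.toFinset)`, which has at most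
`∏ j, natDegree (G j) ≤ E ^ k` elements. Let `cls a` be the number of `z a` in this set
(`Finset.equivFin`, `Fin.castLE`). For `q : MvPolynomial (Fin (m + k)) ℤ` let `q'` be the image of
`q` in `MvPolynomial (Fin k) R` under `X_j ↦ X_j` (`j < k`), `X_(k + i) ↦ C (X_i)`. Then
`aeval (ξ a) q = eval₂ (φ a) (zv (ξ a)) q'` (two ring homomorphisms on `ℤ[x]` which agree on the
variables), so `aeval (ξ a) q = 0` if and only if `aeval (z a) q' = 0`. -/
def FwcStmt : Prop := ∀ (p : ℕ) [Fact p.Prime] (m k E : ℕ)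
  (G : Fin k → (MvPolynomial (Fin m) ℤ)[X]) (κ : Type)
  (ξ : κ → Fin (m + k) → PowerSeries ℤ_[p]), BddG E G →
  (∀ a, AlgebraicIndependent ℤ (wv (ξ a))) → (∀ a j, gev (ξ a) j (G j) = 0) →
  ∃ cls : κ → Fin (E ^ k), ∀ a b, cls a = cls b → ∀ q : MvPolynomial (Fin (m + k)) ℤ,
    MvPolynomial.aeval (ξ a) q = 0 ↔ MvPolynomial.aeval (ξ b) q = 0

/-! ## Polynomials vanishing on the chart -/

/-- The monomial `z ^ β` in the algebraic coordinates, all exponents at most `E`. -/
noncomputable def zm {m k E : ℕ} {O : Type} [CommRing O] (x : Fin (m + k) → O)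
    (β : Fin k → Fin (E + 1)) : O :=
  ∏ j, zv x j ^ (β j : ℕ)

/-- A polynomial in the free coordinates as a polynomial in all coordinates. -/
noncomputable def wp {m : ℕ} (k : ℕ) (h : MvPolynomial (Fin m) ℤ) : MvPolynomial (Fin (m + k)) ℤ :=
  MvPolynomial.rename (fun i : Fin m => (⟨k + i, by omega⟩ : Fin (m + k))) h

/-- At all points (over all commutative rings) of the variety of the `G j` the multiplication by
`f` maps the monomials `z ^ α` to combinations of the monomials `z ^ β` with coefficients in `ℤ[w]`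
of degree at most `D`. -/
def Rep (E D : ℕ) {m k : ℕ} (G : Fin k → (MvPolynomial (Fin m) ℤ)[X])
    (f : MvPolynomial (Fin (m + k)) ℤ) : Prop :=
  ∃ M : Matrix (Fin k → Fin (E + 1)) (Fin k → Fin (E + 1)) (MvPolynomial (Fin m) ℤ),
    (∀ α β, (M α β).totalDegree ≤ D) ∧
    ∀ (O : Type) [CommRing O] (x : Fin (m + k) → O), (∀ j, gev x j (G j) = 0) → ∀ α,
      MvPolynomial.aeval x f * zm x α = ∑ β, MvPolynomial.aeval (wv x) (M α β) * zm x β

/-- **Row MUL** (no hypotheses, about 80 lines). The multiplication by `lc(G j) z_j`.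

PROOF. Let `g = G j`, `n = natDegree g ≤ E`. If `α j < E`, then `lc z_j z ^ α` is
`lc * z ^ (α + e_j)`: the row `α` of `M` has the single entry `lc(g)` at `Function.update α j (α j + 1)`.
If `α j = E`: from `∑_{i ≤ n} g_i(w) z_j ^ i = 0` (`gev x j g = 0`, `Polynomial.eval₂_eq_sum_range`)
one gets `lc(w) z_j ^ n = - ∑_{i < n} g_i(w) z_j ^ i`, and after multiplication by `z_j ^ (E + 1 - n)`
`lc(w) z_j ^ (E + 1) = - ∑_{i < n} g_i(w) z_j ^ (i + E + 1 - n)` with exponents `≤ E` (also if
`n = 0`, then both sides are `0`): the row `α` of `M` has the entries `- g_i` at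
`Function.update α j (i + E + 1 - n)`, `i < n`. All entries have degree `≤ E` by `BddG`.
(`zm x (Function.update α j b)` is `z_j ^ b` times the product over the other coordinates:
`Finset.prod_update_of_mem` or `Finset.mul_prod_erase`.) -/
def MulStmt : Prop := ∀ (m k E : ℕ) (G : Fin k → (MvPolynomial (Fin m) ℤ)[X]), BddG E G →
  ∀ j : Fin k, Rep E E G (wp k (G j).leadingCoeff * MvPolynomial.X (⟨j, by omega⟩ : Fin (m + k)))

/-- **Row MTX** (uses MUL, about 120 lines). The multiplication by `Λ ^ δ q`, `Λ` the product of the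
leading coefficients.

PROOF. Write `Rep D f` for `Rep E D G f`. (1) `Rep D f`, `Rep D' f'` imply `Rep (max D D') (f + f')`
(sum of the matrices) and `Rep (D + D') (f f')` (product of the matrices:
`f f' z ^ α = f ∑ M'(α β) z ^ β = ∑ M'(α β) (f z ^ β) = ∑ M'(α β) M(β γ) z ^ γ`). (2) For
`h : MvPolynomial (Fin m) ℤ` one has `Rep (totalDegree h) (wp k h)` (diagonal matrix;
`MvPolynomial.aeval_rename`), and `Rep` is monotone in `D`. (3) Let `Λ = ∏ j, lc(G j)`, of degree
`≤ k E`, and `D₁ = k E + E + 1`. For every variable `X i`: `Rep D₁ (wp k Λ * X i)`: if `i < k` it is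
the product of `wp k` of the product of the other leading coefficients and of the polynomial in MUL,
if `i ≥ k` it is `wp k (Λ * X (i - k))`. Also `Rep D₁ (wp k Λ)`. (4) For a monomial `x ^ s` of degree
`n ≤ δ`, `(wp k Λ) ^ δ * x ^ s` is `(wp k Λ) ^ (δ - n)` times the product of `n` factors
`wp k Λ * X i`: `Rep (δ * D₁)` (induction over the multiset of the variables, `Finsupp.induction`
or `MvPolynomial.monomial` products; `MvPolynomial.monomial_eq`). (5) `q` is the sum of its monomials
times integer constants, which are `wp k (C c)` (`MvPolynomial.as_sum`,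
`MvPolynomial.le_totalDegree`). `D = δ * D₁`. -/
def MtxStmt : Prop := ∀ m k E δ : ℕ, ∃ D : ℕ, ∀ G : Fin k → (MvPolynomial (Fin m) ℤ)[X], BddG E G →
  ∀ q : MvPolynomial (Fin (m + k)) ℤ, q.totalDegree ≤ δ →
    Rep E D G (wp k (∏ j, (G j).leadingCoeff) ^ δ * q)

/-- **Row DTD** (no hypotheses, about 60 lines). The degrees of the coefficients of a
characteristic polynomial.

PROOF. Call `f : (MvPolynomial (Fin m) ℤ)[X]` `D`-bounded if all `(f.coeff i).totalDegree ≤ D`. Sums
of `D`-bounded polynomials are `D`-bounded (`MvPolynomial.totalDegree_finsetSum_le` or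
`totalDegree_add`), products of `D`- and `D'`-bounded ones are `D + D'`-bounded (`coeff_mul`,
`totalDegree_mul`), so products over a `Finset` add up, and signs do not matter. Expand the
determinant (`Matrix.det_apply`): every summand is a product of `Fintype.card ι` entries
`C Λ * X - C (M i i)` or `- C (M i j)`, all `D`-bounded. The second part: the coefficient at
`X ^ Fintype.card ι` of `det (C Λ * X - C M)` is `Λ ^ Fintype.card ι ≠ 0`: map to the fraction field,
where it is `det (Λ (X - Λ⁻¹ M)) = Λ ^ n * charpoly (Λ⁻¹ M)`, or use `Polynomial.coeff_det_X_add_C_card`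
/ `Polynomial.leadingCoeff_det_X_one_add_C` in the file
`LinearAlgebra/Matrix/Polynomial.lean` (`coeff_det_X_add_C_card : coeff (det (X • A.map C + B.map C))
(card n) = A.det` with `A = Λ • 1`, `B = - M`). -/
def DtdStmt : Prop := ∀ (m D : ℕ) (ι : Type) [Fintype ι] [DecidableEq ι]
  (M : Matrix ι ι (MvPolynomial (Fin m) ℤ)) (Λ : MvPolynomial (Fin m) ℤ), Λ ≠ 0 →
  Λ.totalDegree ≤ D → (∀ i j, (M i j).totalDegree ≤ D) →
  (Matrix.of fun i j : ι => (if i = j then C Λ * X else 0) - C (M i j)).det ≠ 0 ∧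
  ∀ i, ((Matrix.of fun i j : ι => (if i = j then C Λ * X else 0) - C (M i j)).det.coeff
    i).totalDegree ≤ Fintype.card ι * D

/-- **Row BDV** (uses MTX, DTD, about 100 lines). A polynomial of bounded degree which controls the
points at which `q` vanishes but not on the arc.

PROOF. Let `M` be the matrix of MTX for `q`, `Λ' = Λ ^ δ ≠ 0` (the leading coefficients are not `0`
by `BddG`), `ι = Fin k → Fin (E + 1)` and `P = det (C Λ' * X - C M) : (MvPolynomial (Fin m) ℤ)[X]`,
`P ≠ 0` by DTD, its coefficients have degree `≤ D'` with `D'` depending only on `m k E δ`. Let `x` be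
a point over a commutative ring `O` with `gev x j (G j) = 0` for all `j`, `y = q(x)`. The matrix
`A = Λ'(w) y - M(w)` over `O` kills the vector `(z ^ β)_β`, whose entry at `β = 0` is `1`; so
`det A = 0` (multiply by the adjugate: `Matrix.adjugate_mul`), i.e. `P(w, y) = 0` (`RingHom.map_det`).
Let `ρ = P.coeff a` with `a = P.natTrailingDegree`, `P = X ^ a * P₁`, `P₁.coeff 0 = ρ ≠ 0`
(`Polynomial.trailingCoeff`, or `Polynomial.exists_eq_pow_rootMultiplicity_mul_and_not_dvd`). For
the arc `ξ` (over the domain `ℤ_p[[t]]`) with `y = q(ξ) ≠ 0` one gets `P₁(wv ξ, y) = 0`. Take the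
constant coefficient: `P₁(wv x, q(x)) = 0` in `ℤ_[p]`, `q(x) = 0`, so `ρ(wv x) = 0` in `ℤ_[p]` and in
`ℤ`. -/
def BdvStmt : Prop := ∀ m k E δ : ℕ, ∃ D : ℕ, ∀ (p : ℕ) [Fact p.Prime]
  (G : Fin k → (MvPolynomial (Fin m) ℤ)[X]), BddG E G →
  ∀ q : MvPolynomial (Fin (m + k)) ℤ, q.totalDegree ≤ δ →
  ∃ ρ : MvPolynomial (Fin m) ℤ, ρ ≠ 0 ∧ ρ.totalDegree ≤ D ∧
    ∀ (x : Fin (m + k) → ℤ) (ξ : Fin (m + k) → PowerSeries ℤ_[p]),
      (∀ i, PowerSeries.constantCoeff (ξ i) = (x i : ℤ_[p])) → (∀ j, gev ξ j (G j) = 0) →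
      MvPolynomial.eval x q = 0 → MvPolynomial.aeval ξ q ≠ 0 → MvPolynomial.eval (wv x) ρ = 0

/-- **Row HSX** (uses DIR, ARC, TRI, FWC, BDV, where the hypothesis for ARC is `ArcStmt`; about 60
lines). The arcs of a chart: the result of block B6.

PROOF. DIR gives `d`. For `x ∈ T` let `ξ x` be the arc of ARC with direction `d`, for `x ∉ T` any
value. TRI: `wv (ξ x)` is algebraically independent. FWC for `κ = T` gives the classes; put
`cls x = 0` for `x ∉ T` (`Fin (E ^ k + 1)` is not empty; embed `Fin (E ^ k)` by `Fin.castSucc`). The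
last part: BDV for `q` (`D δ` chosen with `choose`). -/
def HsxStmt : Prop := ∀ m k E : ℕ, ∃ D : ℕ → ℕ, ∀ (p : ℕ) [Fact p.Prime]
  (T : Finset (Fin (m + k) → ℤ)) (G : Fin k → (MvPolynomial (Fin m) ℤ)[X]), Chart E T G →
  ∃ (ξ : (Fin (m + k) → ℤ) → Fin (m + k) → PowerSeries ℤ_[p])
    (cls : (Fin (m + k) → ℤ) → Fin (E ^ k + 1)),
    (∀ x ∈ T, (∀ i, PowerSeries.constantCoeff (ξ x i) = (x i : ℤ_[p])) ∧ AlgArc (ξ x)) ∧
    (∀ x ∈ T, ∀ y ∈ T, cls x = cls y → ∀ q : MvPolynomial (Fin (m + k)) ℤ,
      MvPolynomial.aeval (ξ x) q = 0 → MvPolynomial.aeval (ξ y) q = 0) ∧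
    ∀ (δ : ℕ) (q : MvPolynomial (Fin (m + k)) ℤ), q.totalDegree ≤ δ →
      (∀ x ∈ T, MvPolynomial.eval x q = 0) →
      ∃ ρ : MvPolynomial (Fin m) ℤ, ρ ≠ 0 ∧ ρ.totalDegree ≤ D δ ∧
        ∀ x ∈ T, MvPolynomial.eval (wv x) ρ ≠ 0 → MvPolynomial.aeval (ξ x) q = 0

end Pool.Agent.LRG.H
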