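import Mathlib

/-!
# LRG (MP_5f2860_nt, Theorem R): definitions for block R (selection, etale coordinates, dimension)

Finite sets `S` of integer points `x : Fin N → ℤ`; a list of coordinates is a map
`c : Fin m → Fin N`, `w(x) = (x (c 0), .., x (c (m-1)))`.  The results of the block in the language of
`DefsB` are in `StmtsR2.lean` (`SchStatement`, `RlfStatement`, `RelStatement`).
-/

noncomputable section

namespace Pool.Agent.LRG.R

/-- the coordinates `w = x ∘ c` are `E`-dependent on `S`: a nonzero integer polynomial of total degree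
`≤ E` in `w` vanishes on `S` -/
def Dep {N m : ℕ} (c : Fin m → Fin N) (E : ℕ) (S : Finset (Fin N → ℤ)) : Prop :=
  ∃ g : MvPolynomial (Fin m) ℤ, g ≠ 0 ∧ g.totalDegree ≤ E ∧
    ∀ x ∈ S, MvPolynomial.eval (fun i => x (c i)) g = 0

/-- `(S, w)` is `(E, L)`-robust: `w` is not `E`-dependent on any subset `S'` with `L |S'| ≥ |S|` -/
def Rob {N m : ℕ} (c : Fin m → Fin N) (E : ℕ) (L : ℝ) (S : Finset (Fin N → ℤ)) : Prop :=
  ∀ S' ⊆ S, (S.card : ℝ) ≤ L * (S'.card : ℝ) → ¬ Dep c E S'

/-- the value `q(w)` of an integer polynomial in a commutative ring -/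
def ev1 {κ O : Type} [CommRing O] (q : MvPolynomial κ ℤ) (w : κ → O) : O :=
  MvPolynomial.eval₂ (Int.castRingHom O) w q

/-- the value `g(w, y)` of `g ∈ ℤ[W][Y]` in a commutative ring -/
def ev2 {m : ℕ} {O : Type} [CommRing O] (g : Polynomial (MvPolynomial (Fin m) ℤ))
    (w : Fin m → O) (y : O) : O :=
  Polynomial.eval₂ (MvPolynomial.eval₂Hom (Int.castRingHom O) w) y g

/-- `g ∈ ℤ[W][Y]` has degree `≤ E` in `Y` and all coefficients have total degree `≤ E` in `W` -/
def DegB {m : ℕ} (E : ℕ) (g : Polynomial (MvPolynomial (Fin m) ℤ)) : Prop :=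
  g.natDegree ≤ E ∧ ∀ i, (g.coeff i).totalDegree ≤ E

/-- `g(w, x_l) = 0` on `T`, with nonvanishing derivative and leading coefficient at every point -/
structure Etl {N m : ℕ} (c : Fin m → Fin N) (E : ℕ) (T : Finset (Fin N → ℤ)) (l : Fin N)
    (g : Polynomial (MvPolynomial (Fin m) ℤ)) : Prop where
  bdd : DegB E g
  zero : ∀ x ∈ T, ev2 g (fun i => x (c i)) (x l) = 0
  der : ∀ x ∈ T, ev2 (Polynomial.derivative g) (fun i => x (c i)) (x l) ≠ 0
  lead : ∀ x ∈ T, MvPolynomial.eval (fun i => x (c i)) g.leadingCoeff ≠ 0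

/-- all coordinates `x_l` are etale over `w` on `T`, by polynomials of degree `≤ E` -/
def Etale {N m : ℕ} (c : Fin m → Fin N) (E : ℕ) (T : Finset (Fin N → ℤ)) : Prop :=
  ∀ l : Fin N, ∃ g : Polynomial (MvPolynomial (Fin m) ℤ), Etl c E T l g

/-- the integers `k i` have no common prime divisor (in particular they are not all zero) -/
def Prim {ι : Type} (k : ι → ℤ) : Prop := ∀ q : ℕ, q.Prime → ∃ i, ¬ (q : ℤ) ∣ k i

/-- SEL (selection).  For every `N`, `ε` there is `θ > 0` such that for all functions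
`e m E`, `C m E` (the degrees and constants which the later blocks produce for `m` coordinates and
an etale tower of degree `E`) there is `B` such that every finite set `PP` with more than `B X^ε`
points contains `T ≠ ∅` with `m ≥ 1` coordinates `w` (`c` injective) over which all coordinates are
etale of degree `E` on `T`, and `w` is not `e m E`-dependent on any `T' ⊆ T` with
`|T| ≤ C m E X^θ |T'|`. -/
def SelStatement : Prop :=
  ∀ (N : ℕ) (ε : ℝ), 0 < ε → ∃ θ : ℝ, 0 < θ ∧ ∀ (e : ℕ → ℕ → ℕ) (C : ℕ → ℕ → ℝ),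
    ∃ B : ℝ, 0 < B ∧ ∀ X : ℝ, 1 ≤ X → ∀ PP : Finset (Fin N → ℤ), B * X ^ ε < (PP.card : ℝ) →
      ∃ (m E : ℕ) (c : Fin m → Fin N) (T : Finset (Fin N → ℤ)),
        1 ≤ m ∧ m ≤ N ∧ 1 ≤ E ∧ Function.Injective c ∧ T ⊆ PP ∧ T.Nonempty ∧ Etale c E T ∧
        Rob c (e m E) (C m E * X ^ θ) T

/-- DPM (dimension), formal version.  Let `g l`, `l : Fin N`, have degree `≥ 1` and be bounded by
`E`.  Any `m + 1` integer polynomials in `N` variables of degree `≤ δ` satisfy a primitive integer
relation with exponents `≤ D(N, m, E, δ)`, at every point `x` over a domain at which all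
`g l (w, x_l)` vanish and all leading coefficients do not. -/
def DpmStatement : Prop :=
  ∀ N m E δ : ℕ, ∃ D : ℕ, ∀ (c : Fin m → Fin N) (g : Fin N → Polynomial (MvPolynomial (Fin m) ℤ)),
    (∀ l, DegB E (g l) ∧ 1 ≤ (g l).natDegree) →
    ∀ P : Fin (m + 1) → MvPolynomial (Fin N) ℤ, (∀ i, (P i).totalDegree ≤ δ) →
      ∃ k : (Fin (m + 1) → Fin (D + 1)) → ℤ, Prim k ∧
        ∀ (O : Type) [CommRing O] [IsDomain O] (x : Fin N → O),
          (∀ l, ev2 (g l) (fun i => x (c i)) (x l) = 0) →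
          (∀ l, ev1 (g l).leadingCoeff (fun i => x (c i)) ≠ 0) →
          ∑ α, (k α : O) * ∏ i, ev1 (P i) x ^ (α i : ℕ) = 0

end Pool.Agent.LRG.R
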