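import Pool.Agent.LRG.DefsB
import Pool.Agent.LRG.DefsR

/-!
# LRG, block R, second part: the results of block R in the language of `DefsB`

ROWS: `SCH` (from `R.SelStatement`), `RLF` (from `R.DpmStatement`), `REL` (from `RlfConcl`).
The rows in `uses` are already written inside the statements.

DELIVER: `Pool/Agent/HelperNN_LRG/XXX.lean`, import `Pool.Agent.LRG.StmtsR2`, namespace
`Pool.Agent.LRG.HNN`, theorem `xxx : R2.XxxStatement`.
-/

set_option autoImplicit false

open Polynomial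

namespace Pool.Agent.LRG.B

end Pool.Agent.LRG.B

namespace Pool.Agent.LRG.R2

open Pool.Agent.LRG.B

/-- The conclusion of SCH: selection of a chart.  For every finite index set `σ` and `ε > 0` there is
`θ > 0` such that for all functions `e m E`, `C m E` there is `B` such that every finite set `S` with
more than `B X ^ ε` points has, after a numbering `φ` of the coordinates, a nonempty subset `T` with
a chart of degree `E` over `m ≥ 1` free coordinates, which is robust for `(e m E, C m E X ^ θ)`. -/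
def SchConcl : Prop := ∀ (σ : Type) [Fintype σ] (ε : ℝ), 0 < ε → ∃ θ : ℝ, 0 < θ ∧
  ∀ (e : ℕ → ℕ → ℕ) (C : ℕ → ℕ → ℝ), ∃ B : ℝ, 0 < B ∧ ∀ X : ℝ, 1 ≤ X →
  ∀ S : Finset (σ → ℤ), B * X ^ ε < (S.card : ℝ) →
    ∃ (m k E : ℕ) (φ : Fin (m + k) ≃ σ) (T : Finset (Fin (m + k) → ℤ))
      (G : Fin k → (MvPolynomial (Fin m) ℤ)[X]), 1 ≤ m ∧ 1 ≤ E ∧ T.Nonempty ∧
      (∀ x ∈ T, (fun s => x (φ.symm s)) ∈ S) ∧ Chart E T G ∧ Rob (e m E) (C m E * X ^ θ) T

/-- SCH (120 lines).  `N = card σ`, `ψ : σ ≃ Fin N`, `PP` = the image of `S` under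
`x ↦ x ∘ ψ.symm` (injective).  SEL gives `m, E, c, T₀ ⊆ PP`.  `c` is injective, so with `k = N - m`
there is a bijection `φ₀ : Fin (m + k) ≃ Fin N` with `φ₀ ⟨k + i, _⟩ = c i` (the first `k` numbers go to
the complement of the range of `c`).  `φ = φ₀.trans ψ.symm`, `T` = the image of `T₀` under
`x ↦ x ∘ φ₀`, `G j` = the polynomial of `R.Etale` for the coordinate `φ₀ ⟨j, _⟩`; `G j ≠ 0` because `T₀`
is not empty and its derivative has a nonzero value.  For `x = x₀ ∘ φ₀`: `wv x i = x₀ (c i)`,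
`zv x j = x₀ (φ₀ ⟨j, _⟩)`, so `gev x j g = R.ev2 g (fun i => x₀ (c i)) (x₀ (φ₀ ⟨j, _⟩))`, and `DepW` on
the image of `T'` is `R.Dep c` on `T'`. -/
def SchStatement : Prop := R.SelStatement → SchConcl

/-- The conclusion of RLF: formal relations.  Any `m + 1` integer polynomials of degree `≤ δ` satisfy
a primitive relation with bounded exponents, at all points of domains at which the `G j` vanish and
their leading coefficients do not vanish. -/
def RlfConcl : Prop := ∀ m k E δ : ℕ, ∃ D : ℕ, ∀ G : Fin k → (MvPolynomial (Fin m) ℤ)[X],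
  (∀ j, 1 ≤ (G j).natDegree ∧ (G j).natDegree ≤ E ∧ ∀ i, ((G j).coeff i).totalDegree ≤ E) →
  ∀ h : Fin (m + 1) → MvPolynomial (Fin (m + k)) ℤ,
  (∀ i, (h i).totalDegree ≤ δ) → ∃ c : (Fin (m + 1) → Fin (D + 1)) → ℤ,
    (∀ q : ℕ, q.Prime → ∃ α, ¬ (q : ℤ) ∣ c α) ∧
    ∀ (O : Type) [CommRing O] [IsDomain O] (x : Fin (m + k) → O), (∀ j, gev x j (G j) = 0) →
      (∀ j, MvPolynomial.eval₂ (Int.castRingHom O) (wv x) (G j).leadingCoeff ≠ 0) →
      gv (fun α => (c α : O)) (fun i => MvPolynomial.eval₂ (Int.castRingHom O) x (h i)) = 0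

/-- RLF (80 lines).  `R.DpmStatement` with `N = m + k`, `max E 1` in place of `E`, the map
`c i = ⟨k + i, _⟩` and the polynomials `g ⟨j, _⟩ = G j` for `j < k`,
`g ⟨k + i, _⟩ = X - C (MvPolynomial.X i)` (degree 1, leading coefficient 1, vanishes at
`(wv x, x ⟨k + i, _⟩)`). -/
def RlfStatement : Prop := R.DpmStatement → RlfConcl

/-- The conclusion of REL: the relations on a chart. -/
def RelConcl : Prop := ∀ m k E δ : ℕ, ∃ D : ℕ, ∀ (T : Finset (Fin (m + k) → ℤ))
  (G : Fin k → (MvPolynomial (Fin m) ℤ)[X]), Chart E T G →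
  ∀ h : Fin (m + 1) → MvPolynomial (Fin (m + k)) ℤ, (∀ i, (h i).totalDegree ≤ δ) →
  ∃ c : (Fin (m + 1) → Fin (D + 1)) → ℤ, (∀ q : ℕ, q.Prime → ∃ α, ¬ (q : ℤ) ∣ c α) ∧
    ∀ x ∈ T, gv c (fun i => MvPolynomial.eval x (h i)) = 0

/-- REL (40 lines).  From RLF with `O = ℤ`.  If `T` is empty take all `c α = 1`; otherwise every
`G j` has degree at least `1` (its derivative does not vanish at a point of `T`). -/
def RelStatement : Prop := RlfConcl → RelConcl

end Pool.Agent.LRG.R2
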