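import Pool.Agent.LRG.StmtsB
import Pool.Agent.LRG.StmtsB2
import Pool.Agent.LRG.StmtsR2
import Pool.Agent.LRG.StmtsH
import Pool.Agent.LRG.Defs

/-!
# Squad LRG, block B7: assembly of the counting theorem (helper69)

Note 3593 (helper69), blocks B4, B5, B7. Rows: file `Pool/Agent/HelperNN_LRG/XXX.lean`,
`import Pool.Agent.LRG.StmtsB3`, namespace `Pool.Agent.LRG.HNN`.
-/

set_option autoImplicit false

open Polynomial

namespace Pool.Agent.LRG

/-- TRL (100 lines). The tower relations as polynomials in the coordinates.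
PROOF. Induction on `k`. For `k + 1` take the polynomials of step `k` in the variables
`X i.succ` (`MvPolynomial.rename Fin.succ`, `aeval x (rename Fin.succ q) = aeval (Fin.tail x) q`) and the
new one `gv (fun α => (s k α : MvPolynomial _ ℤ)) (Fin.cons (X 0) (yv D k (Fin.tail X)))`; `gv` and `yv`
commute with the ring homomorphism `aeval x` (see JTR). The degrees: `yv D k X i` has total degree at
most `δ k` with `δ 0 = 1`, `δ (k + 1) = max (δ k) ((D k + 1) ^ m)`, and the new relation at most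
`(m + 1) (D k) (δ k)`. The number `δ` must not depend on `s`. -/
def TrlStmt : Prop := ∀ (D : ℕ → ℕ) (m k : ℕ), ∃ δ : ℕ,
  ∀ s : (j : ℕ) → (Fin (m + 1) → Fin (D j + 1)) → ℤ, ∃ q : Fin k → MvPolynomial (Fin (m + k)) ℤ,
    (∀ j, (q j).totalDegree ≤ δ) ∧ ∀ (O : Type) [CommRing O] (x : Fin (m + k) → O),
      Rels D (fun j α => (s j α : O)) k x ↔ ∀ j, MvPolynomial.aeval x (q j) = 0

/-- TOX (150 lines). Existence of the tower relations.
PROOF. Let `relB δ` be the number `D` of `R2.RelConcl` for `m`, `k`, `E`, `δ`, and define by recursion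
`δ 0 = 1`, `D j = relB (δ j)`, `δ (j + 1) = max (δ j) ((D j + 1) ^ m)`. For `k' ≤ k` let
`drop k' : Fin (m + k') → Fin (m + k)`, `i ↦ i + (k - k')`, so `drop (k' + 1) ∘ Fin.succ = drop k'` and
`Fin.tail (x ∘ drop (k' + 1)) = x ∘ drop k'`. The polynomial `yv D k' (fun i => X (drop k' i)) i` has total
degree at most `δ k'` (induction on `k'`), and its value at `x` is `yv D k' (x ∘ drop k') i`. Given `T`,
`G` take for every `j < k` the coefficients `s j` from `R2.RelConcl` for the `m + 1` polynomials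
`X (drop (j + 1) 0)`, `yv D j (X ∘ drop j) i` (`Fin.cons`), of total degree at most `δ j`, and for
`j ≥ k` all coefficients `1`. Then `Rels D s k' (x ∘ drop k')` for all `k' ≤ k` by induction, and
`drop k` is the identity. -/
def ToxStmt : Prop := R2.RelConcl → ∀ m k E : ℕ, ∃ D : ℕ → ℕ,
  ∀ (T : Finset (Fin (m + k) → ℤ)) (G : Fin k → (MvPolynomial (Fin m) ℤ)[X]), Chart E T G →
  ∃ s : (j : ℕ) → (Fin (m + 1) → Fin (D j + 1)) → ℤ,
    (∀ q : ℕ, q.Prime → ∀ j, ∃ α, ¬ (q : ℤ) ∣ s j α) ∧ ∀ x ∈ T, Rels D s k x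

/-- The conclusion of TOX. -/
def ToxConcl : Prop := ∀ m k E : ℕ, ∃ D : ℕ → ℕ,
  ∀ (T : Finset (Fin (m + k) → ℤ)) (G : Fin k → (MvPolynomial (Fin m) ℤ)[X]), Chart E T G →
  ∃ s : (j : ℕ) → (Fin (m + 1) → Fin (D j + 1)) → ℤ,
    (∀ q : ℕ, q.Prime → ∀ j, ∃ α, ¬ (q : ℤ) ∣ s j α) ∧ ∀ x ∈ T, Rels D s k x

/-- GVP (50 lines). A relation given by its coefficients is a polynomial of bounded degree.
PROOF. `g = ∑ α, monomial (fse α) (c α)`; `fse` is injective, so `g ≠ 0`; the total degree of the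
monomials is at most `n D`; `eval w g = gv c w`. -/
def GvpStmt : Prop := ∀ (n D : ℕ) (c : (Fin n → Fin (D + 1)) → ℤ), c ≠ 0 →
  ∃ g : MvPolynomial (Fin n) ℤ, g ≠ 0 ∧ g.totalDegree ≤ n * D ∧
    ∀ w : Fin n → ℤ, MvPolynomial.eval w g = gv c w

/-- EVP (100 lines). Evaluation of power series at arcs.
PROOF. As LUB.EVH (see its proof, the row EVH of squad LUB): `MvPowerSeries.aeval` of Mathlib, with
target `PowerSeries ℤ_[p]` and the product topology (`PowerSeries.WithPiTopology`, scoped instances;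
linear topology by `MvPowerSeries.LinearTopology`, complete, Hausdorff; `ξ i` is topologically
nilpotent because its constant coefficient is,
`MvPowerSeries.LinearTopology.isTopologicallyNilpotent_of_constantCoeff`). -/
def EvpStmt : Prop := ∀ (p : ℕ) [Fact p.Prime] (σ : Type) [Finite σ]
  (ξ : σ → PowerSeries ℤ_[p]), (∀ i, ‖PowerSeries.constantCoeff (ξ i)‖ < 1) →
    ∃ Φ : MvPowerSeries σ ℤ_[p] →ₐ[ℤ_[p]] PowerSeries ℤ_[p], ∀ i, Φ (MvPowerSeries.X i) = ξ i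

/-- EVU (80 lines). Uniqueness of the evaluation.
PROOF. For every `f` and `n`: `f = f' + ∑_{|α| = n} X ^ α f_α` with a polynomial `f'` of degree `< n`
(induction on `n`: `f = C (constantCoeff f) + ∑ i, X i f_i`); `φ` and `φ'` agree on `f'`, and
`φ (X ^ α) = φ' (X ^ α)` is divisible by `p ^ n` (`‖φ (X i)‖ < 1` means that `p` divides it). So
`p ^ n` divides `φ f - φ' f` for all `n`. -/
def EvuStmt : Prop := ∀ (p : ℕ) [Fact p.Prime] (σ : Type) [Finite σ]
  (φ φ' : MvPowerSeries σ ℤ_[p] →ₐ[ℤ_[p]] ℤ_[p]),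
  (∀ i, φ (MvPowerSeries.X i) = φ' (MvPowerSeries.X i)) → (∀ i, ‖φ (MvPowerSeries.X i)‖ < 1) →
    φ = φ'

/-- CAL (40 lines). The case distinction.
PROOF. `χ = X ^ j₀ χ'` with `χ'.coeff 0 = χ.coeff j₀`, so `0 = f ^ j₀ (χ'.eval₂ g f)` in the domain `O`. If
`f ≠ 0` then `χ'.eval₂ g f = 0`; it is `g (χ.coeff j₀) + f h` for some `h`; apply `ε`. -/
def CalStmt : Prop := ∀ (A O O' : Type) [CommRing A] [CommRing O] [IsDomain O] [CommRing O']
  (g : A →+* O) (ε : O →+* O') (χ : A[X]) (f : O) (j₀ : ℕ), (∀ j < j₀, χ.coeff j = 0) →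
  χ.eval₂ g f = 0 → ε f = 0 → ε (g (χ.coeff j₀)) ≠ 0 → f = 0

/-- PIG (50 lines). Pigeonhole.
PROOF. Some class has more than `K₀` elements of `T` (`Finset.exists_lt_card_fiber_of_mul_lt_card_of_maps_to`);
enumerate `K₀ + 1` of them. -/
def PigStmt : Prop := ∀ (P : Type) (T : Finset P) (M K₀ : ℕ) (cls : P → Fin M),
  M * K₀ < T.card → ∃ y : Fin (K₀ + 1) → P, Function.Injective y ∧ (∀ a, y a ∈ T) ∧
    ∀ a, cls (y a) = cls (y 0)

/-- LAR (40 lines). A set covered by classes with relations is small.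
PROOF. The classes `T.filter (· ∈ A ∧ cls = l)`; one of them, `T'`, has `|A| ≤ n₁ |T'|`
(`n₁ > 0` if `A` is not empty). If `|T| ≤ 2 |A|` then `|T| ≤ 2 n₁ |T'| ≤ L |T'|`, but `DepW e T'`. If `A` is
empty the claim holds since `T` is not empty. -/
def LarStmt : Prop := ∀ (m k e n₁ : ℕ) (L : ℝ) (T A : Finset (Fin (m + k) → ℤ))
  (cls : (Fin (m + k) → ℤ) → Fin n₁), T.Nonempty → A ⊆ T → Rob e L T → 2 * (n₁ : ℝ) ≤ L →
  (∀ l, DepW e (A.filter fun x => cls x = l)) → 2 * A.card < T.card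

/-- The conclusion of TAS: the equation of `F` on a chart and the smallness of the set `T_A`. -/
def TasConcl : Prop := ∀ (p : ℕ) [Fact p.Prime] (n k : ℕ) (D : ℕ → ℕ)
  (F : MvPowerSeries (Fin (n + 1 + k)) ℤ_[p]) (θ : ℝ), 0 < θ → ∃ (e : ℕ) (C : ℝ), 1 ≤ C ∧
  ∀ s : (j : ℕ) → (Fin (n + 1 + 1) → Fin (D j + 1)) → ℤ, (∀ j < k, ∃ α, ¬ (p : ℤ) ∣ s j α) →
  ∃ (ψ : MvPowerSeries (Fin (n + 1)) ℤ_[p] →ₐ[ℤ_[p]] MvPowerSeries (Fin (n + 1 + k)) ℤ_[p])
    (χ : (MvPowerSeries (Fin (n + 1)) ℤ_[p])[X]) (j₀ : ℕ), (∀ j < j₀, χ.coeff j = 0) ∧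
    (∀ (O : Type) [CommRing O] (Φ : MvPowerSeries (Fin (n + 1 + k)) ℤ_[p] →+* O),
      Rels D (fun j α => (s j α : O)) k (fun i => Φ (MvPowerSeries.X i)) →
      χ.eval₂ (Φ.comp
        (ψ : MvPowerSeries (Fin (n + 1)) ℤ_[p] →+* MvPowerSeries (Fin (n + 1 + k)) ℤ_[p]))
        (Φ F) = 0) ∧
    ∀ (X : ℕ), 1 ≤ X → ∀ T : Finset (Fin (n + 1 + k) → ℤ), T.Nonempty →
      (∀ x ∈ T, ∀ i, |x i| ≤ X ∧ (p : ℤ) ∣ x i) → (∀ x ∈ T, Rels D s k x) →
      Rob e (C * (X : ℝ) ^ θ) T →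
      ∀ (Φ : (Fin (n + 1 + k) → ℤ) → (MvPowerSeries (Fin (n + 1 + k)) ℤ_[p] →ₐ[ℤ_[p]] ℤ_[p])),
      (∀ x ∈ T, ∀ i, Φ x (MvPowerSeries.X i) = x i) →
      ∃ A ⊆ T, 2 * A.card < T.card ∧ ∀ x ∈ T, Φ x (ψ (χ.coeff j₀)) = 0 → x ∈ A

/-- TAS (STRONG, 250 lines). Smallness of `T_A`.
PROOF. The classes modulo `p`: `s₀` runs over the finitely many families
`(j : Fin k) → (Fin (n + 2) → Fin (D j + 1)) → Fin p` (extended by `0` for `j ≥ k`) with a coefficient not
divisible by `p` for every `j < k`. For every such class CHX gives `n₀`, `K`, and DMM for `n`, `n₀`,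
`K`, `θ` gives `D'`, `B'`. Let `e` be the maximum of the `(n + 1) D'` and `C` the maximum of `1` and the
`2 |B'|`. Given `s` let `s₀` be its class (`Int.emod`, or any `s₀ = s j α % p`); CHX gives `ψ`, `b`, `χ`.
`j₀` = the smallest `j` with `χ.coeff j ≠ 0` (`χ` is monic, hence not zero), `a = χ.coeff j₀`, which
satisfies `Dom K a`. Given `X`, `T`, `Φ`: for `x ∈ T` let `ϕ x = (Φ x).comp ψ`,
`ϕ x (X i) = Φ x (yv D k X i) = yv D k (fun i => (x i : ℤ_p)) i` (JTR), which is divisible by `p`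
(induction on `k`: all `x i` are and the exponents `(D k + 1) ^ (i + 1)` are positive): `= p * v x i`.
The relations hold for `Φ x`: `Rels D (fun j α => (s j α : ℤ_p)) k (fun i => (x i : ℤ_p))`, the image
of `Rels D s k x` under `ℤ → ℤ_p` (`yv`, `gv` commute with ring homomorphisms; TRL can be used). Let
`A = T.filter (ϕ x a = 0)` and apply DMM with `P = (Fin (n + 1 + k) → ℤ)`, `A` in place of `T`,
`w x = wv x`, `ϕ`, `v`, `b x l = Φ x (b l)`: for the exponents `α` the power series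
`f = ∏ i, X ⟨k + i, _⟩ ^ α i` has `Φ x f = ∏ (wv x i) ^ α i`, and CHX gives `c` with
`Φ x f = ∑ l, ϕ x (c l) * Φ x (b l)`. So there are `n₁ ≤ B' X ^ θ` and classes `cls` with relations; by
GVP `DepW ((n + 1) D') (A.filter (cls x = l))`. Use LAR with `L = C X ^ θ` (`DepW` is monotone in
the degree). -/
def TasStmt : Prop := ChxConcl → DmmConcl → JtrStmt → TrlStmt → GvpStmt → LarStmt → TasConcl

/-- The conclusion of STP: the counting theorem on a chart. -/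
def StpConcl : Prop := ∀ (p : ℕ) [Fact p.Prime] (m k E K₀ : ℕ), 1 ≤ m →
  ∀ (F : MvPowerSeries (Fin (m + k)) ℤ_[p]) (θ : ℝ), 0 < θ → ∃ (e : ℕ) (C : ℝ), 1 ≤ C ∧
  ∀ (X : ℕ), 1 ≤ X → ∀ (T : Finset (Fin (m + k) → ℤ)) (G : Fin k → (MvPolynomial (Fin m) ℤ)[X]),
    T.Nonempty → (∀ x ∈ T, ∀ i, |x i| ≤ X ∧ (p : ℤ) ∣ x i) → (∀ x ∈ T, EvZ F x) →
    Chart E T G → Rob e (C * (X : ℝ) ^ θ) T → ArcConcl F K₀ T

/-- STP (STRONG, 250 lines). The counting theorem on a chart.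
PROOF. `m = n + 1`. `D` from TOX (`m`, `k`, `E`), `δ` from TRL (`D`, `m`, `k`), `D'` from
`H.HsxStmt` (`m`, `k`, `E`), `e₁`, `C₁` from TAS (`D`, `F`, `θ`). Let `e = max 1 (max e₁ (D' δ))` and
`C = max C₁ (8 (k + 1) (K₀ + 1) (E ^ k + 1))`. `Rob e (C X ^ θ) T` implies `Rob e₁ (C₁ X ^ θ) T`. `T` has more
than `C` elements: `DepW 1 {x}` holds for one point `x` (`X 0 - C (wv x 0)`, `m ≥ 1`), so
`¬ |T| ≤ C X ^ θ * 1`. Let `s` be from TOX, `ψ`, `χ`, `j₀` from TAS, `Φ x` from `EvZ F x` (`choose`;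
`Φ x F = 0`), `A` from TAS, `ξ`, `cls` from HSX, `q j`, `j < k`, from TRL for `s`: they vanish on `T`, so
HSX gives `ρ j`, and `Z j = T.filter (eval (wv x) (ρ j) = 0)` has `DepW e (Z j)`, hence
`C |Z j| < |T|`, `∑ |Z j| ≤ |T| / 8`. `T' = T \ (A ∪ ⋃ Z j)` has `|T'| > |T| / 4 > (K₀ + 1) (E ^ k + 1)`. For
`x ∈ T'`: all `aeval (ξ x) (q j) = 0`, so `Rels D (s) k (ξ x)` over `PowerSeries ℤ_p` (TRL). Let `Ψ` be the
evaluation at `ξ x` (EVP; the constant coefficients are the `x i`, divisible by `p`);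
`χ.eval₂ (Ψ.comp ψ) (Ψ F) = 0`. `constantCoeff ∘ Ψ = Φ x` (EVU), so `ε = constantCoeff` satisfies
`ε (Ψ F) = Φ x F = 0` and `ε (Ψ (ψ (χ.coeff j₀))) = Φ x (ψ (χ.coeff j₀)) ≠ 0` (`x ∉ A`): CAL gives
`Ψ F = 0`. PIG for `T'`, `M = E ^ k + 1`, gives `y`. The arc of `ArcConcl` is `ξ (y 0)`; if
`aeval (ξ (y 0)) q = 0` then `aeval (ξ (y a)) q = 0` (HSX, `cls (y 0) = cls (y a)`), and the constant
coefficient of this is `eval (y a) q` in `ℤ_p`, so `eval (y a) q = 0`. -/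
def StpStmt : Prop := ToxConcl → TrlStmt → H.HsxStmt → TasConcl → EvpStmt → EvuStmt → CalStmt →
  PigStmt → StpConcl

/-- PPW (150 lines). The counting theorem.
PROOF. Let `θ` be from `R2.SchConcl` for `σ`, `ε`. For `m ≥ 1` with `m ≤ card σ`, `k = card σ - m`, and
every `φ : Fin (m + k) ≃ σ` let `F_φ = MvPowerSeries.rename φ.symm F`
(`MvPowerSeries.renameEquiv ℤ_[p] φ.symm F`), and let `e m E`, `C m E` be the maxima over the finitely
many `φ` of the numbers of STP for `m`, `k`, `E`, `K₀`, `F_φ`, `θ` (`1` in all other cases). SCH gives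
`B`. For `X`, `S` as in the theorem it gives `m`, `k`, `E`, `φ`, `T`, `G` (`k = card σ - m` because of
`φ`). The points of `T` have coordinates of size at most `X` divisible by `p`, and `EvZ F_φ x` for
`x ∈ T`: compose the evaluation at `x ∘ φ.symm` with the isomorphism
`MvPowerSeries (Fin (m + k)) ℤ_p ≃ MvPowerSeries σ ℤ_p` of `φ` (it maps `X i` to `X (φ i)` and `F_φ` to
`F`). `Rob` is monotone in `e` and `L`. STP gives `ArcConcl F_φ K₀ T`; transport it back: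
`y a ∘ φ.symm`, `ξ ∘ φ.symm`, `Φ ∘ (renameEquiv φ.symm)`, and for `q` in `MvPolynomial σ ℤ` use
`MvPolynomial.rename φ.symm q` (`aeval_rename`, `eval_rename`). -/
def PpwRowStmt : Prop := R2.SchConcl → StpConcl → PpwStmt

/-- TRA (60 lines). The form of `Defs.lean`.
PROOF. `X` real: use PPW with the natural number `⌊X⌋₊` (integers of absolute value at most `X`),
`⌊X⌋₊ ≥ 1`, `(⌊X⌋₊ : ℝ) ^ ε ≤ X ^ ε` (take `|B|` in place of `B`; if `B X ^ ε` bounds, so does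
`|B| X ^ ε`). `VanZ p F (fun i => (x i : ℤ_p))` is `EvZ F x`; `VanT p F ξ` is the part with `Φ`; `AlgT` and
`AlgArc` are the same (`eval₂RingHom PowerSeries.C PowerSeries.X` is the ring homomorphism
`Polynomial.coeToPowerSeries.ringHom`: they agree on `C a` and on `X`). `K₀ = 0` is included:
`x₀ = y 0`, `z = y ∘ Fin.castSucc`. -/
def TraStmt : Prop := PpwStmt → PpwConcl

end Pool.Agent.LRG
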