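import Mathlib
import Pool.Agent.LRG.Defs

/-!
# Squad LRG (Theorem R), BLOCK D: fields of bounded regulator (author helper7)

GOAL of the block: `RegConcl` (row SHU) and `OneConcl` (row FEW) of `Pool/Agent/LRG/Defs.lean`.

Rows BLK PKB SPN: lattices in `ℝ ^ r` (pure geometry of numbers, no number fields).
Rows BAS CNJ IMR SHU: units of one number field. Rows POL GNU FEW: counting the fields generated by
a unit with small conjugates. All rows can be started at once, the rows in the column `uses` are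
hypotheses. `‖·‖` on `ι → ℝ` is the sup norm.

DELIVER: `Pool/Agent/HelperNN_LRG/XXX.lean`, import `Pool.Agent.LRG.StmtsD`, namespace
`Pool.Agent.LRG.HNN`, `theorem xxx (hypotheses = rows in uses, in this order) : D.XxxStmt`
(for SHU and FEW: `: RegConcl`, `: OneConcl`).
-/

set_option autoImplicit false

open NumberField NumberField.Units NumberField.Units.dirichletUnitTheorem Module

namespace Pool.Agent.LRG.D

/-! ## Lattices -/

/-- **Row BLK** (Blichfeldt's count, no hypotheses, about 100 lines). A lattice of covolume `V` in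
`ℝ ^ r` has finitely many and at least `H ^ r / V` points of sup norm at most `H`.

PROOF. Finiteness: `L ∩ closedBall 0 H` is a discrete closed subset of a compact set
(`Metric.finite_isBounded_inter_isClosed` with `DiscreteTopology L`, see how Mathlib uses it in
`Mathlib/Algebra/Module/ZLattice/Basic.lean`). Let `F` be the fundamental domain of `L` given by a
`ℤ`-basis (`ZSpan.fundamentalDomain`, `ZLattice.isAddFundamentalDomain`); then
`covolume L = volume.real F` (`ZLattice.covolume_eq_measure_fundamentalDomain`). Let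
`Q = Set.univ.pi fun _ => Set.Ico 0 H`, `volume Q = ofReal H ^ r` (`Real.volume_pi_Ico`). By
`IsAddFundamentalDomain.measure_eq_tsum` (or `lintegral_eq_tsum`) `volume Q` is the sum over
`l ∈ L` of `volume ((l +ᵥ Q) ∩ F)`, i.e. the integral over `z ∈ F` of the number `N(z)` of the
`l ∈ L` with `z ∈ l +ᵥ Q`. If `l, l₀` are two of these, then `l - l₀ = (z - l₀) - (z - l)` is a
difference of two points of `Q`, so `‖l - l₀‖ ≤ H`; hence `N(z) ≤ M`, the number of the points of
`L` of norm at most `H`. So `H ^ r ≤ M * covolume L`.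
(An alternative without the integral: all `N(z) < k + 1` with `k = M`; the map
`MeasureTheory.exists_pair_mem_lattice_not_disjoint_vadd` is the case `k = 1`.)
If `r = 0` the inequality is `1 ≤ 1 * 1`; the proof above covers it. -/
def BlkStmt : Prop :=
  ∀ (ι : Type) [Fintype ι] (L : Submodule ℤ (ι → ℝ)) [DiscreteTopology L] [IsZLattice ℝ L]
    (H : ℝ), 0 < H →
    {x : ι → ℝ | x ∈ L ∧ ‖x‖ ≤ H}.Finite ∧
    H ^ Fintype.card ι ≤
      ({x : ι → ℝ | x ∈ L ∧ ‖x‖ ≤ H}.ncard : ℝ) * ZLattice.covolume L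

/-- **Row PKB** (packing in a proper subspace, no hypotheses, about 120 lines). Points of norm
`≤ H` in a proper subspace of `ℝ ^ r` with mutual distances `≥ lam` are at most
`(4 r H / lam + 3) ^ (r - 1)` many.

PROOF. A proper subspace is contained in the kernel of a nonzero linear form
`φ x = ∑ i, a i * x i` (`Submodule.exists_le_ker_of_lt_top`; `a i = φ (Pi.single i 1)`); let `|a i₀|`
be maximal, so `a i₀ ≠ 0` and `r ≥ 1`. For `x ∈ W`: `x i₀ = - ∑_{i ≠ i₀} (a i / a i₀) x i`, so
`|x i₀| ≤ r * m` if `|x i| ≤ m` for all `i ≠ i₀`; as `r ≥ 1`, `‖x‖ ≤ r * m` (`m ≥ 0`). Put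
`f x : {i // i ≠ i₀} → ℤ`, `f x i = ⌊x i * (2 r / lam)⌋`. If `f x = f y` for two points of `S`, then
`|x i - y i| < lam / (2 r)` for all `i ≠ i₀` (`Int.abs_sub_lt_one_of_floor_eq_floor`) and
`x - y ∈ W`, so `‖x - y‖ ≤ lam / 2 < lam`, hence `x = y`. All values `f x i` lie in
`[-k - 1, k]`, `k = ⌊2 r H / lam⌋` resp. `⌈ ⌉`, an interval with at most `4 r H / lam + 3` integers;
the number of functions is at most the power `r - 1` of it (`Fintype.piFinset`,
`Finset.card_le_card_of_injOn`, `Fintype.card {i // i ≠ i₀} = r - 1`). -/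
def PkbStmt : Prop :=
  ∀ (ι : Type) [Fintype ι] (W : Submodule ℝ (ι → ℝ)) (S : Finset (ι → ℝ)) (H lam : ℝ),
    W ≠ ⊤ → 0 < H → 0 < lam → (∀ x ∈ S, x ∈ W ∧ ‖x‖ ≤ H) →
    (∀ x ∈ S, ∀ y ∈ S, x ≠ y → lam ≤ ‖x - y‖) →
    (S.card : ℝ) ≤
      (4 * Fintype.card ι * H / lam + 3) ^ (Fintype.card ι - 1)

/-- The constant of row SPN. -/
noncomputable def cSpn (r : ℕ) (δ : ℝ) : ℝ := (4 * r / δ + 3) ^ (r - 1) + 1

/-- **Row SPN** (uses BLK, PKB; about 60 lines). A lattice of covolume at most `T` in `ℝ ^ r`,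
`r ≥ 1`, without nonzero vectors shorter than `δ T ^ (1/r)` is spanned over `ℝ` by its vectors of
norm `≤ C T ^ (1/r)`, `C = cSpn r δ`.

PROOF. Let `t = T ^ (1/r) > 0`, `H = C t`, `lam = δ t`, `S` = the (finite) set of the points of `L`
of norm `≤ H`, `W = span ℝ S`. Suppose `W ≠ ⊤`. BLK: `H ^ r ≤ #S * T`. PKB (differences of points
of `L` are in `L`): `#S ≤ (4 r H / lam + 3) ^ (r - 1) = (4 r C / δ + 3) ^ (r - 1) ≤
(C (4 r / δ + 3)) ^ (r - 1)` because `C ≥ 1`. As `H ^ r = C ^ r T` (`Real.rpow_natCast`,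
`Real.rpow_mul`, `T > 0`) we get `C ^ r ≤ C ^ (r - 1) (4 r / δ + 3) ^ (r - 1)`, so
`C ≤ (4 r / δ + 3) ^ (r - 1)`, contradiction. -/
def SpnStmt : Prop :=
  ∀ (ι : Type) [Fintype ι] (L : Submodule ℤ (ι → ℝ)) [DiscreteTopology L] [IsZLattice ℝ L]
    (T δ : ℝ), 0 < Fintype.card ι → 0 < T → 0 < δ → ZLattice.covolume L ≤ T →
    (∀ x ∈ L, x ≠ 0 → δ * T ^ (1 / (Fintype.card ι : ℝ)) ≤ ‖x‖) →
    Submodule.span ℝ {x : ι → ℝ | x ∈ L ∧
      ‖x‖ ≤ cSpn (Fintype.card ι) δ * T ^ (1 / (Fintype.card ι : ℝ))} = ⊤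

/-! ## Units of one number field -/

/-- **Row BAS** (no hypotheses, about 50 lines). If the vectors of the unit lattice of sup norm at
most `H` span the logarithmic space, then there is a family of units of maximal rank with
`‖logEmbedding u‖ ≤ H`. (The norm condition is written with components, so that no `Fintype`
instance on `{w // w ≠ w₀}` is needed; use `classical` in your proof.)

PROOF. Extract from the spanning set an `ℝ`-basis consisting of elements of the set
(`exists_linearIndependent`, or `Submodule.exists_fun_fin_finrank_span_eq`); its cardinality is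
`finrank ℝ (logSpace K) = rank K` (`NumberField.Units.finrank_eq_rank`); index it by
`Fin (rank K)`; every element of `unitLattice K` is `logEmbedding K (Additive.ofMul u)` for a unit
(definition of `unitLattice` as the image of `⊤`). -/
def BasStmt : Prop :=
  ∀ (K : Type) [Field K] [NumberField K] (H : ℝ),
    Submodule.span ℝ {x : logSpace K | x ∈ unitLattice K ∧ ∀ w, |x w| ≤ H} = ⊤ →
    ∃ u : Fin (rank K) → (𝓞 K)ˣ, IsMaxRank u ∧
      ∀ i w, |logEmbedding K (Additive.ofMul (u i)) w| ≤ H

/-- **Row CNJ** (no hypotheses, about 40 lines). `‖logEmbedding u‖ ≤ H` (written with components)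
bounds all conjugates of `u` by `exp (n H)`.

PROOF. `log_le_of_logEmbedding_le` gives `|log (w u)| ≤ card (InfinitePlace K) * H ≤ n H` for every
infinite place (`card (InfinitePlace K) ≤ n`: `InfinitePlace.card_eq_nrRealPlaces_add_nrComplexPlaces`
and `InfinitePlace.card_add_two_mul_card_eq_rank`). For `σ : K →+* ℂ` take
`w = InfinitePlace.mk σ`: `w u = ‖σ u‖` (`InfinitePlace.apply`), `w u > 0`, so
`‖σ u‖ ≤ exp (n H)`. -/
def CnjStmt : Prop :=
  ∀ (K : Type) [Field K] [NumberField K] (u : (𝓞 K)ˣ) (H : ℝ), 0 ≤ H →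
    (∀ w, |logEmbedding K (Additive.ofMul u) w| ≤ H) →
    ∀ σ : K →+* ℂ, ‖σ ((u : 𝓞 K) : K)‖ ≤ Real.exp (finrank ℚ K * H)

/-- **Row IMR** (no hypotheses, about 50 lines). A family of maximal rank is multiplicatively
independent; a unit which is not a root of unity is an independent family with one member, and so is
each member of an independent family.

PROOF. (1) If `∏ u i ^ c i = 1`, apply `logEmbedding`: `∑ c i • logEmbedding (u i) = 0`, so
`c = 0` by linear independence over `ℝ` (cast `ℤ → ℝ`). (2) `u ^ c = 1` with `c ≠ 0` makes `u` a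
torsion element (`CommGroup.mem_torsion`, `isOfFinOrder_iff_zpow_eq_one`). (3) take
`c = Pi.single i k`. -/
def ImrStmt : Prop :=
  (∀ (K : Type) [Field K] [NumberField K] (u : Fin (rank K) → (𝓞 K)ˣ), IsMaxRank u → Indep u) ∧
  (∀ (K : Type) [Field K] [NumberField K] (u : (𝓞 K)ˣ), u ∉ torsion K →
    Indep (fun _ : Fin 1 => u)) ∧
  ∀ (K : Type) [Field K] [NumberField K] (r : ℕ) (u : Fin r → (𝓞 K)ˣ) (i : Fin r), Indep u →
    Indep (fun _ : Fin 1 => u i)

/-- **Row SHU** proves `RegConcl` (uses SPN, BAS, CNJ, IMR; about 80 lines): a field of rank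
`r ≥ 1` and regulator `≤ T` has a non torsion unit with all conjugates `≤ exp (δ T ^ (1/r))` or `r`
independent units with all conjugates `≤ exp (H T ^ (1/r))`, `H = n * cSpn r (δ / n)`.

PROOF. `rank K = r` is `subst`ed. Let `δ' = δ / n`. `Fintype.card {w // w ≠ w₀} = rank K` (as in the
proof of `NumberField.Units.finrank_eq_rank`); `regulator K = ZLattice.covolume (unitLattice K)` by
definition (with the classical `Fintype` instance; work inside `classical`, `Subsingleton.elim` for
the instance if needed). If some nonzero `x ∈ unitLattice K` has `‖x‖ < δ' T ^ (1/r)`, then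
`x = logEmbedding u`, `u ∉ torsion K` (`logEmbedding_eq_zero_iff`), all components are bounded
(`norm_le_pi_norm`), and CNJ and IMR give the first alternative (`n δ' = δ`). Otherwise SPN, BAS,
CNJ and IMR give the second one (`pi_norm_le_iff_of_nonneg` to pass from `‖x‖` to components). -/
def ShuStmt : Prop := RegConcl

/-! ## Fields generated by a unit with small conjugates -/

/-- The algebraic integers of degree `n` in `ℂ` with all conjugates at most `X`. -/
def AlgInt (n : ℕ) (X : ℝ) : Set ℂ :=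
  {x | IsIntegral ℤ x ∧ (minpoly ℚ x).natDegree = n ∧
    ∀ z : ℂ, Polynomial.aeval z (minpoly ℚ x) = 0 → ‖z‖ ≤ X}

/-- **Row POL** (no hypotheses, about 100 lines). There are finitely many and at most
`n (2 ^ (n + 2) X ^ n) ^ n` algebraic integers of degree `n` with all conjugates `≤ X`, `X ≥ 1`.

PROOF. For such an `x` let `P = minpoly ℤ x`, monic of degree `n`, with
`P.map = minpoly ℚ x` (`minpoly.isIntegrallyClosed_eq_field_fractions'`). The roots of `P` in `ℂ`
have absolute value `≤ X`, the coefficients are elementary symmetric functions: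
`|P.coeff i| ≤ X ^ (n - i) * n.choose i ≤ 2 ^ n X ^ n` (`Polynomial.coeff_le_of_roots_le`; see
`NumberField.Embeddings.coeff_bdd_of_norm_le` for the same argument). The polynomial is determined
by its coefficients `0, …, n - 1`, integers in `[-B, B]`, `B = ⌊2 ^ n X ^ n⌋`, so there are at most
`(2 B + 1) ^ n ≤ (2 ^ (n + 2) X ^ n) ^ n` polynomials, each with at most `n` complex roots.
(`Set.Finite.biUnion`, `Finset.card_biUnion_le_card_mul`, the union over
`c ∈ Fintype.piFinset fun _ : Fin n => Finset.Icc (-B) B` of the roots of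
`X ^ n + ∑ i : Fin n, c i X ^ i`.) -/
def PolStmt : Prop :=
  ∀ (n : ℕ) (X : ℝ), 1 ≤ n → 1 ≤ X →
    (AlgInt n X).Finite ∧ ((AlgInt n X).ncard : ℝ) ≤ n * (2 ^ (n + 2) * X ^ n) ^ n

/-- **Row GNU** (no hypotheses, about 80 lines). A non torsion unit `u` (`Indep` with one member) of
a primitive subfield `K` of `ℂ` of degree `n ≥ 2` generates `K`; if its conjugates are `≤ X` it is
in `AlgInt n X`.

PROOF. `E = ℚ⟮(u : K)⟯ ⊆ K` is `⊥` or `⊤`. If `E = ⊥` then `u` is rational
(`IntermediateField.adjoin_simple_eq_bot_iff`) and integral, with integral inverse, so `u = ± 1` and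
`u ^ 2 = 1`, contradiction to `Indep`. So `E = ⊤`. Let `x = ((u : K) : ℂ)`, i.e. `x = K.val u`. Then
`ℚ⟮x⟯ = E.map K.val = K` (`IntermediateField.adjoin_map`, `IntermediateField.lift_top` or
`fieldRange_val`), `minpoly ℚ x = minpoly ℚ (u : K)` (`minpoly.algHom_eq`) has degree
`finrank ℚ K = n`, its complex roots are the `σ u` (`NumberField.Embeddings.range_eval_eq_rootSet_minpoly`).
Integrality of `x` over `ℤ` from the ring of integers. -/
def GnuStmt : Prop :=
  ∀ (n : ℕ) (K : IntermediateField ℚ ℂ) [NumberField K] (u : Fin 1 → (𝓞 K)ˣ) (X : ℝ), 2 ≤ n →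
    finrank ℚ K = n → Primitive K → Indep u → Bdd u X →
    IntermediateField.adjoin ℚ {(((u 0 : 𝓞 K) : K) : ℂ)} = K ∧
    (((u 0 : 𝓞 K) : K) : ℂ) ∈ AlgInt n X

/-- **Row FEW** proves `OneConcl` (uses POL, GNU; about 50 lines).

PROOF. GNU gives for every `K ∈ OneFlds n X` an `x ∈ AlgInt n X` with `ℚ⟮x⟯ = K`; so `OneFlds n X`
is contained in the image of `AlgInt n X` under `x ↦ ℚ⟮x⟯`: finite, `ncard ≤` by
`Set.ncard_image_le`, `Set.ncard_le_ncard`. With POL the number is at most
`n 2 ^ (n (n + 2)) X ^ (n ^ 2) ≤ C X ^ C`, `C = max (n 2 ^ (n (n + 2))) (n ^ 2)`, `X ≥ 1`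
(`Real.rpow_natCast`, `Real.rpow_le_rpow_of_exponent_le`). -/
def FewStmt : Prop := OneConcl

end Pool.Agent.LRG.D
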