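import Pool.Agent.LRG.DefsR

/-!
# LRG, block R: selection of robust sets, etale coordinates, dimension

All notions are those of `Pool/Agent/LRG/DefsR.lean`; no fields, no `p`-adic numbers: finite sets of
integer points and integer polynomials only.  Every `...Statement : Prop` is a row of the table `lrg`.
New coordinates are put in FRONT: `Fin.cons l c : Fin (m+1) → Fin N`, because Mathlib's
`MvPolynomial.finSuccEquiv ℤ m : MvPolynomial (Fin (m+1)) ℤ ≃ₐ[ℤ] Polynomial (MvPolynomial (Fin m) ℤ)`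
separates the variable `0` (`MvPolynomial.eval_eq_eval_mv_eval'`, `natDegree_finSuccEquiv`,
`totalDegree_coeff_finSuccEquiv_add_le`).

ROWS: `RBM DER ETA SNO VAL TRM LOP CST SEL` (selection), `PWR MON EXB RLN DPM` (dimension).
The transport to the language of `DefsB` (`SCH RLF REL`) is in `StmtsR2.lean`.

DELIVER: `Pool/Agent/HelperNN_LRG/XXX.lean`, import `Pool.Agent.LRG.StmtsR`, namespace
`Pool.Agent.LRG.HNN`, theorem `xxx`; rows which are hypotheses are already written in the statement.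
-/

noncomputable section

open Finset

namespace Pool.Agent.LRG.R

/-! ### small proved facts -/

theorem Dep.mono {N m : ℕ} {c : Fin m → Fin N} {E E' : ℕ} {S S' : Finset (Fin N → ℤ)}
    (h : Dep c E S) (hE : E ≤ E') (hS : S' ⊆ S) : Dep c E' S' := by
  obtain ⟨g, h0, hd, hz⟩ := h
  exact ⟨g, h0, hd.trans hE, fun x hx => hz x (hS hx)⟩

theorem Etl.mono {N m : ℕ} {c : Fin m → Fin N} {E : ℕ} {T T' : Finset (Fin N → ℤ)} {l : Fin N}
    {g : Polynomial (MvPolynomial (Fin m) ℤ)} (h : Etl c E T l g) (hT : T' ⊆ T) :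
    Etl c E T' l g :=
  ⟨h.bdd, fun x hx => h.zero x (hT hx), fun x hx => h.der x (hT hx), fun x hx => h.lead x (hT hx)⟩

theorem ev2_int {m : ℕ} (g : Polynomial (MvPolynomial (Fin m) ℤ)) (w : Fin m → ℤ) (y : ℤ) :
    ev2 g w y = (g.map (MvPolynomial.eval w)).eval y := by
  unfold ev2
  rw [Polynomial.eval_map]
  rfl

theorem ev2_sum {m : ℕ} {O : Type} [CommRing O] (g : Polynomial (MvPolynomial (Fin m) ℤ))
    (w : Fin m → O) (y : O) :
    ev2 g w y = ∑ i ∈ range (g.natDegree + 1), ev1 (g.coeff i) w * y ^ i := by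
  unfold ev2 ev1
  rw [Polynomial.eval₂_eq_sum_range]
  rfl

theorem ev1_int {κ : Type} (q : MvPolynomial κ ℤ) (w : κ → ℤ) : ev1 q w = MvPolynomial.eval w q :=
  rfl

/-! ## Selection (B1, B2) -/

/-- RBM.  (1) a robust set is not empty (take `S' = ∅`: `Dep c E ∅` holds with `g = 1`);
(2) monotonicity: if `|S| ≤ L₁ |S₁|` and `L₁ L₂ ≤ L` then robustness passes from `(S, E, L)` to
`(S₁, E', L₂)`, `E' ≤ E`: for `S' ⊆ S₁` with `|S₁| ≤ L₂ |S'|` one has `|S| ≤ L₁ L₂ |S'| ≤ L |S'|`. -/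
def RbmStatement : Prop :=
  (∀ (N m : ℕ) (c : Fin m → Fin N) (E : ℕ) (L : ℝ) (S : Finset (Fin N → ℤ)),
    Rob c E L S → S.Nonempty) ∧
  (∀ (N m : ℕ) (c : Fin m → Fin N) (E E' : ℕ) (L L₁ L₂ : ℝ) (S S₁ : Finset (Fin N → ℤ)),
    Rob c E L S → E' ≤ E → 0 ≤ L₁ → L₁ * L₂ ≤ L → S₁ ⊆ S → (S.card : ℝ) ≤ L₁ * (S₁.card : ℝ) →
    Rob c E' L₂ S₁)

/-- DER.  One coordinate.  Induction on `d = natDegree g` with `2^(d+1)` in place of `2^(E+1)`
(generalize over `S`, `g`; the hypothesis is `Rob c E (2^(d+1)) S`, the conclusion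
`|S| ≤ 2^(d+1) |S'|`; at the end use `d ≤ E` and RBM-type monotonicity in `L`):
`d = 0`: `g = C a`, `a ≠ 0` of total degree `≤ E` vanishes at all `w(x)`: `Dep c E S`, excluded by
robustness.  `d ≥ 1`: let `A = {x ∈ S : g'(w, x_l) = 0}`.  If `|S| ≤ 2 |A|`, apply the induction
hypothesis to `A` and `g'` (`g' ≠ 0` since `ℤ[W]` has characteristic zero, `natDegree g' = d - 1`,
`DegB E g'`; robustness of `A` for `2^d`).  Otherwise `S₁ = S \ A` has `|S| ≤ 2 |S₁|`; let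
`Z = {x ∈ S₁ : lc(g)(w) = 0}`; `Dep c E Z`, so `|S₁| > 2 |Z|` (otherwise `|S| ≤ 4 |Z| ≤ 2^(d+1) |Z|`)
and `S' = S₁ \ Z` has `|S| ≤ 4 |S'|`. -/
def DerStatement : Prop :=
  ∀ (N m : ℕ) (c : Fin m → Fin N) (E : ℕ) (l : Fin N) (S : Finset (Fin N → ℤ))
    (g : Polynomial (MvPolynomial (Fin m) ℤ)), g ≠ 0 → DegB E g →
    (∀ x ∈ S, ev2 g (fun i => x (c i)) (x l) = 0) → Rob c E (2 ^ (E + 1)) S →
    ∃ S' ⊆ S, ∃ g' : Polynomial (MvPolynomial (Fin m) ℤ),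
      (S.card : ℝ) ≤ 2 ^ (E + 1) * (S'.card : ℝ) ∧ Etl c E S' l g'

/-- ETA.  All coordinates: iterate DER over `l`.  For `J : Finset (Fin N)` by induction there is
`T ⊆ S` with `|S| ≤ (2^(E+1))^|J| |T|` and an `Etl` polynomial on `T` for every `l ∈ J`
(`Etl.mono`, RBM).  `T ≠ ∅` because `S ≠ ∅` (RBM (1)) and `|S| ≤ .. |T|`. -/
def EtaStatement : Prop := RbmStatement → DerStatement →
  ∀ (N m : ℕ) (c : Fin m → Fin N) (E : ℕ) (S : Finset (Fin N → ℤ)),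
    (∀ l : Fin N, ∃ g : Polynomial (MvPolynomial (Fin m) ℤ), g ≠ 0 ∧ DegB E g ∧
      ∀ x ∈ S, ev2 g (fun i => x (c i)) (x l) = 0) →
    Rob c E (2 ^ ((E + 1) * N)) S →
    ∃ T ⊆ S, (S.card : ℝ) ≤ 2 ^ ((E + 1) * N) * (T.card : ℝ) ∧ T.Nonempty ∧ Etale c E T

/-- SNO.  A relation between `x_l` and `w` as a polynomial in `Y` over `ℤ[W]`
(`MvPolynomial.finSuccEquiv`, see the header). -/
def SnoStatement : Prop :=
  ∀ (N m : ℕ) (c : Fin m → Fin N) (E : ℕ) (l : Fin N) (S : Finset (Fin N → ℤ)),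
    Dep (Fin.cons l c : Fin (m + 1) → Fin N) E S →
    ∃ g : Polynomial (MvPolynomial (Fin m) ℤ), g ≠ 0 ∧ DegB E g ∧
      ∀ x ∈ S, ev2 g (fun i => x (c i)) (x l) = 0

/-- VAL.  Start of the loop: if every single coordinate is `E`-dependent on `S` it takes at most `E`
values on `S` (roots of a nonzero polynomial of degree `≤ E` over `MvPolynomial (Fin 0) ℤ`, a domain;
use SNO with `m = 0`), so `|S| ≤ E^N` (`S` is contained in the product of its `N` images,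
`Fintype.piFinset`, `Finset.card_le_card`). -/
def ValStatement : Prop := SnoStatement →
  ∀ (N : ℕ) (c : Fin 0 → Fin N) (E : ℕ) (S : Finset (Fin N → ℤ)),
    (∀ l : Fin N, Dep (Fin.cons l c : Fin 1 → Fin N) E S) → S.card ≤ E ^ N

/-- TRM.  End of the loop: if no further coordinate can be added then all coordinates are dependent
on a large subset.  For `J : Finset (Fin N)` by induction: `T ⊆ S` with `|S| ≤ L^|J| |T|` and
`Dep (Fin.cons l c) E T` for `l ∈ J`.  New `l`: if `l = c i` the polynomial `X_0 - X_(i+1)` (degree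
`1 ≤ E`, nonzero) works on the same `T`; otherwise `|S| ≤ L^N |T|` (`L ≥ 1`), so `T` is not robust for
`Fin.cons l c`: there is `T' ⊆ T` with `|T| ≤ L |T'|` and `Dep`. -/
def TrmStatement : Prop :=
  ∀ (N m : ℕ) (c : Fin m → Fin N) (E : ℕ) (L : ℝ) (S : Finset (Fin N → ℤ)), 1 ≤ E → 1 ≤ L →
    (∀ l : Fin N, l ∉ Set.range c → ∀ S' ⊆ S, (S.card : ℝ) ≤ L ^ N * (S'.card : ℝ) →
      ¬ Rob (Fin.cons l c : Fin (m + 1) → Fin N) E L S') →
    ∃ T ⊆ S, (S.card : ℝ) ≤ L ^ N * (T.card : ℝ) ∧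
      ∀ l : Fin N, Dep (Fin.cons l c : Fin (m + 1) → Fin N) E T

/-- the conclusion of the loop -/
def LopConcl : Prop :=
  ∀ (N : ℕ) (E : ℕ → ℕ) (L : ℕ → ℝ), (∀ m, 1 ≤ E m) → (∀ m, 1 ≤ L m) →
    ∀ S₀ : Finset (Fin N → ℤ), (E 1 : ℝ) ^ N * L 1 ^ N < (S₀.card : ℝ) →
    ∃ (m : ℕ) (c : Fin m → Fin N) (S : Finset (Fin N → ℤ)), 1 ≤ m ∧ m ≤ N ∧
      Function.Injective c ∧ S ⊆ S₀ ∧ Rob c (E m) (L m) S ∧
      ∀ l : Fin N, l ∉ Set.range c → ∀ S' ⊆ S, (S.card : ℝ) ≤ L (m + 1) ^ N * (S'.card : ℝ) →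
        ¬ Rob (Fin.cons l c : Fin (m + 1) → Fin N) (E (m + 1)) (L (m + 1)) S'

/-- the conclusion of VAL -/
def ValConcl : Prop :=
  ∀ (N : ℕ) (c : Fin 0 → Fin N) (E : ℕ) (S : Finset (Fin N → ℤ)),
    (∀ l : Fin N, Dep (Fin.cons l c : Fin 1 → Fin N) E S) → S.card ≤ E ^ N

/-- the conclusion of ETA -/
def EtaConcl : Prop :=
  ∀ (N m : ℕ) (c : Fin m → Fin N) (E : ℕ) (S : Finset (Fin N → ℤ)),
    (∀ l : Fin N, ∃ g : Polynomial (MvPolynomial (Fin m) ℤ), g ≠ 0 ∧ DegB E g ∧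
      ∀ x ∈ S, ev2 g (fun i => x (c i)) (x l) = 0) →
    Rob c E (2 ^ ((E + 1) * N)) S →
    ∃ T ⊆ S, (S.card : ℝ) ≤ 2 ^ ((E + 1) * N) * (T.card : ℝ) ∧ T.Nonempty ∧ Etale c E T

/-- LOP.  The loop.  Suppose the conclusion fails.  By induction on `m ≥ 1` there are an injective
`c : Fin m → Fin N` and `S ⊆ S₀` with `Rob c (E m) (L m) S`.  `m = 1`: otherwise the hypothesis of TRM
holds for the empty list `c₀ : Fin 0 → Fin N`, `S₀`, `E 1`, `L 1`, so there is `T ⊆ S₀`,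
`|S₀| ≤ (L 1)^N |T|`, and `|T| ≤ (E 1)^N` by VAL: contradiction.  `m → m + 1`: the negation of the
conclusion for `(m, c, S)` gives `l ∉ range c` and `S' ⊆ S` (`m ≤ N` by injectivity;
`Fin.cons_injective_iff`).  For `m = N + 1` there is no injective map. -/
def LopStatement : Prop := ValConcl → TrmStatement → LopConcl

/-- CST.  The constants.  `η_m = θ (1 + N + .. + N^(N-m))` for `m ≤ N`, `η_m = 0` for `m > N`, so
`η_m = N η_(m+1) + θ` for `m ≤ N`, and `θ = ε / (N (N+1)^(N+1) + 1)` gives `N η_1 ≤ ε`.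
`L m X = A_m X^(η_m)`; `E m = 1`, `A_m = 1` for `m > N`, and downwards for `m = N, .., 1`:
`E m = max (E (m+1)) (e m (E (m+1)))`,
`A_m = A_(m+1)^N 2^((E(m+1)+1) N) max 1 (C m (E (m+1)))`.  (Define the sequences by recursion on
`k = N + 1 - m`.)  `B = (E 1 A_1)^N + 1`.  For `N = 0` the middle part is empty and `L 1 X = 1`. -/
def CstStatement : Prop :=
  ∀ (N : ℕ) (ε : ℝ), 0 < ε → ∃ θ : ℝ, 0 < θ ∧ ∀ (e : ℕ → ℕ → ℕ) (C : ℕ → ℕ → ℝ),
    ∃ (E : ℕ → ℕ) (L : ℕ → ℝ → ℝ) (B : ℝ), 0 < B ∧ (∀ m, 1 ≤ E m) ∧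
      (∀ m X, 1 ≤ X → 1 ≤ L m X) ∧
      (∀ m, 1 ≤ m → m ≤ N → E (m + 1) ≤ E m ∧ e m (E (m + 1)) ≤ E m ∧
        ∀ X : ℝ, 1 ≤ X → L (m + 1) X ^ N * 2 ^ ((E (m + 1) + 1) * N) *
          (max 1 (C m (E (m + 1))) * X ^ θ) ≤ L m X) ∧
      ∀ X : ℝ, 1 ≤ X → (E 1 : ℝ) ^ N * L 1 X ^ N ≤ B * X ^ ε

/-- SEL (assembly; the conclusion is `SelStatement` of DefsR).  Take `θ`, `E`, `L`, `B` of CST.  For
`|PP| > B X^ε` LOP (with `L m X`) gives `m`, `c`, `S`; TRM gives `T₁ ⊆ S`, `|S| ≤ L(m+1)^N |T₁|`, all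
`Dep (Fin.cons l c) (E (m+1)) T₁`; SNO gives the polynomials, RBM (2) the robustness of `T₁` with
`2^((E(m+1)+1) N)`, ETA gives `T ⊆ T₁`; again RBM (2) with `L₁ = L(m+1)^N 2^((E(m+1)+1)N)` and
`L₂ = C m E X^θ ≤ max 1 (C m E) X^θ`.  The `E` of the conclusion is `E (m+1)`. -/
def SelRowStatement : Prop :=
  RbmStatement → EtaConcl → SnoStatement → TrmStatement → LopConcl → CstStatement →
    SelStatement

/-! ## Dimension (B3) -/

/-- PWR.  Powers of one etale coordinate, with values in every commutative ring.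
`d = natDegree g`, `λ = lc g`.  Induction on `k`, with the additional information `a_j = 0` for
`j ≥ d`: `k = 0`: `a_0 = 1`.  `λ^(k+1) y^(k+1) = λ y ∑_(j<d) a_j y^j`, and
`λ y^d = - ∑_(i<d) g_i y^i` (`ev2_sum`), so `a'_i = λ a_(i-1) - a_(d-1) g_i` (`a_(-1) = 0`), of degree
`≤ kE + E`. -/
def PwrStatement : Prop :=
  ∀ (m E : ℕ) (g : Polynomial (MvPolynomial (Fin m) ℤ)), DegB E g → 1 ≤ g.natDegree → ∀ k : ℕ,
    ∃ a : ℕ → MvPolynomial (Fin m) ℤ, (∀ j, (a j).totalDegree ≤ k * E) ∧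
      ∀ (O : Type) [CommRing O] (w : Fin m → O) (y : O), ev2 g w y = 0 →
        ev1 g.leadingCoeff w ^ k * y ^ k = ∑ j ∈ range E, ev1 (a j) w * y ^ j

/-- MON.  Monomials of the coordinates.  Multiply the identities of PWR with `k = α l`, times
`lc(g l)^(e - α l)`, over all `l`, and expand the product of the sums (`Finset.prod_univ_sum` /
`Fintype.piFinset`); total degree `≤ ∑_l ((e - α l) E + α l E) = N e E`. -/
def MonStatement : Prop := PwrStatement →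
  ∀ (N m : ℕ) (E e : ℕ) (g : Fin N → Polynomial (MvPolynomial (Fin m) ℤ)),
    (∀ l, DegB E (g l) ∧ 1 ≤ (g l).natDegree) →
    ∀ α : Fin N → ℕ, (∀ l, α l ≤ e) →
    ∃ A : (Fin N → Fin E) → MvPolynomial (Fin m) ℤ, (∀ γ, (A γ).totalDegree ≤ N * e * E) ∧
      ∀ (O : Type) [CommRing O] (w : Fin m → O) (x : Fin N → O), (∀ l, ev2 (g l) w (x l) = 0) →
        (∏ l, ev1 (g l).leadingCoeff w) ^ e * ∏ l, x l ^ α l =
          ∑ γ : Fin N → Fin E, ev1 (A γ) w * ∏ l, x l ^ (γ l : ℕ)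

/-- the conclusion of MON -/
def MonConcl : Prop :=
  ∀ (N m : ℕ) (E e : ℕ) (g : Fin N → Polynomial (MvPolynomial (Fin m) ℤ)),
    (∀ l, DegB E (g l) ∧ 1 ≤ (g l).natDegree) →
    ∀ α : Fin N → ℕ, (∀ l, α l ≤ e) →
    ∃ A : (Fin N → Fin E) → MvPolynomial (Fin m) ℤ, (∀ γ, (A γ).totalDegree ≤ N * e * E) ∧
      ∀ (O : Type) [CommRing O] (w : Fin m → O) (x : Fin N → O), (∀ l, ev2 (g l) w (x l) = 0) →
        (∏ l, ev1 (g l).leadingCoeff w) ^ e * ∏ l, x l ^ α l =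
          ∑ γ : Fin N → Fin E, ev1 (A γ) w * ∏ l, x l ^ (γ l : ℕ)

/-- EXB.  Expansion in the box of exponents `≤ n`: a polynomial of total degree `≤ n` only has
monomials with all exponents `≤ n` (`MvPolynomial.eval₂_eq'`, `le_totalDegree`;
the map `β ↦ Finsupp.equivFunOnFinite.symm (fun i => β i)` is injective and its image contains the
support). -/
def ExbStatement : Prop :=
  ∀ (m n : ℕ) (q : MvPolynomial (Fin m) ℤ), q.totalDegree ≤ n →
    ∀ (O : Type) [CommRing O] (w : Fin m → O),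
    ev1 q w = ∑ β : Fin m → Fin (n + 1),
      ((MvPolynomial.coeff (Finsupp.equivFunOnFinite.symm fun i => (β i : ℕ)) q : ℤ) : O) *
        ∏ i, w i ^ (β i : ℕ)

/-- the conclusion of RLN -/
def RlnConcl : Prop :=
  ∀ (N m : ℕ) (c : Fin m → Fin N) (E e : ℕ) (g : Fin N → Polynomial (MvPolynomial (Fin m) ℤ)),
    (∀ l, DegB E (g l) ∧ 1 ≤ (g l).natDegree) →
    ∀ (ι : Type) [Fintype ι] (f : ι → MvPolynomial (Fin N) ℤ), (∀ i, (f i).totalDegree ≤ e) →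
      E ^ N * (N * e * E + 1) ^ m < Fintype.card ι →
      ∃ k : ι → ℤ, Prim k ∧ ∀ (O : Type) [CommRing O] [IsDomain O] (x : Fin N → O),
        (∀ l, ev2 (g l) (fun i => x (c i)) (x l) = 0) →
        (∀ l, ev1 (g l).leadingCoeff (fun i => x (c i)) ≠ 0) →
        ∑ i, (k i : O) * ev1 (f i) x = 0

/-- RLN.  Linear relations.  `Λ = ∏ lc(g l)`, `n = N e E`.  By EXB (for the `f i`, exponents `≤ e`),
MON and EXB (for the `A γ`) there is an integer matrix `M` with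
`Λ(w)^e f_i(x) = ∑_(γ,β) M_(i,(γ,β)) w^β x^γ` for all `O`, `x`, `(γ,β) ∈ (Fin N → Fin E) × (Fin m →
Fin (n+1))`.  There are fewer columns than rows, so there is `k ≠ 0` in `ℤ^ι` with `k M = 0`
(`Matrix.exists_mulVec_eq_zero_iff` / `LinearMap.exists_ne_zero...` over `ℚ` and clear denominators,
or `Int.Matrix.exists_ne_zero_int_vec_norm_le` applied to `Mᵀ`; if there are no columns take any
`k ≠ 0`).  Divide `k` by its gcd (`Finset.extract_gcd`).  Then `Λ(w(x))^e ∑ k_i f_i(x) = 0` and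
`Λ(w(x)) ≠ 0` in the domain `O`. -/
def RlnStatement : Prop := MonConcl → ExbStatement → RlnConcl

/-- DPM (the conclusion is `DpmStatement` of DefsR).  `D = E^N (N (m+1) δ E + 1)^m`, `ι = Fin (m+1) →
Fin (D + 1)`, `f_a = ∏_i P_i^(a_i)`, of total degree `≤ e = (m+1) D δ`;
`(D+1)^(m+1) > E^N (N e E + 1)^m` because `N (m+1) D δ E + 1 ≤ (N (m+1) δ E + 1)(D+1)`.  RLN gives
`k`. -/
def DpmRowStatement : Prop := RlnConcl → DpmStatement

end Pool.Agent.LRG.R
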