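import Pool.Agent.LRG.DefsB
import Pool.Agent.LUB.Stmts

/-!
# Squad LRG, block B4: the tower and the module of the power series (helper69)

Theorem R: note 3593 (helper69), block B4. Rows: file `Pool/Agent/HelperNN_LRG/XXX.lean`,
`import Pool.Agent.LRG.StmtsB`, namespace `Pool.Agent.LRG.HNN`, theorem
`xxx (hypotheses = the statements of the column uses) : XxxStmt`.

IDEA. `R` is a complete local noetherian ring (the ring of the power series over `ℤ_p` in the
coefficients of the relations of the tower), `𝓐_k = R[[x_0, ..., x_{m+k-1}]]`. By the theorem of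
Weierstrass, used once for every step of the tower, `𝓐_k` modulo the relations of the tower is a
finitely generated module over `R[[y]]`, `y = yv D k X`. So the power series `F` satisfies an
equation `χ(F) = 0` modulo the relations, `χ` monic over `R[[y]]`, and the coefficients of the
specializations of `χ` are dominated uniformly (`R` is noetherian).
-/

set_option autoImplicit false

open Polynomial IsLocalRing

namespace Pool.Agent.LRG

/-- The ideal generated by the relations of the tower. -/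
def Jt (D : ℕ → ℕ) {m : ℕ} {O : Type} [CommRing O]
    (s : (j : ℕ) → (Fin (m + 1) → Fin (D j + 1)) → O) : (k : ℕ) → (Fin (m + k) → O) → Ideal O
  | 0, _ => ⊥
  | k + 1, x => Jt D s k (Fin.tail (n := m + k) (α := fun _ => O) x) ⊔
      Ideal.span {gv (s k) (Fin.cons (α := fun _ => O) (x (0 : Fin (m + k + 1)))
        (yv D k (Fin.tail (n := m + k) (α := fun _ => O) x)))}

/-- ACP (80 lines). Power series over a complete local ring form a complete local ring.
PROOF. `M = maximalIdeal R⟦X⟧ = {f | coeff 0 f ∈ 𝔪}`, generated by `C 𝔪` and `X`. For every `n` the ideal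
`M ^ n` consists of the series `f` with `coeff j f ∈ 𝔪 ^ (n - j)` for all `j < n` (natural subtraction;
`⊆` by induction on `n`; `⊇`: `f = ∑_{j < n} C (coeff j f) X ^ j + X ^ n g`, and
`C (𝔪 ^ (n - j)) ⊆ M ^ (n - j)`). Hausdorff: an element of all `M ^ n` has all coefficients in all
powers of `𝔪`. Precomplete: for a sequence `f n` with `f (n + 1) - f n ∈ M ^ n` the coefficients
`coeff j (f n)`, `n ≥ j`, shifted by `j`, converge: choose `c j` with
`coeff j (f n) - c j ∈ 𝔪 ^ (n - j)` for all `n ≥ j` (`IsPrecomplete` of `R` for the sequence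
`n ↦ coeff j (f (n + j))`); the limit is `mk c`. -/
def AcpStmt : Prop := ∀ (R : Type) [CommRing R] [IsLocalRing R],
  IsAdicComplete (maximalIdeal R) R →
    IsAdicComplete (maximalIdeal (PowerSeries R)) (PowerSeries R)

/-- ACM (60 lines). The same in several variables.
PROOF. For `σ = Fin n` by induction on `n`: `MvPowerSeries (Fin 0) R ≃ R` (`isEmptyEquiv`) and
`MvPowerSeries (Fin (n + 1)) R ≃ PowerSeries (MvPowerSeries (Fin n) R)` (`finSuccEquiv`), ACP; in
general `MvPowerSeries.renameEquiv` for `σ ≃ Fin n`. A ring isomorphism `e : A ≃+* B` of local rings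
maps `maximalIdeal A` onto `maximalIdeal B` and transports adic completeness (Hausdorff and
precomplete are statements on differences lying in powers of the maximal ideal;
`Ideal.map_pow`, `Ideal.comap_map`). -/
def AcmStmt : Prop := AcpStmt → ∀ (R : Type) [CommRing R] [IsLocalRing R],
  IsAdicComplete (maximalIdeal R) R → ∀ (σ : Type) [Finite σ],
    IsAdicComplete (maximalIdeal (MvPowerSeries σ R)) (MvPowerSeries σ R)

/-- The conclusion of ACM. -/
def AcmConcl : Prop := ∀ (R : Type) [CommRing R] [IsLocalRing R],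
  IsAdicComplete (maximalIdeal R) R → ∀ (σ : Type) [Finite σ],
    IsAdicComplete (maximalIdeal (MvPowerSeries σ R)) (MvPowerSeries σ R)

/-- RGM (50 lines). A polynomial with exponents at most `D` does not vanish at
`(T, T ^ (D + 1), T ^ ((D + 1) ^ 2), ...)`.
PROOF. `∏ i, (X ^ (D + 1) ^ i) ^ α i = X ^ (∑ i, α i (D + 1) ^ i)`, and the numbers
`∑ i, α i (D + 1) ^ i` are different for different `α : Fin n → Fin (D + 1)` (expansion in base `D + 1`:
`finFunctionFinEquiv` of Mathlib, or induction on `n`). So the coefficient of the polynomial at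
`∑ i, α i (D + 1) ^ i` is `c α`. -/
def RgmStmt : Prop := ∀ (κ : Type) [Field κ] (n D : ℕ) (c : (Fin n → Fin (D + 1)) → κ), c ≠ 0 →
  gv (fun α => (C (c α) : κ[X])) (fun i => (X : κ[X]) ^ (D + 1) ^ (i : ℕ)) ≠ 0

/-- WDV (STRONG, 200 lines). Weierstrass division by a relation.
PROOF. Let `e i = (D + 1) ^ (i + 1)`, `A = MvPowerSeries (Fin m) R` (local, complete by ACM),
`E = MvPowerSeries.finSuccEquiv R m` from `P = MvPowerSeries (Fin (m + 1)) R` to `PowerSeries A`. Let `Θ`
be the `R`-algebra endomorphism of `P` with `X 0 ↦ X 0`, `X i.succ ↦ X i.succ + X 0 ^ e i`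
(`MvPowerSeries.substAlgHom`; constant coefficients `0`) and `Θ'` the one with
`X i.succ ↦ X i.succ - X 0 ^ e i`; they are inverse to each other (UNQ for the two compositions and
the identity). Let `g = gv (fun α => C (c α)) X`, `G = E (Θ g)`. The image of `G` in `κ⟦T⟧`, `κ` the
residue field of `A`, is not zero: the composition `P → PowerSeries A → PowerSeries κ` maps `X 0` to
`T` and `X i.succ` to `0` (the `X i` are in the maximal ideal of `A`), and `C r` to the constant
series of the class of `r` under `R → κ` (a local homomorphism: units go to units, so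
`c̄ ≠ 0`); hence it maps `Θ g` to the polynomial `gv c̄ (T, T ^ e 0, T ^ e 1, ...)`, which is not zero by
RGM (`e i = (D + 1) ^ (i + 1)`, `T = T ^ (D + 1) ^ 0`). By
`PowerSeries.exists_isWeierstrassDivision` every `E (Θ f)` is `G q' + r'` with a polynomial `r'` over
`A` of degree `< d`, `d` the order of the image of `G`. Apply `Θ' ∘ E.symm`:
`f = g Θ'(E.symm q') + ∑_{i < d} θ (r'_i) X 0 ^ i` with `θ = Θ' ∘ E.symm ∘ PowerSeries.C`, an
`R`-algebra homomorphism with `θ (X i) = X i.succ - X 0 ^ e i`. -/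
def WdvStmt : Prop := AcmConcl → RgmStmt → ∀ (R : Type) [CommRing R] [IsLocalRing R],
  IsAdicComplete (maximalIdeal R) R → ∀ (m D : ℕ) (c : (Fin (m + 1) → Fin (D + 1)) → R),
  (∃ α, IsUnit (c α)) →
  ∃ (d : ℕ) (θ : MvPowerSeries (Fin m) R →ₐ[R] MvPowerSeries (Fin (m + 1)) R),
    (∀ i, θ (MvPowerSeries.X i) =
      MvPowerSeries.X i.succ - MvPowerSeries.X 0 ^ (D + 1) ^ ((i : ℕ) + 1)) ∧
    ∀ f : MvPowerSeries (Fin (m + 1)) R, ∃ (q : MvPowerSeries (Fin (m + 1)) R)
      (r : Fin d → MvPowerSeries (Fin m) R),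
      f = q * gv (fun α => MvPowerSeries.C (c α)) MvPowerSeries.X +
        ∑ i, θ (r i) * MvPowerSeries.X 0 ^ (i : ℕ)

/-- The conclusion of WDV. -/
def WdvConcl : Prop := ∀ (R : Type) [CommRing R] [IsLocalRing R],
  IsAdicComplete (maximalIdeal R) R → ∀ (m D : ℕ) (c : (Fin (m + 1) → Fin (D + 1)) → R),
  (∃ α, IsUnit (c α)) →
  ∃ (d : ℕ) (θ : MvPowerSeries (Fin m) R →ₐ[R] MvPowerSeries (Fin (m + 1)) R),
    (∀ i, θ (MvPowerSeries.X i) =
      MvPowerSeries.X i.succ - MvPowerSeries.X 0 ^ (D + 1) ^ ((i : ℕ) + 1)) ∧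
    ∀ f : MvPowerSeries (Fin (m + 1)) R, ∃ (q : MvPowerSeries (Fin (m + 1)) R)
      (r : Fin d → MvPowerSeries (Fin m) R),
      f = q * gv (fun α => MvPowerSeries.C (c α)) MvPowerSeries.X +
        ∑ i, θ (r i) * MvPowerSeries.X 0 ^ (i : ℕ)

/-- JTR (60 lines). The ideal of the relations and homomorphisms.
PROOF. Induction on `k`; `yv` and `gv` commute with ring homomorphisms (`map_sub`, `map_pow`,
`map_sum`, `map_prod`, cases on `Fin.cons`), `Fin.tail` commutes with composition by definition. -/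
def JtrStmt : Prop := ∀ (D : ℕ → ℕ) (m : ℕ) (A B : Type) [CommRing A] [CommRing B] (Φ : A →+* B)
  (s : (j : ℕ) → (Fin (m + 1) → Fin (D j + 1)) → A) (k : ℕ) (x : Fin (m + k) → A),
  (∀ i, Φ (yv D k x i) = yv D k (fun j => Φ (x j)) i) ∧
  (∀ a ∈ Jt D s k x, Φ a ∈ Jt D (fun j α => Φ (s j α)) k (fun j => Φ (x j))) ∧
  (Rels D (fun j α => Φ (s j α)) k (fun j => Φ (x j)) → ∀ a ∈ Jt D s k x, Φ a = 0)

/-- FGX (STRONG, 250 lines). Finite generation modulo the relations of the tower.
PROOF. Induction on `k`. `k = 0`: `yv D 0 X = X`, `ψ = id`, `n₀ = 1`, `b = 1`, `c = f`. Step from `k` to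
`k + 1`: let `P_k = MvPowerSeries (Fin (m + k)) R`, `ψ`, `n₀`, `b` from the induction,
`E = finSuccEquiv R (m + k) : P_{k+1} ≃ PowerSeries P_k`, `ι = E.symm ∘ PowerSeries.C : P_k → P_{k+1}`
(`ι (X i) = X i.succ`), `E' = finSuccEquiv R m`, `Ψ = E.symm ∘ PowerSeries.map ψ ∘ E'`, an
`R`-algebra homomorphism `MvPowerSeries (Fin (m + 1)) R → P_{k+1}` with `Ψ (X 0) = X 0`,
`Ψ (X i.succ) = ι (yv D k X i) = yv D k (tail X) i` (`yv` commutes with ring homomorphisms). Take
`d`, `θ` from WDV for `c = s k` and put `ψ' = Ψ ∘ θ`: `ψ' (X i) = yv D (k + 1) X i`. Let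
`g' = Ψ (gv (C ∘ s k) X) = gv (C ∘ s k) (cons (X 0) (yv D k (tail X)))`, the new relation
(`gv` commutes with ring homomorphisms). `Jt` of step `k` is generated by finitely many elements
`h_l` (it is a finite supremum of principal ideals), and its image under `ι` lies in the ideal
`Jt D _ k (tail X)` of `P_{k+1}` (JTR). For `f` in `P_{k+1}` let `f_j = coeff j (E f)`; choose `c_{j, i}`
(`i < n₀`) and `u_{j, l}` in `P_k` with `f_j = ∑_i ψ (c_{j, i}) b i + ∑_l u_{j, l} h_l`. Put
`C_i = E'.symm (mk fun j => c_{j, i})`, `U_l = E.symm (mk fun j => u_{j, l})`. Comparing the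
coefficients of `E`: `f = ∑_i Ψ (C_i) ι (b i) + ∑_l U_l ι (h_l)`. By WDV
`C_i = q_i gv + ∑_{l < d} θ (r_{i, l}) X 0 ^ l`, so
`Ψ (C_i) = Ψ (q_i) g' + ∑_l ψ' (r_{i, l}) X 0 ^ l`. Hence `f - ∑_{i, l} ψ' (r_{i, l}) (ι (b i) X 0 ^ l)` is
in `Jt D _ (k + 1) X`. The new family is `ι (b i) X 0 ^ l`, indexed by `Fin n₀ × Fin d`. -/
def FgxStmt : Prop := WdvConcl → JtrStmt → ∀ (R : Type) [CommRing R] [IsLocalRing R],
  IsAdicComplete (maximalIdeal R) R → ∀ (D : ℕ → ℕ) (m k : ℕ)
  (s : (j : ℕ) → (Fin (m + 1) → Fin (D j + 1)) → R), (∀ j < k, ∃ α, IsUnit (s j α)) →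
  ∃ (ψ : MvPowerSeries (Fin m) R →ₐ[R] MvPowerSeries (Fin (m + k)) R) (n₀ : ℕ)
    (b : Fin n₀ → MvPowerSeries (Fin (m + k)) R),
    (∀ i, ψ (MvPowerSeries.X i) = yv D k MvPowerSeries.X i) ∧
    ∀ f : MvPowerSeries (Fin (m + k)) R, ∃ c : Fin n₀ → MvPowerSeries (Fin m) R,
      f - ∑ i, ψ (c i) * b i ∈ Jt D (fun j α => MvPowerSeries.C (s j α)) k MvPowerSeries.X

/-- The conclusion of FGX. -/
def FgxConcl : Prop := ∀ (R : Type) [CommRing R] [IsLocalRing R],
  IsAdicComplete (maximalIdeal R) R → ∀ (D : ℕ → ℕ) (m k : ℕ)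
  (s : (j : ℕ) → (Fin (m + 1) → Fin (D j + 1)) → R), (∀ j < k, ∃ α, IsUnit (s j α)) →
  ∃ (ψ : MvPowerSeries (Fin m) R →ₐ[R] MvPowerSeries (Fin (m + k)) R) (n₀ : ℕ)
    (b : Fin n₀ → MvPowerSeries (Fin (m + k)) R),
    (∀ i, ψ (MvPowerSeries.X i) = yv D k MvPowerSeries.X i) ∧
    ∀ f : MvPowerSeries (Fin (m + k)) R, ∃ c : Fin n₀ → MvPowerSeries (Fin m) R,
      f - ∑ i, ψ (c i) * b i ∈ Jt D (fun j α => MvPowerSeries.C (s j α)) k MvPowerSeries.X

/-- INT (40 lines). A monic equation from finite generation.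
PROOF. `B ⧸ J` is an `A`-algebra (via `ψ`) which is generated as a module by the classes of the
`b i`, so it is a finite module and every element is integral over `A` (`IsIntegral.of_finite`). -/
def IntStmt : Prop := ∀ (A B : Type) [CommRing A] [CommRing B] (ψ : A →+* B) (J : Ideal B) (n₀ : ℕ)
  (b : Fin n₀ → B), (∀ f, ∃ c : Fin n₀ → A, f - ∑ i, ψ (c i) * b i ∈ J) → ∀ F : B,
    ∃ χ : A[X], χ.Monic ∧ χ.eval₂ ψ F ∈ J

/-- NOM (60 lines). Uniform domination of the coefficients.
PROOF. As row NOE (`Helper87_LUB/NOE.lean`) and NO2 (`Helper65_LPW/NO2.lean`): the ideal of the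
noetherian ring `R` generated by all coefficients of `g` is the increasing union of the ideals
generated by the coefficients of degree at most `K`, so it is equal to one of them; the norm of
`φ` of an element of it is at most the maximum of the norms of `φ (coeff β g)`, `β.degree ≤ K` (a
finite set of `β`, `Finsupp.degree`; not empty, `β = 0`). -/
def NomStmt : Prop := ∀ (p : ℕ) [Fact p.Prime] (R : Type) [CommRing R] [IsNoetherianRing R] (m : ℕ)
  (g : MvPowerSeries (Fin m) R), ∃ K : ℕ, ∀ φ : R →+* ℤ_[p], Dom K (MvPowerSeries.map φ g)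

/-- UNQ (80 lines). Uniqueness of homomorphisms of power series rings.
PROOF. For `f` and `n` write `f = f' + ∑_{|α| = n} X ^ α f_α` with a polynomial `f'` (the terms of degree
`< n`); `u f' = v f'` (both are ring homomorphisms which agree on constants and variables), and
`u (X ^ α) = v (X ^ α)` is a product of `n` power series with constant coefficient `0`, so it has order
at least `n`: all coefficients of degree `< n` of `u f - v f` vanish. (Induction on `n`: the set of the
`f` such that `u f - v f` has all coefficients of degree `< n` equal to `0` is everything: write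
`f = C (constantCoeff f) + ∑ i, X i f_i`.) -/
def UnqStmt : Prop := ∀ (R S : Type) [CommRing R] [CommRing S] (σ τ : Type) [Finite σ] [Finite τ]
  (u v : MvPowerSeries σ R →+* MvPowerSeries τ S),
  (∀ r, u (MvPowerSeries.C r) = v (MvPowerSeries.C r)) →
  (∀ i, u (MvPowerSeries.X i) = v (MvPowerSeries.X i)) →
  (∀ i, MvPowerSeries.constantCoeff (u (MvPowerSeries.X i)) = 0) → u = v

/-- The conclusion of CHX: the equation of `F` modulo the relations of the tower, uniformly in the
coefficients `s` of the relations in a fixed class `s₀` modulo `p`. -/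
def ChxConcl : Prop := ∀ (p : ℕ) [Fact p.Prime] (D : ℕ → ℕ) (m k : ℕ)
  (s₀ : (j : ℕ) → (Fin (m + 1) → Fin (D j + 1)) → ℤ), (∀ j < k, ∃ α, ¬ (p : ℤ) ∣ s₀ j α) →
  ∀ F : MvPowerSeries (Fin (m + k)) ℤ_[p], ∃ (n₀ K : ℕ),
  ∀ s : (j : ℕ) → (Fin (m + 1) → Fin (D j + 1)) → ℤ,
  (∀ j < k, ∀ α, (p : ℤ) ∣ s j α - s₀ j α) →
  ∃ (ψ : MvPowerSeries (Fin m) ℤ_[p] →ₐ[ℤ_[p]] MvPowerSeries (Fin (m + k)) ℤ_[p])
    (b : Fin n₀ → MvPowerSeries (Fin (m + k)) ℤ_[p]) (χ : (MvPowerSeries (Fin m) ℤ_[p])[X]),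
    (∀ i, ψ (MvPowerSeries.X i) = yv D k MvPowerSeries.X i) ∧ χ.Monic ∧
    (∀ j, Dom K (χ.coeff j)) ∧
    (∀ (O : Type) [CommRing O] (Φ : MvPowerSeries (Fin (m + k)) ℤ_[p] →+* O),
      Rels D (fun j α => (s j α : O)) k (fun i => Φ (MvPowerSeries.X i)) →
      χ.eval₂ (Φ.comp (ψ : MvPowerSeries (Fin m) ℤ_[p] →+* MvPowerSeries (Fin (m + k)) ℤ_[p]))
        (Φ F) = 0) ∧
    ∀ f : MvPowerSeries (Fin (m + k)) ℤ_[p], ∃ c : Fin n₀ → MvPowerSeries (Fin m) ℤ_[p],
      ∀ (O : Type) [CommRing O] (Φ : MvPowerSeries (Fin (m + k)) ℤ_[p] →+* O),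
      Rels D (fun j α => (s j α : O)) k (fun i => Φ (MvPowerSeries.X i)) →
      Φ f = ∑ i, Φ (ψ (c i)) * Φ (b i)

/-- CHX (STRONG, 250 lines). The equation of `F` modulo the relations.
PROOF. Let `I = (j : Fin k) × (Fin (m + 1) → Fin (D j + 1))` (finite), `R = MvPowerSeries I ℤ_[p]`: a
local noetherian ring, complete by ACM (`ℤ_[p]` is complete: instance). Let
`sR j α = C (s₀ j α) + X ⟨j, α⟩` for `j < k` (and `1` otherwise): for every `j < k` there is `α` with
`sR j α` a unit (constant coefficient prime to `p`). FGX for `R`, `sR` gives `ψR`, `n₀`, `bR`. Let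
`FR` be the image of `F` under `MvPowerSeries.map (algebraMap ℤ_[p] R)`; INT gives a monic `χR` with
`χR.eval₂ ψR FR ∈ Jt`. By NOM for every coefficient of `χR` (finitely many are not zero) there is
a number `K_j`; `K` = the maximum. Given `s` let `φ : R → ℤ_[p]` be the `ℤ_[p]`-algebra homomorphism with
`X ⟨j, α⟩ ↦ s j α - s₀ j α` (`LUB.EvhStmt`), so `φ (sR j α) = s j α` for `j < k` (only these values of the
family enter `Jt D _ k` and `Rels D _ k`), and `μ = MvPowerSeries.map φ` on the rings in `Fin m` and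
`Fin (m + k)` variables. Let `ψ` be the `ℤ_[p]`-algebra homomorphism with
`ψ (X i) = yv D k X i` (`MvPowerSeries.substAlgHom`; the constant coefficients of `yv D k X i` are `0`).
By UNQ `μ ∘ ψR = ψ ∘ μ` (both map `C r` to `C (φ r)` and `X i` to `yv D k X i`). Put `b = μ ∘ bR`,
`χ = χR.map μ`: monic, coefficients `μ (χR.coeff j)` dominated by degree `K`. Apply `μ` to the two
memberships (JTR): `χ.eval₂ ψ F = μ (χR.eval₂ ψR FR)` is in `Jt D (fun j α => C (s j α)) k X`
(`μ FR = F` since `φ ∘ algebraMap = id`), and for every `f` (lifted to `R` by `algebraMap`)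
`f - ∑ ψ (c i) b i` is in it. For `Φ` to `O` with the relations JTR gives `Φ a = 0` for all elements
`a` of this ideal, and `Φ (χ.eval₂ ψ F) = χ.eval₂ (Φ.comp ψ) (Φ F)` (`Polynomial.hom_eval₂`). -/
def ChxStmt : Prop := AcmConcl → FgxConcl → IntStmt → JtrStmt → NomStmt → UnqStmt → LUB.EvhStmt →
  ChxConcl

end Pool.Agent.LRG
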