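import Pool.Agent.LRG.Defs
import Pool.Agent.Helper65_Dens.SepSig

/-!
# Squad LRG, block E: the lower bound

For `t ≥ t₀` let `G` be the polynomial with the roots `t ω`, where `ω` runs through the Gaussian
integers `5 ^ i` (`i < r₁`) and `5 ^ (r₁ + j) (1 ± i)` (`j < r₂`).  The polynomial `G - 1` is
irreducible, its roots `x` are extremely close to the numbers `t ω`, the field `K` generated by a
root is primitive (the trace of the root to a subfield is extremely close to a Gaussian integer,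
hence equal to it; the sums of the `ω` over different blocks are different), the factors of `G`
give units, with regulator `O((log t) ^ r)`, and `t, t' ∈ [N, (1 + δ) N]` give different fields
(the quotient of two units would be too short).

Throughout `n = r₁ + 2 r₂`, `ε = 1 / (t - 1) ^ (n - 1)`, `b = bd r₁ r₂ = 2 * 5 ^ (r₁ + r₂)`.
-/

set_option autoImplicit false

open Polynomial NumberField

namespace Pool.Agent.LRG.E

/-! ### Definitions -/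

/-- The indices of the roots. -/
abbrev Ro (r₁ r₂ : ℕ) : Type := Fin r₁ ⊕ (Fin r₂ × Bool)

/-- The indices of the factors of `G` and of the infinite places. -/
abbrev Fa (r₁ r₂ : ℕ) : Type := Fin r₁ ⊕ Fin r₂

/-- The factor of a root. -/
def fac {r₁ r₂ : ℕ} : Ro r₁ r₂ → Fa r₁ r₂ := Sum.elim Sum.inl fun q => Sum.inr q.1

/-- Complex conjugation of the indices. -/
def st {r₁ r₂ : ℕ} : Ro r₁ r₂ → Ro r₁ r₂ := Sum.elim Sum.inl fun q => Sum.inr (q.1, !q.2)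

/-- A root of a factor. -/
def rep {r₁ r₂ : ℕ} : Fa r₁ r₂ → Ro r₁ r₂ := Sum.elim Sum.inl fun j => Sum.inr (j, true)

/-- The degree of a factor. -/
def mu {r₁ r₂ : ℕ} : Fa r₁ r₂ → ℕ := Sum.elim (fun _ => 1) fun _ => 2

/-- The exponent of a factor. -/
def ex {r₁ r₂ : ℕ} : Fa r₁ r₂ → ℕ := Sum.elim (fun i => i.1) fun j => r₁ + j.1

/-- The real part of `ω`. -/
def omre {r₁ r₂ : ℕ} (o : Ro r₁ r₂) : ℤ := 5 ^ ex (fac o)

/-- The imaginary part of `ω`. -/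
def omim {r₁ r₂ : ℕ} : Ro r₁ r₂ → ℤ :=
  Sum.elim (fun _ => 0) fun q => if q.2 then 5 ^ (r₁ + q.1.1) else -5 ^ (r₁ + q.1.1)

/-- The Gaussian integers `ω`. -/
noncomputable def om {r₁ r₂ : ℕ} (o : Ro r₁ r₂) : ℂ :=
  (omre o : ℂ) + (omim o : ℂ) * Complex.I

/-- The factors of `G`. -/
noncomputable def gp {r₁ r₂ : ℕ} (t : ℕ) : Fa r₁ r₂ → ℤ[X] :=
  Sum.elim (fun i => X - C (5 ^ i.1 * (t : ℤ)))
    fun j => X ^ 2 - C (2 * 5 ^ (r₁ + j.1) * (t : ℤ)) * X + C (2 * 25 ^ (r₁ + j.1) * (t : ℤ) ^ 2)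

/-- The polynomial `G`. -/
noncomputable def Gp (r₁ r₂ t : ℕ) : ℤ[X] := ∏ k : Fa r₁ r₂, gp t k

/-- A bound for the numbers `ω`. -/
def bd (r₁ r₂ : ℕ) : ℝ := 2 * 5 ^ (r₁ + r₂)

/-- `x` enumerates the roots of `G - 1`. -/
structure Rts (r₁ r₂ t : ℕ) (x : Ro r₁ r₂ → ℂ) : Prop where
  prod : (Gp r₁ r₂ t - 1).map (Int.castRingHom ℂ) = ∏ o, (X - C (x o))
  one : ∀ o : Ro r₁ r₂, ∏ o' : Ro r₁ r₂, ‖x o - t * om o'‖ = 1
  near : ∀ o : Ro r₁ r₂, ‖x o - t * om o‖ ≤ 1 / ((t : ℝ) - 1) ^ (r₁ + 2 * r₂ - 1)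
  low : ∀ o o' : Ro r₁ r₂, o ≠ o' → (t : ℝ) - 1 ≤ ‖x o - t * om o'‖
  high : ∀ o o' : Ro r₁ r₂, ‖x o - t * om o'‖ ≤ 3 * bd r₁ r₂ * t
  inj : Function.Injective x
  conj : ∀ o, (starRingEnd ℂ) (x o) = x (st o)

/-- `θ` generates `K` and is a root of `G - 1`, and `e` are the embeddings of `K` in the order of
the roots `x`. -/
structure Fld (r₁ r₂ t : ℕ) (x : Ro r₁ r₂ → ℂ) (K : Type) [Field K] [NumberField K] (θ : K)
    (e : Ro r₁ r₂ ≃ (K →+* ℂ)) : Prop where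
  rts : Rts r₁ r₂ t x
  gen : IntermediateField.adjoin ℚ {θ} = ⊤
  root : aeval θ (Gp r₁ r₂ t - 1) = 0
  emb : ∀ o, e o θ = x o
  cj : ∀ o, ComplexEmbedding.conjugate (e o) = e (st o)
  deg : Module.finrank ℚ K = r₁ + 2 * r₂

/-- The product of the distances of `x` to the roots `t ω` of the factor `k`. -/
noncomputable def dst {r₁ r₂ : ℕ} (t : ℕ) (z : ℂ) (k : Fa r₁ r₂) : ℝ :=
  ∏ o ∈ Finset.univ.filter (fun o : Ro r₁ r₂ => fac o = k), ‖z - t * om o‖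

/-- `t` is large. -/
def Big (r₁ r₂ t : ℕ) : Prop :=
  4 ≤ t ∧ ((r₁ + 2 * r₂ : ℕ) : ℝ) * (8 * ((r₁ + 2 * r₂ : ℕ) : ℝ) * bd r₁ r₂ * t) ^ (r₁ + 2 * r₂ - 2) <
    ((t : ℝ) - 1) ^ (r₁ + 2 * r₂ - 1)

/-- The block of `τ`: the indices of the embeddings of `K` over the embedding `τ` of `M`. -/
noncomputable def blk {r₁ r₂ : ℕ} {K : Type} [Field K] [NumberField K] (e : Ro r₁ r₂ ≃ (K →+* ℂ))
    (M : IntermediateField ℚ K) (τ : M →+* ℂ) : Finset (Ro r₁ r₂) := by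
  classical
  exact Finset.univ.filter fun o => (e o).comp (algebraMap M K) = τ

/-- The real part of the sum of the numbers `t ω` over the block of `τ`. -/
noncomputable def zre {r₁ r₂ : ℕ} (t : ℕ) {K : Type} [Field K] [NumberField K]
    (e : Ro r₁ r₂ ≃ (K →+* ℂ)) (M : IntermediateField ℚ K) (τ : M →+* ℂ) : ℤ :=
  ∑ o ∈ blk e M τ, (t : ℤ) * omre o

/-- The imaginary part of the sum of the numbers `t ω` over the block of `τ`. -/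
noncomputable def zim {r₁ r₂ : ℕ} (t : ℕ) {K : Type} [Field K] [NumberField K]
    (e : Ro r₁ r₂ ≃ (K →+* ℂ)) (M : IntermediateField ℚ K) (τ : M →+* ℂ) : ℤ :=
  ∑ o ∈ blk e M τ, (t : ℤ) * omim o

/-! ### The polynomials -/

/-- FCT (90 lines). The factors of `G`.

PROOF. `X - C (5 ^ i t)` and `X ^ 2 - C (2 c t) X + C (2 c ^ 2 t ^ 2) = (X - c t (1 + i)) (X - c t (1 - i))`,
`c = 5 ^ (r₁ + j)`, `25 ^ m = (5 ^ m) ^ 2`.  The roots with `fac o = Sum.inl i` are `{Sum.inl i}`, those with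
`fac o = Sum.inr j` are `{Sum.inr (j, true), Sum.inr (j, false)}`.  `G`: product over the factors
(`Finset.prod_fiberwise`), degree `∑ k, mu k = r₁ + 2 r₂`. -/
def FctStmt : Prop := ∀ r₁ r₂ t : ℕ,
  (∀ k : Fa r₁ r₂, (gp t k).Monic ∧ (gp t k).natDegree = mu k ∧
    (gp t k).map (Int.castRingHom ℂ) =
      ∏ o ∈ Finset.univ.filter (fun o : Ro r₁ r₂ => fac o = k), (X - C ((t : ℂ) * om o))) ∧
  (Gp r₁ r₂ t).Monic ∧ (Gp r₁ r₂ t).natDegree = r₁ + 2 * r₂ ∧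
  (Gp r₁ r₂ t).map (Int.castRingHom ℂ) = ∏ o : Ro r₁ r₂, (X - C ((t : ℂ) * om o))

/-- SPC (60 lines). Spacing and size of the Gaussian integers `ω`.

PROOF. Different `ω` have different integer real parts or (if `fac o = fac o'`, `o ≠ o'`) different integer
imaginary parts, so the difference has absolute value at least `1` (`Complex.abs_re_le_norm`,
`Complex.abs_im_le_norm`); `5 ^ m` is injective, and `ex` is injective.  `1 ≤ 5 ^ ex ≤ |ω|`, and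
`|ω| ≤ |re| + |im| ≤ 2 * 5 ^ (r₁ + r₂)`. -/
def SpcStmt : Prop := ∀ r₁ r₂ : ℕ,
  (∀ o o' : Ro r₁ r₂, o ≠ o' → 1 ≤ ‖om o - om o'‖) ∧
  (∀ o : Ro r₁ r₂, 1 ≤ ‖om o‖ ∧ ‖om o‖ ≤ bd r₁ r₂) ∧
  ∀ o : Ro r₁ r₂, (starRingEnd ℂ) (om o) = om (st o) ∧ st (st o) = o ∧ fac (st o) = fac o

/-- FIV (25 lines). Base five with the digits `-2, ..., 2`.

PROOF. Induction on `N`: `δ 0` is divisible by `5` and `|δ 0| ≤ 2`, so `δ 0 = 0`; divide by `5`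
(`Finset.sum_range_succ'`). -/
def FivStmt : Prop := ∀ (N : ℕ) (δ : ℕ → ℤ), (∀ k < N, |δ k| ≤ 2) →
  ∑ k ∈ Finset.range N, δ k * 5 ^ k = 0 → ∀ k < N, δ k = 0

/-- SUB (80 lines). Sums of the numbers `ω` over different sets are different.  Uses FIV.

PROOF. Real part: `∑ k : Fa, (∑ o with fac o = k, β o) 5 ^ ex k = 0`; `ex` is a bijection from `Fa` to
`{0, ..., r₁ + r₂ - 1}`; the digits are `β (inl i)` and `β (j, true) + β (j, false)`.  So `β (inl i) = 0` and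
`β (j, true) + β (j, false) = 0`.  Imaginary part: the digits are `β (j, true) - β (j, false)`.  So all
`β` are zero. -/
def SubStmt : Prop := FivStmt → ∀ (r₁ r₂ : ℕ) (β : Ro r₁ r₂ → ℤ), (∀ o, |β o| ≤ 1) →
  ∑ o, β o * omre o = 0 → ∑ o, β o * omim o = 0 → ∀ o, β o = 0

/-- IRE (70 lines). `G - 1` is irreducible.  Uses FCT, SPC.

PROOF. `Pool.Agent.Helper65_Dens.irreducible_of_pairs` with `w o = t ω`.  For `o = inl i` the number `w` is an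
integer, so `u(w)`, `v(w)` are integers with product `-1`.  For `o = inr (j, b)`:
`Pool.Agent.Helper65_Dens.quadratic_unit` with `c = -2 * 5 ^ m t`, `d = 2 * 25 ^ m t ^ 2`,
`4 d - c ^ 2 = 4 * 25 ^ m t ^ 2 ≥ 5`. -/
def IreStmt : Prop := FctStmt → SpcStmt → ∀ r₁ r₂ t : ℕ, 2 ≤ t → 0 < r₁ + r₂ →
  Irreducible ((Gp r₁ r₂ t - 1).map (Int.castRingHom ℚ))

/-- ROO (120 lines). The roots of `G - 1`.  Uses FCT, SPC.

PROOF. `Pool.Agent.Helper65_Dens.exists_close_roots` for `f = (G - 1).map`, `w o = t ω` (`f(w) = -1`,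
distances at least `t ≥ 3`) gives `x` with `prod` and `|x o - t ω| ≤ 1`.  `low`: `|x o - t ω'| ≥ t - 1`.
`high`: `≤ 1 + t |ω| + t |ω'| ≤ 1 + 2 b t ≤ 3 b t`.  `one`: `G(x o) = 1`.  `near`: by `one` and `low`
(`∏ o' ≠ o` has `n - 1` factors `≥ t - 1 > 0`).  `inj`: `x o = x o'`, `o ≠ o'` contradicts
`|x o' - t ω'| ≤ 1 < t - 1 ≤ |x o - t ω'|`.  `conj`: the conjugate of `x o` is a root, so it is `x o'`; its
distance to `t ω_(st o)` is at most `1`, so `o' = st o` by `low`. -/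
def RooStmt : Prop := FctStmt → SpcStmt → ∀ r₁ r₂ t : ℕ, 4 ≤ t → 0 < r₁ + r₂ →
  ∃ x, Rts r₁ r₂ t x

/-- EMB (90 lines). The embeddings.

PROOF. `minpoly ℚ θ = (G - 1).map` (irreducible, monic, root), so `finrank ℚ K = n` (`FCT` for the degree) is the
number of embeddings (`Embeddings.card`).  For every embedding `σ` the number `σ θ` is a root of `G - 1`, so it
is `x o` for exactly one `o`; `σ` is determined by `σ θ` (`gen`), so `σ ↦ o` is injective, hence bijective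
(same cardinality `n`); `e` is the inverse.  `cj`: both sides have the same value `x (st o)` at `θ`. -/
def EmbStmt : Prop := FctStmt → ∀ (r₁ r₂ t : ℕ) (x : Ro r₁ r₂ → ℂ),
  Rts r₁ r₂ t x → Irreducible ((Gp r₁ r₂ t - 1).map (Int.castRingHom ℚ)) →
  ∀ (K : Type) [Field K] [NumberField K] (θ : K), IntermediateField.adjoin ℚ {θ} = ⊤ →
    aeval θ (Gp r₁ r₂ t - 1) = 0 → ∃ e : Ro r₁ r₂ ≃ (K →+* ℂ), Fld r₁ r₂ t x K θ e

/-- PLA (90 lines). The infinite places and the signature.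

PROOF. `v k = InfinitePlace.mk (e (rep k))`.  `mk φ = mk ψ` iff `φ = ψ` or `conjugate φ = ψ`
(`InfinitePlace.mk_eq_iff`), so with `cj`: `v k = v k'` implies `rep k' ∈ {rep k, st (rep k)}`, so `k = k'`.
Surjective: every place is `mk (e o)`, and `o = rep k` or `o = st (rep k)` with `k = fac o`.  `v k` is real iff
`st (rep k) = rep k` iff `k = inl i`.  Count. -/
def PlaStmt : Prop := ∀ (r₁ r₂ t : ℕ) (x : Ro r₁ r₂ → ℂ) (K : Type) [Field K] [NumberField K]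
  (θ : K) (e : Ro r₁ r₂ ≃ (K →+* ℂ)), Fld r₁ r₂ t x K θ e →
  (∃ v : Fa r₁ r₂ ≃ InfinitePlace K, ∀ k, v k = InfinitePlace.mk (e (rep k)) ∧
    (v k).mult = mu k) ∧
  InfinitePlace.nrRealPlaces K = r₁ ∧ InfinitePlace.nrComplexPlaces K = r₂

/-! ### The units -/

/-- UNT (70 lines). The units.

PROOF. `θ` is integral (root of the monic polynomial `G - 1`, `FCT`), so `g_k(θ)` is integral, and
`∏ k, g_k(θ) = G(θ) = 1`, so they are units of `𝓞 K` (`Units.mkOfMulEqOne` with the product of the others).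
`e o (g_k(θ)) = g_k(x o) = ∏ (x o - t ω)` over the roots of `g_k`. -/
def UntStmt : Prop := FctStmt → ∀ (r₁ r₂ t : ℕ) (x : Ro r₁ r₂ → ℂ) (K : Type) [Field K]
  [NumberField K] (θ : K) (e : Ro r₁ r₂ ≃ (K →+* ℂ)), Fld r₁ r₂ t x K θ e →
  ∃ u : Fa r₁ r₂ → (𝓞 K)ˣ, ∀ (o : Ro r₁ r₂) (k : Fa r₁ r₂), ‖e o ((u k : 𝓞 K) : K)‖ = dst t (x o) k

/-- LGB (90 lines). Size of the units.

PROOF. `L = log (3 b t) ≥ 0`.  The factors of `dst` with `o' ≠ o` lie in `[t - 1, 3 b t]` (`low`, `high`), and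
`t - 1 ≥ 3`; the factor with `o' = o` is `1 / ∏ o' ≠ o, |x o - t ω'|` (`one`), it lies in
`[(3 b t) ^ (-(n - 1)), 1]`.  There are `mu k ≤ 2` factors, `2 ≤ n`.  If `fac o ≠ k`, no factor has `o' = o`:
`0 < log ≤ 2 L`.  If `fac o = k`: `-(n - 1) L ≤ log ≤ L`. -/
def LgbStmt : Prop := ∀ (r₁ r₂ t : ℕ) (x : Ro r₁ r₂ → ℂ), Rts r₁ r₂ t x → 4 ≤ t → 2 ≤ r₁ + r₂ →
  (∀ (o : Ro r₁ r₂) (k : Fa r₁ r₂), 0 < dst t (x o) k) ∧
  (∀ (o : Ro r₁ r₂) (k : Fa r₁ r₂), fac o ≠ k → 0 < Real.log (dst t (x o) k)) ∧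
  ∀ (o : Ro r₁ r₂) (k : Fa r₁ r₂), |Real.log (dst t (x o) k)| ≤ ((r₁ + 2 * r₂ : ℕ) : ℝ) * Real.log (3 * bd r₁ r₂ * t)

/-- REB (120 lines). The regulator.  Uses PLA, UNT, LGB, FCT.

PROOF. Fix `k₀ : Fa r₁ r₂`, `w' = v k₀`, any equivalence `f : {w // w ≠ w'} ≃ Fin (rank K)` and the family
`i ↦ u (v⁻¹ (f⁻¹ i))`; `rank K = r₁ + r₂ - 1`.  `regOfFamily_eq_det`: `A i w = mult w * log (w (u_i))`, with
`w (u_k) = dst t (x (rep k')) k` for `w = v k'`.  The entries with `w ≠ i` are positive (`LGB`), and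
`∑ w, mult w * log (w u) = 0` over all places (`Units.sum_mult_mul_log`), so
`|A i i| = ∑_(w ≠ i, w ≠ w') A i w + mult w' log (w' (u_i)) > ∑_(w ≠ i, w ≠ w') |A i w|`:
`det_ne_zero_of_sum_row_lt_diag`.  So `regOfFamily u ≠ 0` and by `Units.regOfFamily_div_regulator` (the index is a
nonzero natural number) `regulator K ≤ regOfFamily u = |det A| ≤ r! (2 n L) ^ r` (`Matrix.det_le`). -/
def RebStmt : Prop := PlaStmt → UntStmt → LgbStmt → FctStmt → ∀ (r₁ r₂ t : ℕ)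
  (x : Ro r₁ r₂ → ℂ) (K : Type) [Field K] [NumberField K] (θ : K) (e : Ro r₁ r₂ ≃ (K →+* ℂ)),
  Fld r₁ r₂ t x K θ e → 4 ≤ t → 2 ≤ r₁ + r₂ →
  Units.regulator K ≤ ((r₁ + r₂ - 1).factorial : ℝ) *
    (2 * ((r₁ + 2 * r₂ : ℕ) : ℝ) * Real.log (3 * bd r₁ r₂ * t)) ^ (r₁ + r₂ - 1)

/-- KRO (80 lines). A unit of a field of degree `n` is not very close to the unit circle unless it is
on it.

PROOF. Let `F` be the finite set of the polynomials in `ℤ[X]` of degree at most `n` with coefficients of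
absolute value at most `3 ^ n * n.choose (n / 2)`, and `c` the minimum of `1` and the numbers `|log |z||`,
`z ≠ 0` a complex root of a nonzero element of `F` with `|z| ≠ 1` (finitely many positive numbers).  If
`|log |σ u|| < c` for all `σ`, then `|σ u| ≤ e ≤ 3`, so `minpoly ℤ u ∈ F` (`Embeddings.coeff_bdd_of_norm_le`,
`minpoly.isIntegrallyClosed_eq_field_fractions'`), and `σ u ≠ 0` is a root of it; so `|σ u| = 1` by the choice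
of `c`. -/
def KroStmt : Prop := ∀ n : ℕ, 0 < n → ∃ c : ℝ, 0 < c ∧ ∀ (K : Type) [Field K] [NumberField K],
  Module.finrank ℚ K = n → ∀ u : (𝓞 K)ˣ,
    (∀ σ : K →+* ℂ, |Real.log ‖σ ((u : 𝓞 K) : K)‖| < c) → ∀ σ : K →+* ℂ, ‖σ ((u : 𝓞 K) : K)‖ = 1

/-- DSR (60 lines). Comparison of the distances for two parameters `t < t'`.  Uses SPC.

PROOF. `x o = t ω_o + η`, `|η| ≤ ε ≤ 1 / 3` (`near`, `t ≥ 4`, `n ≥ 2`), the same for `t'`.  With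
`D = |ω_o - ω_(o')| ≥ 1` (`fac o' = k ≠ fac o`, so `o' ≠ o`): the factor of `dst t` lies in
`[t D - 1/3, t D + 1/3]`, the one of `dst t'` in `[t' D - 1/3, t' D + 1/3]`, and `t' ≥ t + 1`, so the quotient
is `> 1`, and it is at most `(t' D + 1/3) / (t D - 1/3) ≤ (t' + 1) / (t - 1)`.  There are one or two factors, and
`1 ≤ (t' + 1) / (t - 1)`. -/
def DsrStmt : Prop := SpcStmt → ∀ (r₁ r₂ t t' : ℕ) (x x' : Ro r₁ r₂ → ℂ), Rts r₁ r₂ t x →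
  Rts r₁ r₂ t' x' → 4 ≤ t → t < t' → 2 ≤ r₁ + r₂ → ∀ (o : Ro r₁ r₂) (k : Fa r₁ r₂), fac o ≠ k →
    dst t (x o) k < dst t' (x' o) k ∧
    dst t' (x' o) k ≤ (((t' : ℝ) + 1) / ((t : ℝ) - 1)) ^ 2 * dst t (x o) k

/-- DSJ (100 lines). Different parameters of the same size give different fields.  Uses FCT, SPC, UNT,
KRO, DSR, LGB.

PROOF. Let `c` be the constant of KRO for `n`, `δ ≤ 1` with `2 n log (1 + 2 δ) < c` and `δ > 0`, and `N₀ ≥ 4`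
such that `((1 + δ) N + 1) / (N - 1) ≤ 1 + 2 δ` for `N ≥ N₀`.  Suppose `t < t'` (the other case is symmetric).
Fix `k` and put `a = u'_k / u_k`.  By DSR `0 < log |e o a| ≤ 2 log (1 + 2 δ)` for all `o` with `fac o ≠ k`.
The product of `|e o a|` over all `o` is `1` (absolute value of the norm of a unit, `e` is a bijection), and
the one or two numbers `|e o a|` with `fac o = k` are equal (`cj`), so `|log |e o a|| ≤ 2 n log (1 + 2 δ) < c`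
for all `o`.  By KRO `|e o a| = 1` for all `o`, a contradiction for an `o` with `fac o ≠ k`. -/
def DsjStmt : Prop := FctStmt → SpcStmt → UntStmt → KroStmt → DsrStmt → LgbStmt →
  ∀ r₁ r₂ : ℕ, 2 ≤ r₁ + r₂ → ∃ (δ : ℝ) (N₀ : ℕ), 0 < δ ∧ δ ≤ 1 ∧ ∀ N : ℕ, N₀ ≤ N →
  ∀ (K : Type) [Field K] [NumberField K] (t t' : ℕ) (x x' : Ro r₁ r₂ → ℂ) (θ θ' : K)
    (e : Ro r₁ r₂ ≃ (K →+* ℂ)), Fld r₁ r₂ t x K θ e → Fld r₁ r₂ t' x' K θ' e →
    N ≤ t → N ≤ t' → (t : ℝ) ≤ (1 + δ) * N → (t' : ℝ) ≤ (1 + δ) * N → t = t'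

/-! ### Primitivity -/

/-- TRE (60 lines). The trace to a subfield.

PROOF. `ℂ` as an `M`-algebra by `τ` (`τ.toAlgebra`), `trace_eq_sum_embeddings`, and the bijection between the
`M`-algebra homomorphisms `K → ℂ` and the ring homomorphisms `σ` with `σ ∘ algebraMap = τ`; their number is
`finrank M K` (`AlgHom.card`). -/
def TreStmt : Prop := ∀ (K : Type) [Field K] [NumberField K] (M : IntermediateField ℚ K)
  (τ : M →+* ℂ) (θ : K) (S : Finset (K →+* ℂ)), (∀ σ, σ ∈ S ↔ σ.comp (algebraMap M K) = τ) →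
  τ (Algebra.trace M K θ) = ∑ σ ∈ S, σ θ ∧ S.card = Module.finrank M K

/-- NIZ (40 lines). An integral element all of whose conjugates have a small product is zero.

PROOF. `Algebra.norm_eq_prod_embeddings ℚ ℂ`; the norm is an integral rational number, hence an integer, of
absolute value `< 1`, so it is `0`, and `a = 0`. -/
def NizStmt : Prop := ∀ (M : Type) [Field M] [NumberField M] (a : M), IsIntegral ℤ a →
  ‖∏ τ : M →+* ℂ, τ a‖ < 1 → a = 0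

/-- BLC (60 lines). The blocks.  Uses TRE.

PROOF. (1) every `o` is in the block of `(e o).comp (algebraMap M K)` only; (2) `TRE` and the bijection `e`;
(3) `cj`: `o ∈ blk τ ↔ st o ∈ blk (conjugate τ)`, `omim (st o) = - omim o`, `omre (st o) = omre o`. -/
def BlcStmt : Prop := TreStmt → ∀ (r₁ r₂ t : ℕ) (x : Ro r₁ r₂ → ℂ) (K : Type) [Field K]
  [NumberField K] (θ : K) (e : Ro r₁ r₂ ≃ (K →+* ℂ)), Fld r₁ r₂ t x K θ e →
  ∀ M : IntermediateField ℚ K,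
    (∀ τ τ' : M →+* ℂ, τ ≠ τ' → Disjoint (blk e M τ) (blk e M τ')) ∧
    (∀ τ, τ (Algebra.trace M K θ) = ∑ o ∈ blk e M τ, x o) ∧
    (∀ τ, (blk e M τ).card = Module.finrank M K) ∧
    ∀ τ, zre t e M (ComplexEmbedding.conjugate τ) = zre t e M τ ∧
      zim t e M (ComplexEmbedding.conjugate τ) = - zim t e M τ

/-- TRA (60 lines). The trace is close to a Gaussian integer.  Uses BLC, SPC.

PROOF. With `z = zre + zim i = ∑ o ∈ blk, t ω` and `BLC`: `|τ s - z| ≤ ∑ |x o - t ω| ≤ n ε`, `|x o| ≤ ε + b t ≤ 2 b t`,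
so `|τ s| ≤ 2 n b t`, `|z| ≤ n b t`; `Big` and `n ≥ 3`, `8 n b t ≥ 2` give `n ε < 1 / (8 n b t) ^ (n - 2) ≤ 1/2`. -/
def TraStmt : Prop := BlcStmt → TreStmt → SpcStmt → ∀ (r₁ r₂ t : ℕ) (x : Ro r₁ r₂ → ℂ) (K : Type)
  [Field K] [NumberField K] (θ : K) (e : Ro r₁ r₂ ≃ (K →+* ℂ)), Fld r₁ r₂ t x K θ e →
  Big r₁ r₂ t → 3 ≤ r₁ + r₂ → ∀ (M : IntermediateField ℚ K) (τ : M →+* ℂ),
    ‖τ (Algebra.trace M K θ) - ((zre t e M τ : ℂ) + (zim t e M τ : ℂ) * Complex.I)‖ ≤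
      ((r₁ + 2 * r₂ : ℕ) : ℝ) / ((t : ℝ) - 1) ^ (r₁ + 2 * r₂ - 1) ∧
    ((r₁ + 2 * r₂ : ℕ) : ℝ) / ((t : ℝ) - 1) ^ (r₁ + 2 * r₂ - 1) < 1 / 2 ∧
    ‖τ (Algebra.trace M K θ)‖ ≤ 2 * ((r₁ + 2 * r₂ : ℕ) : ℝ) * bd r₁ r₂ * t ∧
    ‖(zre t e M τ : ℂ) + (zim t e M τ : ℂ) * Complex.I‖ ≤
      ((r₁ + 2 * r₂ : ℕ) : ℝ) * bd r₁ r₂ * t

/-- BLR (90 lines). The case of a real block sum.  Uses TRA, NIZ.

PROOF. `s` = trace of `θ`, integral; `a = zre τ₀`, `s - a` is integral.  `∏ τ, |τ s - a|`: the factor of `τ₀` is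
at most `n ε`, the others at most `3 n b t ≤ 8 n b t =: Y`, `Y ≥ 1`, and there are `finrank ℚ M - 1 ≤ n - 2` of
them (`M ≠ ⊤`, so `finrank ℚ M < finrank ℚ K = n`).  By `Big` the product is at most `n ε Y ^ (n - 2) < 1`, so
`s = a` (NIZ for the number field `M`).  So for all `τ` the Gaussian integer `zre τ + zim τ i - a` has absolute
value `< 1/2`, hence it is zero. -/
def BlrStmt : Prop := TraStmt → BlcStmt → TreStmt → SpcStmt → NizStmt → ∀ (r₁ r₂ t : ℕ)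
  (x : Ro r₁ r₂ → ℂ) (K : Type) [Field K] [NumberField K] (θ : K) (e : Ro r₁ r₂ ≃ (K →+* ℂ)),
  Fld r₁ r₂ t x K θ e → Big r₁ r₂ t → 3 ≤ r₁ + r₂ → ∀ (M : IntermediateField ℚ K), M ≠ ⊤ →
  ∀ τ₀ : M →+* ℂ, zim t e M τ₀ = 0 → ∀ τ : M →+* ℂ, zre t e M τ = zre t e M τ₀ ∧ zim t e M τ = 0

/-- BLI (120 lines). The case of a block sum which is not real.  Uses TRA, BLC, NIZ.

PROOF. `A = zre τ₀`, `B = zim τ₀ ≠ 0`, `z = A + B i`, `c = (s - A) ^ 2 + B ^ 2` is integral,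
`τ c = (τ s - z) (τ s - conj z)`.  `τ₀' = conjugate τ₀ ≠ τ₀` (BLC: `zim τ₀' = -B ≠ B`).  `|τ₀ c| ≤ n ε Y`, and
`|τ₀' c| = |τ₀ c|` (`τ₀' c = conj (τ₀ c)`); the others are at most `Y ^ 2`, `Y = 8 n b t ≥ 3 n b t`, `Y ≥ 1`.  With
`m = finrank ℚ M` (number of the `τ`), `2 m ≤ n` (`M ≠ ⊤`, `Module.finrank_mul_finrank`): the product is at most
`(n ε Y) ^ 2 Y ^ (2 (m - 2)) ≤ (n ε) ^ 2 Y ^ (n - 2) < n ε < 1` (`Big`).  So `c = 0` (NIZ). -/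
def BliStmt : Prop := TraStmt → BlcStmt → TreStmt → SpcStmt → NizStmt → ∀ (r₁ r₂ t : ℕ)
  (x : Ro r₁ r₂ → ℂ) (K : Type) [Field K] [NumberField K] (θ : K) (e : Ro r₁ r₂ ≃ (K →+* ℂ)),
  Fld r₁ r₂ t x K θ e → Big r₁ r₂ t → 3 ≤ r₁ + r₂ → ∀ (M : IntermediateField ℚ K), M ≠ ⊤ →
  ∀ τ₀ : M →+* ℂ, zim t e M τ₀ ≠ 0 →
    (Algebra.trace M K θ - (zre t e M τ₀ : M)) ^ 2 + (zim t e M τ₀ : M) ^ 2 = 0

/-- TWO (80 lines). A proper subfield forces a square root of `-1`.  Uses BLR, BLI, BLC, SUB.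

PROOF. Let `τ₀` be an embedding of `M`.  If `zim τ₀ = 0`: `M ≠ ⊥` has another embedding `τ₁` (`finrank ℚ M ≥ 2`), by
BLR `zre τ₁ = zre τ₀`, `zim τ₁ = 0 = zim τ₀`.  With `β o = 1` on the block of `τ₀`, `-1` on the (disjoint)
block of `τ₁` and `0` otherwise: `∑ β o * omre o = 0`, `∑ β o * omim o = 0` (divide by `t > 0`), so `β = 0` by
SUB; but the block of `τ₀` is not empty (its cardinality is `finrank M K > 0`).  So `B = zim τ₀ ≠ 0` and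
`ι = (s - zre τ₀) / B`. -/
def TwoStmt : Prop := BlrStmt → BliStmt → TraStmt → BlcStmt → TreStmt → SpcStmt → NizStmt →
  SubStmt → FivStmt → ∀ (r₁ r₂ t : ℕ)
  (x : Ro r₁ r₂ → ℂ) (K : Type) [Field K] [NumberField K] (θ : K) (e : Ro r₁ r₂ ≃ (K →+* ℂ)),
  Fld r₁ r₂ t x K θ e → Big r₁ r₂ t → 3 ≤ r₁ + r₂ → ∀ (M : IntermediateField ℚ K), M ≠ ⊤ → M ≠ ⊥ →
  ∃ ι : K, ι ^ 2 = -1

/-- NOI (100 lines). `K` has no square root of `-1`.  Uses SPC, NIZ.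

PROOF. Let `ι ^ 2 = -1`; `e o ι = ± i` for all `o`.  Fix `o₀` and `κ = ± 1` with `e o₀ ι = κ i`; then
`e (st o₀) ι = conj (e o₀ ι) = - κ i`, so `st o₀ ≠ o₀`.  `W = t omre o₀ + κ t omim o₀ ι` is integral,
`e o₀ W = t ω_(o₀)`, `e (st o₀) W = conj (t ω_(o₀)) = t ω_(st o₀)`, and `e o W ∈ {t ω_(o₀), conj}` for all `o`.
`a = W - θ` is integral; in `∏ o, |e o a|` (= the product over all embeddings) the factors of `o₀` and `st o₀` are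
at most `ε`, the `n - 2` others at most `b t + |x o| ≤ 3 b t ≤ Y`, so the product is at most
`ε ^ 2 Y ^ (n - 2) < 1` by `Big`.  So `a = 0` (NIZ), `x o₀ = e o₀ θ = e o₀ W = t ω_(o₀)`, which contradicts `one` (a
factor is `0`). -/
def NoiStmt : Prop := SpcStmt → NizStmt → ∀ (r₁ r₂ t : ℕ)
  (x : Ro r₁ r₂ → ℂ) (K : Type) [Field K] [NumberField K] (θ : K) (e : Ro r₁ r₂ ≃ (K →+* ℂ)),
  Fld r₁ r₂ t x K θ e → Big r₁ r₂ t → 3 ≤ r₁ + r₂ → ∀ ι : K, ι ^ 2 ≠ -1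

/-! ### Counting -/

/-- BGT (40 lines). All large `t` are large.

PROOF. `(t - 1) ^ (n - 1) / t ^ (n - 2) → ∞` (for `t ≥ 2`: `(t - 1) ^ (n - 1) ≥ (t / 2) ^ (n - 1)`); `n ≥ 1` is needed
only for `n - 1 = (n - 2) + 1`, so `2 ≤ n` is assumed. -/
def BgtStmt : Prop := ∀ r₁ r₂ : ℕ, 2 ≤ r₁ + r₂ → ∃ t₀ : ℕ, ∀ t : ℕ, t₀ ≤ t → Big r₁ r₂ t

/-- FFE (90 lines). The fields inside `ℂ`.  Uses FCT, SPC, IRE, ROO, EMB.

PROOF. `x` from ROO, `o₀` fixed, `K = IntermediateField.adjoin ℚ {x o₀}`, `θ` its generator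
(`IntermediateField.AdjoinSimple.gen`), `aeval θ (G - 1) = 0` since `x o₀` is a root of `G - 1` (`prod`); `K` is
finite over `ℚ`, so a number field; EMB. -/
def FfeStmt : Prop := FctStmt → SpcStmt → IreStmt → RooStmt → EmbStmt → ∀ r₁ r₂ t : ℕ, 4 ≤ t →
  0 < r₁ + r₂ → ∃ (K : IntermediateField ℚ ℂ) (_ : NumberField K) (x : Ro r₁ r₂ → ℂ) (θ : K)
    (e : Ro r₁ r₂ ≃ (K →+* ℂ)), Fld r₁ r₂ t x K θ e

/-- The conclusion of FFE. -/
def FfeConcl : Prop := ∀ r₁ r₂ t : ℕ, 4 ≤ t → 0 < r₁ + r₂ →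
  ∃ (K : IntermediateField ℚ ℂ) (_ : NumberField K) (x : Ro r₁ r₂ → ℂ) (θ : K)
    (e : Ro r₁ r₂ ≃ (K →+* ℂ)), Fld r₁ r₂ t x K θ e

/-- The conclusion of DSJ. -/
def DsjConcl : Prop := ∀ r₁ r₂ : ℕ, 2 ≤ r₁ + r₂ → ∃ (δ : ℝ) (N₀ : ℕ), 0 < δ ∧ δ ≤ 1 ∧
  ∀ N : ℕ, N₀ ≤ N →
  ∀ (K : Type) [Field K] [NumberField K] (t t' : ℕ) (x x' : Ro r₁ r₂ → ℂ) (θ θ' : K)
    (e : Ro r₁ r₂ ≃ (K →+* ℂ)), Fld r₁ r₂ t x K θ e → Fld r₁ r₂ t' x' K θ' e →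
    N ≤ t → N ≤ t' → (t : ℝ) ≤ (1 + δ) * N → (t' : ℝ) ≤ (1 + δ) * N → t = t'

/-- COU (110 lines). The number of the fields.

PROOF. `δ, N₀` from DSJ.  For `t` in the interval `[N, (1 + δ) N]` (at least `δ N` integers, all `≤ 2 N`) let
`K_t` be the field of FFE, with `x_t`, `θ_t`, `e_t`; `S` the image of `t ↦ K_t`.  For a field `K` the map
`t ↦ e_t` is injective on the set of `t` with `K_t = K` by DSJ, so this set has at most
`card (Ro ≃ (K →+* ℂ)) = n!` elements (`Fintype.card_equiv`).  So `S.card ≥ δ N / n!`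
(`Finset.card_le_mul_card_image`). -/
def CouStmt : Prop := FfeConcl → DsjConcl → ∀ r₁ r₂ : ℕ, 2 ≤ r₁ + r₂ →
  ∃ (c : ℝ) (N₀ : ℕ), 0 < c ∧ ∀ N : ℕ, N₀ ≤ N → ∃ S : Finset (IntermediateField ℚ ℂ),
    c * N ≤ S.card ∧ ∀ K ∈ S, ∃ (_ : NumberField K) (t : ℕ) (x : Ro r₁ r₂ → ℂ) (θ : K)
      (e : Ro r₁ r₂ ≃ (K →+* ℂ)), N ≤ t ∧ t ≤ 2 * N ∧ Fld r₁ r₂ t x K θ e

/-- The conclusion of COU. -/
def CouConcl : Prop := ∀ r₁ r₂ : ℕ, 2 ≤ r₁ + r₂ →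
  ∃ (c : ℝ) (N₀ : ℕ), 0 < c ∧ ∀ N : ℕ, N₀ ≤ N → ∃ S : Finset (IntermediateField ℚ ℂ),
    c * N ≤ S.card ∧ ∀ K ∈ S, ∃ (_ : NumberField K) (t : ℕ) (x : Ro r₁ r₂ → ℂ) (θ : K)
      (e : Ro r₁ r₂ ≃ (K →+* ℂ)), N ≤ t ∧ t ≤ 2 * N ∧ Fld r₁ r₂ t x K θ e

/-- The conclusion of REB. -/
def RebConcl : Prop := ∀ (r₁ r₂ t : ℕ)
  (x : Ro r₁ r₂ → ℂ) (K : Type) [Field K] [NumberField K] (θ : K) (e : Ro r₁ r₂ ≃ (K →+* ℂ)),
  Fld r₁ r₂ t x K θ e → 4 ≤ t → 2 ≤ r₁ + r₂ →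
  Units.regulator K ≤ ((r₁ + r₂ - 1).factorial : ℝ) *
    (2 * ((r₁ + 2 * r₂ : ℕ) : ℝ) * Real.log (3 * bd r₁ r₂ * t)) ^ (r₁ + r₂ - 1)

/-- The conclusion of TWO. -/
def TwoConcl : Prop := ∀ (r₁ r₂ t : ℕ)
  (x : Ro r₁ r₂ → ℂ) (K : Type) [Field K] [NumberField K] (θ : K) (e : Ro r₁ r₂ ≃ (K →+* ℂ)),
  Fld r₁ r₂ t x K θ e → Big r₁ r₂ t → 3 ≤ r₁ + r₂ → ∀ (M : IntermediateField ℚ K), M ≠ ⊤ → M ≠ ⊥ →
  ∃ ι : K, ι ^ 2 = -1

/-- The conclusion of NOI. -/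
def NoiConcl : Prop := ∀ (r₁ r₂ t : ℕ)
  (x : Ro r₁ r₂ → ℂ) (K : Type) [Field K] [NumberField K] (θ : K) (e : Ro r₁ r₂ ≃ (K →+* ℂ)),
  Fld r₁ r₂ t x K θ e → Big r₁ r₂ t → 3 ≤ r₁ + r₂ → ∀ ι : K, ι ^ 2 ≠ -1

/-- Many fields of small regulator. -/
def LwfConcl : Prop := ∀ r₁ r₂ : ℕ, 3 ≤ r₁ + r₂ → ∃ c T₀ : ℝ, 0 < c ∧ ∀ T : ℝ, T₀ ≤ T →
  ∃ S : Finset (IntermediateField ℚ ℂ), (S : Set (IntermediateField ℚ ℂ)) ⊆ PrimReg r₁ r₂ T ∧
    Real.exp (c * T ^ (1 / ((r₁ : ℝ) + r₂ - 1))) ≤ S.card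

/-- LWF (110 lines). The lower bound.

PROOF. `r = r₁ + r₂ - 1`, `c₂ = 1 / (4 n r!)`, `N = ⌊exp (c₂ T ^ (1/r))⌋`, so `N → ∞` with `T`.  For `K ∈ S` (COU for
`N`), with its `t ∈ [N, 2 N]`: primitive by TWO and NOI (`BGT`), the signature by PLA, and by REB
`regulator K ≤ r! (2 n log (6 b N)) ^ r ≤ r! (2 n (log (6 b) + c₂ T ^ (1/r))) ^ r ≤ r! (4 n c₂ T ^ (1/r)) ^ r ≤ T` for
large `T` (`r! (1 / r!) ^ r ≤ 1`, `r ≥ 1`).  `S.card ≥ c₁ N ≥ exp (c₂ / 2 T ^ (1/r))` for large `T`. -/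
def LwfStmt : Prop := CouConcl → RebConcl → TwoConcl → NoiConcl → PlaStmt → BgtStmt → LwfConcl

/-- LOW (20 lines). The conclusion of block E.

PROOF. `Set.ncard_coe_finset`, `Set.ncard_le_ncard` with the finiteness. -/
def LowStmt : Prop := LwfConcl → (∀ r₁ r₂ : ℕ, 3 ≤ r₁ + r₂ → ∀ T : ℝ, (PrimReg r₁ r₂ T).Finite) →
  LowConcl

end Pool.Agent.LRG.E
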