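import Mathlib

/-!
# Squad LRG, definitions of block B (the p-adic counting theorem PPW)

Points are functions `x : Fin (m + k) → ℤ`. The first `k` entries are the algebraic coordinates
`zv x : Fin k → ℤ`, the last `m` entries are the free coordinates `wv x : Fin m → ℤ` (the
coordinates `w` of the note). The same definitions are used with values in every commutative ring
`O` (integers, `p`-adic integers, power series rings).
-/

set_option autoImplicit false

open Polynomial

namespace Pool.Agent.LRG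

/-- The algebraic coordinates (the first `k`). -/
def zv {m k : ℕ} {O : Type} (x : Fin (m + k) → O) : Fin k → O := fun j => x ⟨j, by omega⟩

/-- The free coordinates (the last `m`). -/
def wv {m k : ℕ} {O : Type} (x : Fin (m + k) → O) : Fin m → O := fun i => x ⟨k + i, by omega⟩

/-- The value at `(wv x, zv x j)` of a polynomial with coefficients in `ℤ[w]`. -/
noncomputable def gev {m k : ℕ} {O : Type} [CommRing O] (x : Fin (m + k) → O) (j : Fin k)
    (g : (MvPolynomial (Fin m) ℤ)[X]) : O :=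
  g.eval₂ (MvPolynomial.eval₂Hom (Int.castRingHom O) (wv x)) (zv x j)

/-- Polynomials over `ℤ[w]` of degree at most `E` with coefficients of degree at most `E`. -/
def BddG (E : ℕ) {m k : ℕ} (G : Fin k → (MvPolynomial (Fin m) ℤ)[X]) : Prop :=
  ∀ j, G j ≠ 0 ∧ (G j).natDegree ≤ E ∧ ∀ i, ((G j).coeff i).totalDegree ≤ E

/-- A chart: on the finite set `T` every algebraic coordinate is a simple root of a polynomial over
`ℤ[w]` with non-vanishing leading coefficient, all degrees at most `E`. -/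
def Chart (E : ℕ) {m k : ℕ} (T : Finset (Fin (m + k) → ℤ))
    (G : Fin k → (MvPolynomial (Fin m) ℤ)[X]) : Prop :=
  BddG E G ∧ ∀ j, ∀ x ∈ T, gev x j (G j) = 0 ∧ gev x j (derivative (G j)) ≠ 0 ∧
    MvPolynomial.eval (wv x) (G j).leadingCoeff ≠ 0

/-- The free coordinates satisfy on `T` a polynomial relation of degree at most `E`. -/
def DepW (E : ℕ) {m k : ℕ} (T : Finset (Fin (m + k) → ℤ)) : Prop :=
  ∃ g : MvPolynomial (Fin m) ℤ, g ≠ 0 ∧ g.totalDegree ≤ E ∧ ∀ x ∈ T, MvPolynomial.eval (wv x) g = 0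

/-- Robust independence of the free coordinates: no relation of degree at most `E` on any subset
with at least the `L`-th part of the points. -/
def Rob (E : ℕ) (L : ℝ) {m k : ℕ} (T : Finset (Fin (m + k) → ℤ)) : Prop :=
  ∀ T' ⊆ T, (T.card : ℝ) ≤ L * (T'.card : ℝ) → ¬ DepW E T'

/-! ### The tower -/

/-- The value at `V` of the polynomial with coefficients `c` (all exponents at most `D`). -/
def gv {O : Type} [CommRing O] {n D : ℕ} (c : (Fin n → Fin (D + 1)) → O) (V : Fin n → O) : O :=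
  ∑ α, c α * ∏ i, V i ^ (α i : ℕ)

/-- The tower of the variables `y`: `y⁰ = w` and
`yʲ⁺¹ i = yʲ i - z ^ ((D j + 1) ^ (i + 1))`, where `z` is the new coordinate (the first one). -/
def yv (D : ℕ → ℕ) {m : ℕ} {O : Type} [CommRing O] : (k : ℕ) → (Fin (m + k) → O) → Fin m → O
  | 0, x => x
  | k + 1, x => fun i =>
      yv D k (Fin.tail (n := m + k) (α := fun _ => O) x) i -
        x (0 : Fin (m + k + 1)) ^ (D k + 1) ^ ((i : ℕ) + 1)

/-- The tower relations with coefficients `s`: for every `j < k` the polynomial with coefficients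
`s j` vanishes at (new coordinate, `yʲ`). -/
def Rels (D : ℕ → ℕ) {m : ℕ} {O : Type} [CommRing O]
    (s : (j : ℕ) → (Fin (m + 1) → Fin (D j + 1)) → O) : (k : ℕ) → (Fin (m + k) → O) → Prop
  | 0, _ => True
  | k + 1, x => Rels D s k (Fin.tail (n := m + k) (α := fun _ => O) x) ∧
      gv (s k) (Fin.cons (α := fun _ => O) (x (0 : Fin (m + k + 1)))
        (yv D k (Fin.tail (n := m + k) (α := fun _ => O) x))) = 0

/-! ### Power series over the `p`-adic integers -/

/-- `x` is a zero of the power series `F` (the value is given by the, unique, homomorphism of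
`ℤ_[p]`-algebras with `X i ↦ x i`). -/
def EvZ {p : ℕ} [Fact p.Prime] {σ : Type} (F : MvPowerSeries σ ℤ_[p]) (x : σ → ℤ) : Prop :=
  ∃ φ : MvPowerSeries σ ℤ_[p] →ₐ[ℤ_[p]] ℤ_[p], (∀ i, φ (MvPowerSeries.X i) = x i) ∧ φ F = 0

/-- All coefficients are dominated by coefficients of degree at most `K`. -/
def Dom {p : ℕ} [Fact p.Prime] {m : ℕ} (K : ℕ) (h : MvPowerSeries (Fin m) ℤ_[p]) : Prop :=
  ∀ α : Fin m →₀ ℕ, ∃ β : Fin m →₀ ℕ, β.degree ≤ K ∧
    ‖MvPowerSeries.coeff α h‖ ≤ ‖MvPowerSeries.coeff β h‖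

/-- `ξ` is an algebraic arc: `ξ i` is algebraic over `ℤ_p[t]`. -/
def AlgArc {p : ℕ} [Fact p.Prime] {σ : Type} (ξ : σ → PowerSeries ℤ_[p]) : Prop :=
  ∀ i, ∃ H : ℤ_[p][X][X], H ≠ 0 ∧
    H.eval₂ (eval₂RingHom (PowerSeries.C (R := ℤ_[p])) PowerSeries.X) (ξ i) = 0

/-- The conclusion of the counting theorem: an algebraic arc `ξ` on which `F` vanishes, starting at
`y 0`, such that all polynomials over `ℤ` which vanish on the arc vanish at the `K₀ + 1` different
points `y 0, ..., y K₀` of `S`. -/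
def ArcConcl {p : ℕ} [Fact p.Prime] {σ : Type} (F : MvPowerSeries σ ℤ_[p]) (K₀ : ℕ)
    (S : Finset (σ → ℤ)) : Prop :=
  ∃ (y : Fin (K₀ + 1) → σ → ℤ) (ξ : σ → PowerSeries ℤ_[p]), Function.Injective y ∧
    (∀ a, y a ∈ S) ∧ (∀ i, PowerSeries.constantCoeff (ξ i) = (y 0 i : ℤ_[p])) ∧ AlgArc ξ ∧
    (∃ Φ : MvPowerSeries σ ℤ_[p] →ₐ[ℤ_[p]] PowerSeries ℤ_[p],
      (∀ i, Φ (MvPowerSeries.X i) = ξ i) ∧ Φ F = 0) ∧
    ∀ q : MvPolynomial σ ℤ, MvPolynomial.aeval ξ q = 0 → ∀ a, MvPolynomial.eval (y a) q = 0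

/-- THEOREM PPW, the `p`-adic counting theorem: more than `B X ^ ε` integral zeros of `F` of height
at most `X`, all coordinates divisible by `p`, give an algebraic arc. -/
def PpwStmt : Prop := ∀ (p : ℕ) [Fact p.Prime] (σ : Type) [Fintype σ] (F : MvPowerSeries σ ℤ_[p])
  (K₀ : ℕ) (ε : ℝ), 0 < ε → ∃ B : ℝ, ∀ X : ℕ, 1 ≤ X → ∀ S : Finset (σ → ℤ),
    (∀ x ∈ S, ∀ i, |x i| ≤ X ∧ (p : ℤ) ∣ x i) → (∀ x ∈ S, EvZ F x) →
    B * (X : ℝ) ^ ε < S.card → ArcConcl F K₀ S

end Pool.Agent.LRG
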