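import Pool.Agent.LRG.Defs

/-!
# Squad LRG: definitions for block C and the border between `StmtsK` and `StmtsC`

`StmtsK` (helper69) proves `KolConcl`, `StmtsC` (helper5) proves `BlkConcl` from `KolConcl`.
-/

set_option autoImplicit false

open Polynomial NumberField

namespace Pool.Agent.LRG

/-- The coordinates `y = z₀ + p ^ 2 ξ` of an arc, in a ring `Ω` over the power series. -/
noncomputable def yO {p : ℕ} [Fact p.Prime] {n r : ℕ} (z₀ : Ix n r → ℤ)
    (ξ : Ix n r → PowerSeries ℤ_[p]) (Ω : Type) [CommRing Ω] [Algebra (PowerSeries ℤ_[p]) Ω] :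
    Ix n r → Ω :=
  fun s => (z₀ s : Ω) + (p : Ω) ^ 2 * algebraMap (PowerSeries ℤ_[p]) Ω (ξ s)

/-- `Ω` is a differential field over `ℤ_p[[t]]` in which the polynomials `chiI` of the arc `ξ` split,
with the roots `x i j`. -/
structure Arc (p : ℕ) [Fact p.Prime] {n r : ℕ} (z₀ : Ix n r → ℤ) (e : Fin r → ℤ)
    (ξ : Ix n r → PowerSeries ℤ_[p]) (Ω : Type) [Field Ω] [Algebra (PowerSeries ℤ_[p]) Ω]
    (D : Derivation ℤ Ω Ω) (x : Fin r → Fin n → Ω) : Prop where
  inj : Function.Injective (algebraMap (PowerSeries ℤ_[p]) Ω)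
  der : ∀ g : PowerSeries ℤ_[p], D (algebraMap _ Ω g) =
    algebraMap _ Ω (PowerSeries.derivative ℤ_[p] g)
  roots : ∀ i, chiI e (yO z₀ ξ Ω) i = ∏ j, (X - C (x i j))

/-- The Lagrange polynomial with value `0` at the nodes `x j'` for `j'` different from `j`
(numerator). -/
noncomputable def lagP {n : ℕ} {S : Type} [CommRing S] (x : Fin n → S) (j : Fin n) : S[X] :=
  ∏ j' ∈ Finset.univ.erase j, (X - C (x j'))

/-- The value of `lagP x j` at `x j`. -/
noncomputable def lagD {n : ℕ} {S : Type} [CommRing S] (x : Fin n → S) (j : Fin n) : S :=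
  ∏ j' ∈ Finset.univ.erase j, (x j - x j')

/-- The product of the `lagD x j'` for `j'` different from `j`. -/
noncomputable def lagE {n : ℕ} {S : Type} [CommRing S] (x : Fin n → S) (j : Fin n) : S :=
  ∏ j' ∈ Finset.univ.erase j, lagD x j'

/-- The coefficients of the Gram form in the values at the roots, with cleared denominators:
`(∏ j, lagD (x i) j) * (∏ j, lagD (x i') j) * gram y l i i' = ∑ j j', cc i i' j j' * l i (x i j) *
l i' (x i' j')` for polynomials `l i` of degree less than `n`. -/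
noncomputable def cc {n r : ℕ} {S : Type} [CommRing S] (y : Ix n r → S) (x : Fin r → Fin n → S)
    (i i' : Fin r) (j j' : Fin n) : S :=
  (∑ a : Fin n, ∑ b : Fin n, (lagP (x i) j).coeff a * (lagP (x i') j').coeff b *
    y (Sum.inr (i, i', a, b))) * lagE (x i) j * lagE (x i') j'

/-- The top form of the Gram determinant vanishes: `N k` is the vector of the exponents of the
root `x k`. -/
def TopId {n r q : ℕ} {S : Type} [CommRing S] (y : Ix n r → S) (x : Fin r → Fin n → S)
    (N : Fin r × Fin n → Fin q → ℤ) : Prop :=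
  ∀ Z : Fin q → ℤ, (Matrix.of fun i i' : Fin r => ∑ j : Fin n, ∑ j' : Fin n,
    cc y x i i' j j' * ((∑ l, N (i, j) l * Z l : ℤ) : S) *
      ((∑ l, N (i', j') l * Z l : ℤ) : S)).det = 0

/-- The conclusion of `StmtsK` (Kolchin and Ostrowski): if the universal Gram determinant vanishes
on an algebraic arc, then modulo constants the roots are products of powers of elements
`v l = ∏ x ^ B l`, with exponents `N`, and the top form of the Gram determinant vanishes. -/
def KolConcl : Prop := ∀ (p : ℕ) [Fact p.Prime] (n r : ℕ) (z₀ : Ix n r → ℤ) (e : Fin r → ℤ)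
  (M : ℕ) (F : MvPowerSeries (Ix n r) ℤ_[p]), 0 < M → Univ p z₀ e M F →
  ∀ (ξ : Ix n r → PowerSeries ℤ_[p]), (∀ s, AlgT (ξ s)) → VanT p F ξ →
  ∀ (Ω : Type) [Field Ω] [CharZero Ω] [Algebra (PowerSeries ℤ_[p]) Ω] (D : Derivation ℤ Ω Ω)
    (x : Fin r → Fin n → Ω), Arc p z₀ e ξ Ω D x → (∀ i, Function.Injective (x i)) →
    (∀ i j, x i j ≠ 0) →
    ∃ (q : ℕ) (B : Fin q → Fin r × Fin n → ℤ) (N : Fin r × Fin n → Fin q → ℤ),
      (∀ k, D (x k.1 k.2 / ∏ l, (∏ k', x k'.1 k'.2 ^ B l k') ^ N k l) = 0) ∧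
      TopId (yO z₀ ξ Ω) x N

end Pool.Agent.LRG
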