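import Pool.Agent.LRG.DefsC
import Pool.Agent.LUB.Stmts

/-!
# Squad LRG, block K: Kolchin and Ostrowski on an arc (author helper74): `KolConcl` of `DefsC`

Let `ξ` be an algebraic arc on which the universal Gram determinant `F` vanishes, `y = z₀ + p ^ 2 ξ`,
`x i j` the roots of `chiI e y i` in the differential field `Ω`. Over `O = ℤ_p[[t]]` the property
`Univ` gives `w, b, l` with `det (gram y l) = 0`. The elements `L i j = l i (x i j)` satisfy
`D (L i j) = M D (x i j) / x i j` (LGV), and by Lagrange interpolation (LAG, GRM)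
`det (∑ j j', cc i i' j j' * L i j * L i' j') = 0`. With a basis `v l = ∏ x ^ B l` of the group of
the products of the `x i j` modulo constants (LUB.BAS, row BZV) one has
`L i j / M = κ i j + ∑ l, N (i, j) l * z l` with constants `κ i j` and `D (z l) = D (v l) / v l`. The
`z l` are algebraically independent over the algebraic functions (AIN), so the top form in the `z l` of
the determinant vanishes (TPD): this is `TopId`.

DELIVER: `Pool/Agent/HelperNN_LRG/XXX.lean`, import `Pool.Agent.LRG.StmtsK`, namespace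
`Pool.Agent.LRG.HNN`, `theorem xxx (hypotheses = rows in uses, in this order) : K.XxxStmt`
(for KOL: `: KolConcl`).
-/

set_option autoImplicit false

open Polynomial

namespace Pool.Agent.LRG.K

/-- CHM (40 lines, no hypotheses). The polynomials `chi`: compatible with homomorphisms, and monic.
PROOF. `Polynomial.map_add`, `map_sum`, `map_mul`, `map_pow`, `map_X`, `map_C` (`f (e : S) = e`); for
`0 < n` all terms except `X ^ n` have degree `< n` (`Polynomial.monic_X_pow_add`). -/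
def ChmStmt : Prop :=
  (∀ (S T : Type) [CommRing S] [CommRing T] (f : S →+* T) (n : ℕ) (e : ℤ) (y : Fin (n - 1) → S),
    (chi n e y).map f = chi n e (fun j => f (y j))) ∧
  ∀ (S : Type) [CommRing S] (n : ℕ) (e : ℤ) (y : Fin (n - 1) → S), 0 < n → (chi n e y).Monic

/-- LGV (120 lines; uses CHM, LUB.LgdStmt). The derivative of `l i (x i j)`.
PROOF. `n > 0` since `j : Fin n`. `F = chiI e y i` is monic (CHM) and its image in `Ω[X]` is
`chiI e (yO z₀ ξ Ω) i = ∏ j, (X - C (x i j))` (CHM, `Arc.roots`). So `aeval (x i j) F = 0`, and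
`aeval (x i j) (derivative F) = ∏ j' ≠ j, (x i j - x i j') ≠ 0` (`Polynomial.derivative_map`,
`Polynomial.eval_derivative_prod...` or `Multiset`; or: separable product). Evaluate the hypothesis on
`X ^ M` at `x i j`: `(x i j) ^ M = 1 + p ^ 2 * aeval (x i j) (w i)`, apply `D`:
`M * x ^ (M - 1) * D x = p ^ 2 * D (aeval x (w i))`. LGD gives
`D (aeval x (l i)) * x ^ M = p ^ 2 * D (aeval x (w i)) = M * x ^ (M - 1) * D x`; divide by `x ^ M`. -/
def LgvStmt : Prop := ∀ (p : ℕ) [Fact p.Prime] (n r : ℕ) (z₀ : Ix n r → ℤ) (e : Fin r → ℤ)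
  (ξ : Ix n r → PowerSeries ℤ_[p]) (Ω : Type) [Field Ω] [CharZero Ω]
  [Algebra (PowerSeries ℤ_[p]) Ω] (D : Derivation ℤ Ω Ω) (x : Fin r → Fin n → Ω),
  Arc p z₀ e ξ Ω D x → (∀ i, Function.Injective (x i)) → (∀ i j, x i j ≠ 0) →
  ∀ y : Ix n r → PowerSeries ℤ_[p],
    (∀ s, y s = (z₀ s : PowerSeries ℤ_[p]) + (p : PowerSeries ℤ_[p]) ^ 2 * ξ s) →
  ∀ (M : ℕ) (w b l : Fin r → (PowerSeries ℤ_[p])[X]), 0 < M →
    (∀ i, (X : (PowerSeries ℤ_[p])[X]) ^ M =
      1 + C ((p : PowerSeries ℤ_[p]) ^ 2) * w i + chiI e y i * b i) →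
    (∀ i, LUB.LogMod p (chiI e y i) (w i) (l i)) →
    ∀ i j, D (aeval (x i j) (l i)) = (M : Ω) * (D (x i j) / x i j)

/-- LAG (60 lines, no hypotheses). Lagrange interpolation without denominators.
PROOF. The polynomials `C (∏ j, lagD x j) * P` and `∑ j, C (lagE x j * P.eval (x j)) * lagP x j` have
degree `< n` (`lagP x j` is a product of `n - 1` factors) and agree at the `n` different points `x k`:
`lagP x j` vanishes at `x k` for `k ≠ j`, and `(lagP x k).eval (x k) = lagD x k`,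
`lagD x k * lagE x k = ∏ j, lagD x j` (`Finset.mul_prod_erase`). So they are equal
(`Polynomial.eq_of_degree_sub_lt_of_eval_index_eq` or `Lagrange`), compare the coefficients. -/
def LagStmt : Prop := ∀ (E : Type) [Field E] (n : ℕ) (x : Fin n → E) (P : E[X]),
  Function.Injective x → (∀ m, n ≤ m → P.coeff m = 0) → ∀ a : ℕ,
    (∏ j, lagD x j) * P.coeff a = ∑ j, (lagP x j).coeff a * lagE x j * P.eval (x j)

/-- GRM (80 lines; uses LAG). The Gram determinant in the values at the roots.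
PROOF. Let `Δ i = ∏ j, lagD (x i) j`. By LAG for `l i`, `l i'`:
`Δ i * Δ i' * gram y l i i' = ∑ a b, (Δ i * (l i).coeff a) * (Δ i' * (l i').coeff b) *
y (inr (i, i', a, b)) = ∑ j j', cc y x i i' j j' * (l i).eval (x i j) * (l i').eval (x i' j')`
(`Finset.sum_mul_sum`, `Finset.sum_comm`). So the determinant is `(∏ i, Δ i) ^ 2 * (gram y l).det`
(`Matrix.det_mul_row`, `Matrix.det_mul_column`). -/
def GrmStmt : Prop := ∀ (E : Type) [Field E] (n r : ℕ) (y : Ix n r → E) (x : Fin r → Fin n → E)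
  (l : Fin r → E[X]), (∀ i, Function.Injective (x i)) → (∀ i m, n ≤ m → (l i).coeff m = 0) →
  (gram y l).det = 0 →
  (Matrix.of fun i i' : Fin r => ∑ j : Fin n, ∑ j' : Fin n,
    cc y x i i' j j' * (l i).eval (x i j) * (l i').eval (x i' j')).det = 0

/-- ALX (120 lines; uses CHM). Everything is algebraic over the field generated by `t` and the
constants. PROOF. Let `T` be the image of `t`, `A` the subfield of the elements of `Ω` which are
algebraic over `LUB.Fld D T` (`algebraicClosure (LUB.Fld D T) Ω`, see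
`Pool/Agent/Helper90_LUB/AXK.lean`: `Alg`, `mem_Alg`). The images of the elements of `ℤ_p` are
constants (`Arc.der`), so the image of every polynomial `f(t)` lies in `Fld D T`; these images are not
`0` for `f ≠ 0` (`Arc.inj`, `Polynomial.coe_injective`). So `AlgT (ξ s)` says that the image of `ξ s` is
a root of a polynomial `≠ 0` over `Fld D T`; hence `yO z₀ ξ Ω s` lies in `A`. The `x i j` are roots of
the monic polynomial `chiI e (yO z₀ ξ Ω) i` (CHM, `0 < n` as `j : Fin n`) over `A`, so they lie in `A`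
(transitivity). `cc` is built from them by ring operations (`Polynomial.coeff` of a product of
`X - C (x j)`: the polynomial is the image of a polynomial over `A`). -/
def AlxStmt : Prop := ∀ (p : ℕ) [Fact p.Prime] (n r : ℕ) (z₀ : Ix n r → ℤ) (e : Fin r → ℤ)
  (ξ : Ix n r → PowerSeries ℤ_[p]) (Ω : Type) [Field Ω] [CharZero Ω]
  [Algebra (PowerSeries ℤ_[p]) Ω] (D : Derivation ℤ Ω Ω) (x : Fin r → Fin n → Ω),
  Arc p z₀ e ξ Ω D x → (∀ s, AlgT (ξ s)) →
  (∀ i j, IsAlgebraic (LUB.Fld D (algebraMap (PowerSeries ℤ_[p]) Ω PowerSeries.X)) (x i j)) ∧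
  ∀ i i' j j', IsAlgebraic (LUB.Fld D (algebraMap (PowerSeries ℤ_[p]) Ω PowerSeries.X))
    (cc (yO z₀ ξ Ω) x i i' j j')

/-- The conclusion of the row OSC of squad LUB, proved as
`LUB.H22.osc (LUB.H61.ost LUB.H97.osa LUB.H86.osb)` (see `Helper42_LUB/Final.lean`). -/
def OscConcl : Prop := ∀ (Ω : Type) [Field Ω] [CharZero Ω] (D : Derivation ℤ Ω Ω) (T : Ω),
  D T ≠ 0 → ∀ (κ : Type) [Fintype κ] (v c : κ → Ω) (a : Ω), (∀ l, D (c l) = 0) → (∀ l, v l ≠ 0) →
  (∀ l, IsAlgebraic (LUB.Fld D T) (v l)) → IsAlgebraic (LUB.Fld D T) a →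
  (∀ m : κ → ℤ, D (∏ l, v l ^ m l) = 0 → m = 0) → ∑ l, c l * (D (v l) / v l) = D a → c = 0

/-- AIN (60 lines; uses OscConcl). Algebraic independence of the logarithms.
PROOF. This is the middle part (`hai`) of the proof of `LUB.H90.axk` (file
`Pool/Agent/Helper90_LUB/AXK.lean`, which may be imported: `Cst`, `Alg`, `der`, `derA`, `der_Alg`,
`mem_Alg`), with `A = Alg D T`; it uses `algebraicIndependent_of_primitives`
(`Helper65_Leo/Kolchin.lean`). -/
def AinStmt : Prop := ∀ (Ω : Type) [Field Ω] [CharZero Ω] (D : Derivation ℤ Ω Ω) (T : Ω),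
  D T ≠ 0 → ∀ (q : ℕ) (v z : Fin q → Ω), (∀ l, v l ≠ 0) →
  (∀ l, IsAlgebraic (LUB.Fld D T) (v l)) → (∀ l, D (z l) = D (v l) / v l) →
  (∀ m : Fin q → ℤ, D (∏ l, v l ^ m l) = 0 → m = 0) →
  ∃ A : Subfield Ω, (∀ a : Ω, a ∈ A ↔ IsAlgebraic (LUB.Fld D T) a) ∧ AlgebraicIndependent A z

/-- BZV (80 lines; uses LUB.BasStmt). The basis of the products modulo constants and the logarithms.
PROOF. The first part (`hDz`, `hκ`) of the proof of `LUB.H90.axk`, file
`Pool/Agent/Helper90_LUB/AXK.lean` (`ld_mul`, `ld_prod`, `ld_zpow`, `ld_inv`): with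
`v l = ∏ k, u k ^ B l k`, `z l = ∑ k, B l k * y k`. -/
def BzvStmt : Prop := ∀ (Ω : Type) [Field Ω] [CharZero Ω] (D : Derivation ℤ Ω Ω) (κ : Type)
  [Fintype κ] (u y : κ → Ω), (∀ k, u k ≠ 0) → (∀ k, D (y k) = D (u k) / u k) →
  ∃ (q : ℕ) (B : Fin q → κ → ℤ) (N : κ → Fin q → ℤ),
    (∀ k, D (u k / ∏ l, (∏ k', u k' ^ B l k') ^ N k l) = 0) ∧
    (∀ m : Fin q → ℤ, D (∏ l, (∏ k, u k ^ B l k) ^ m l) = 0 → m = 0) ∧
    (∀ l, D (∑ k, (B l k : Ω) * y k) = D (∏ k, u k ^ B l k) / ∏ k, u k ^ B l k) ∧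
    ∀ k, D (y k - ∑ l, (N k l : Ω) * ∑ k', (B l k' : Ω) * y k') = 0

/-- TPD (120 lines, no hypotheses). The top form of a determinant of quadratic polynomials.
PROOF. As `Helper13_LUB/DPL.lean`. The determinant of the matrix over `MvPolynomial (Fin q) A` with
the entries `∑ j j', C (c i i' j j') * (C (κ i j) + ∑ l, N (i, j) l * X l) * (C (κ i' j') +
∑ l, N (i', j') l * X l)` is `0` (its value at the algebraically independent `z` is `0`). Substitute
`X l ↦ Z l * T` (into `A[T]`): the determinant of the matrix over `A[T]` with the entries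
`∑ j j', C (c i i' j j') * (C (κ i j) + n (i, j) * T) * (C (κ i' j') + n (i', j') * T)`,
`n k = ∑ l, N k l * Z l`, is `0`. The entries have degree `≤ 2`, the coefficient of `T ^ 2` of the entry
is `∑ j j', c i i' j j' * n (i, j) * n (i', j')`. The coefficient of `T ^ (r * 2)` of the determinant is
the determinant of the coefficients of `T ^ 2` (`Matrix.det_apply`,
`Polynomial.coeff_prod_of_natDegree_le`). Apply `algebraMap A Ω`. -/
def TpdStmt : Prop := ∀ (Ω A : Type) [Field Ω] [Field A] [Algebra A Ω] (n r q : ℕ)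
  (z : Fin q → Ω), AlgebraicIndependent A z → ∀ (c : Fin r → Fin r → Fin n → Fin n → A)
  (κ : Fin r → Fin n → A) (N : Fin r × Fin n → Fin q → ℤ),
  (Matrix.of fun i i' : Fin r => ∑ j : Fin n, ∑ j' : Fin n, algebraMap A Ω (c i i' j j') *
    (algebraMap A Ω (κ i j) + ∑ l, (N (i, j) l : Ω) * z l) *
    (algebraMap A Ω (κ i' j') + ∑ l, (N (i', j') l : Ω) * z l)).det = 0 →
  ∀ Z : Fin q → ℤ, (Matrix.of fun i i' : Fin r => ∑ j : Fin n, ∑ j' : Fin n,
    algebraMap A Ω (c i i' j j') * ((∑ l, N (i, j) l * Z l : ℤ) : Ω) *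
      ((∑ l, N (i', j') l * Z l : ℤ) : Ω)).det = 0

/-- KOL (150 lines; uses CHM, LGV, GRM, ALX, AIN, BZV, TPD): `KolConcl`.
PROOF. `VanT` gives `φ` with `φ (X s) = ξ s`, `φ F = 0`. `Univ` for `O = ℤ_p[[t]]`,
`y s = z₀ s + p ^ 2 * ξ s` gives `w, b, l` with `(gram y l).det = φ F = 0`. Map to `Ω` by
`f = algebraMap`: `(gram (yO z₀ ξ Ω) (fun i => (l i).map f)).det = 0` (`RingHom.map_det`), so by GRM
`det (∑ j j', cc (yO z₀ ξ Ω) x i i' j j' * L i j * L i' j') = 0` with
`L i j = ((l i).map f).eval (x i j) = aeval (x i j) (l i)`. By LGV `D (L i j) = M * D (x i j) / x i j`.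
BZV with `κ = Fin r × Fin n`, `u k = x k.1 k.2`, `y k = L k.1 k.2 / M`
(`D (a / M) = D a / M` since `M` is an integer) gives `q, B, N`. Put `v l = ∏ u ^ B l`,
`z l = ∑ k, B l k * y k`, `κ i j = y (i, j) - ∑ l, N (i, j) l * z l`, a constant, hence in `Fld D T`,
`T` = the image of `t`, `D T = 1 ≠ 0`. AIN (the `v l` are algebraic by ALX: products of powers) gives
`A`; `cc .. ∈ A` by ALX, `κ i j ∈ A`. TPD with `c = cc ..`: its hypothesis is
`det (∑ cc * (L i j / M) * (L i' j' / M)) = 0`, which is the determinant above times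
`(M ^ 2)⁻¹ ^ r`. (All of this works also for `n = 0` or `r = 0`; for `r = 0` already `Univ` and `VanT`
contradict each other.) -/
def KolStmt : Prop := KolConcl

end Pool.Agent.LRG.K
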